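import Mathlib

open Polynomial

namespace Pool.Agent.Helper37

/-- Openness of injectivity in a polynomial one-parameter family of linear maps. -/
theorem gen_inj {K V ι : Type*} [Field K] [AddCommGroup V] [Module K V] [FiniteDimensional K V]
    [Fintype ι] [DecidableEq ι] (F : K → V →ₗ[K] (ι → K))
    (hF : ∀ v i, ∃ p : K[X], ∀ ε, F ε v i = p.eval ε) {ε₀ : K}
    (h0 : Function.Injective (F ε₀)) :
    ∃ p : K[X], p ≠ 0 ∧ ∀ ε, p.eval ε ≠ 0 → Function.Injective (F ε) := by
  classical
  obtain ⟨B, hB⟩ := (F ε₀).exists_leftInverse_of_injective (LinearMap.ker_eq_bot.2 h0)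
  let b := Module.finBasis K V
  choose p hp using hF
  let N : Matrix (Fin (Module.finrank K V)) (Fin (Module.finrank K V)) K[X] :=
    fun i j => ∑ k, C (b.repr (B (Pi.single k 1)) i) * p (b j) k
  have hN : ∀ ε, N.map (evalRingHom ε) = LinearMap.toMatrix b b (B ∘ₗ F ε) := by
    intro ε
    ext i j
    rw [Matrix.map_apply, LinearMap.toMatrix_apply, LinearMap.comp_apply]
    have h1 : F ε (b j) = ∑ k, F ε (b j) k • (Pi.single k (1 : K) : ι → K) := by
      ext k
      simp [Finset.sum_apply, Pi.single_apply]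
    conv_rhs => rw [h1]
    simp only [N]
    rw [map_sum, map_sum, map_sum, Finsupp.finsetSum_apply]
    refine Finset.sum_congr rfl (fun k _ => ?_)
    rw [map_smul, map_smul, Finsupp.smul_apply, smul_eq_mul, mul_comm, coe_evalRingHom,
      eval_mul, eval_C, ← hp]
  have hdet : ∀ ε, (N.det).eval ε = LinearMap.det (B ∘ₗ F ε) := by
    intro ε
    rw [← LinearMap.det_toMatrix b, ← hN, ← coe_evalRingHom, RingHom.map_det]
    rfl
  refine ⟨N.det, ?_, ?_⟩
  · intro h
    have := hdet ε₀
    rw [h, hB] at this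
    simp at this
  · intro ε hε
    rw [hdet] at hε
    have hu : IsUnit (B ∘ₗ F ε) := by
      rw [LinearMap.isUnit_iff_isUnit_det]
      exact hε.isUnit
    have hinj : Function.Injective (B ∘ₗ F ε) := by
      have := (Module.End.isUnit_iff _).1 hu
      exact this.1
    exact Function.Injective.of_comp (f := B) (g := F ε) hinj

/-- A finite set of exceptions suffices. -/
theorem gen_inj_finite {K V ι : Type*} [Field K] [AddCommGroup V] [Module K V]
    [FiniteDimensional K V]
    [Fintype ι] [DecidableEq ι] (F : K → V →ₗ[K] (ι → K))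
    (hF : ∀ v i, ∃ p : K[X], ∀ ε, F ε v i = p.eval ε) {ε₀ : K}
    (h0 : Function.Injective (F ε₀)) :
    ∃ s : Finset K, ∀ ε, ε ∉ s → Function.Injective (F ε) := by
  classical
  obtain ⟨p, hp, h⟩ := gen_inj F hF h0
  refine ⟨p.roots.toFinset, fun ε hε => h ε (fun h0 => hε ?_)⟩
  rw [Multiset.mem_toFinset, mem_roots hp]
  exact h0

end Pool.Agent.Helper37
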