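import Mathlib
import Pool.Agent.Helper37.Gen

open Polynomial Finset

namespace Pool.Agent.Helper37

variable {K : Type*} [Field K]

/-- The coefficients of `p` in degrees `e ≤ x < L` vanish. -/
def Mid (e L : ℕ) (p : K[X]) : Prop := ∀ x, e ≤ x → x < L → p.coeff x = 0

lemma mem_degreeLT_iff_coeff {n : ℕ} {p : K[X]} :
    p ∈ degreeLT K n ↔ ∀ x, n ≤ x → p.coeff x = 0 := by
  rw [mem_degreeLT, degree_lt_iff_coeff_zero]

lemma mul_mem_degreeLT {m n : ℕ} {p q : K[X]} (hp : p.natDegree ≤ m) (hq : q ∈ degreeLT K n) :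
    p * q ∈ degreeLT K (m + n) := by
  rw [mem_degreeLT] at *
  rcases eq_or_ne p 0 with rfl | h0
  · rw [zero_mul, degree_zero]; exact WithBot.bot_lt_coe _
  · rw [degree_mul, Nat.cast_add]
    refine WithBot.add_lt_add_of_le_of_lt ?_ ?_ hq
    · rw [Ne, degree_eq_bot]; exact h0
    · exact (degree_le_natDegree).trans (by exact_mod_cast hp)

lemma mid_decomp {e L : ℕ} {p : K[X]} (hp : p ∈ degreeLT K (L + e)) (hm : Mid e L p) :
    ∃ l ∈ degreeLT K e, ∃ r ∈ degreeLT K e, p = l + X ^ L * r := by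
  have hmon : (X ^ L : K[X]).Monic := monic_X_pow L
  have hdec := modByMonic_add_div p (X ^ L : K[X])
  have hldeg : (p %ₘ X ^ L) ∈ degreeLT K L := by
    rw [mem_degreeLT]
    have := degree_modByMonic_lt p hmon
    rwa [degree_X_pow] at this
  rw [mem_degreeLT_iff_coeff] at hldeg hp
  refine ⟨p %ₘ X ^ L, ?_, p /ₘ X ^ L, ?_, hdec.symm⟩
  · rw [mem_degreeLT_iff_coeff]
    intro x hx
    by_cases hxL : x < L
    · have h1 : p.coeff x = (p %ₘ X ^ L).coeff x := by
        conv_lhs => rw [← hdec]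
        rw [coeff_add, coeff_X_pow_mul', if_neg (by omega), add_zero]
      rw [← h1]
      exact hm x hx hxL
    · exact hldeg x (by omega)
  · rw [mem_degreeLT_iff_coeff]
    intro x hx
    have h1 : p.coeff (x + L) = (p /ₘ X ^ L).coeff x := by
      conv_lhs => rw [← hdec]
      rw [coeff_add, hldeg _ (by omega), zero_add, coeff_X_pow_mul]
    rw [← h1]
    exact hp _ (by omega)

/-- The telescoping sums attached to a pencil. -/
noncomputable def tel (g g' : K[X]) (r : ℕ → K[X]) : ℕ → K[X]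
  | 0 => r 0
  | m + 1 => g * tel g g' r m + (-1) ^ (m + 1) * g' ^ (m + 1) * r (m + 1)

lemma tel_mem (g g' : K[X]) (r : ℕ → K[X]) (e : ℕ) (hg : g.natDegree ≤ e)
    (hg' : g'.natDegree ≤ e) (hr : ∀ i, r i ∈ degreeLT K e) (m : ℕ) :
    tel g g' r m ∈ degreeLT K (e * (m + 1)) := by
  induction m with
  | zero => simpa [tel] using hr 0
  | succ m ih =>
    rw [tel]
    refine Submodule.add_mem _ ?_ ?_
    · have := mul_mem_degreeLT hg ih
      rwa [show e + e * (m + 1) = e * (m + 1 + 1) by ring] at this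
    · have h1 : ((-1) ^ (m + 1) * g' ^ (m + 1)).natDegree ≤ e * (m + 1) := by
        refine (natDegree_mul_le).trans ?_
        have h2 : ((-1 : K[X]) ^ (m + 1)).natDegree = 0 := by
          have : ((-1 : K[X]) ^ (m + 1)) = C ((-1) ^ (m + 1)) := by simp
          rw [this, natDegree_C]
        rw [h2, zero_add]
        refine (natDegree_pow_le).trans ?_
        rw [mul_comm]
        exact Nat.mul_le_mul_right _ hg'
      have := mul_mem_degreeLT h1 (hr (m + 1))
      rwa [show e * (m + 1) + e = e * (m + 1 + 1) by ring] at this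

lemma tel_mod_g' (g g' : K[X]) (r : ℕ → K[X]) (m : ℕ) : g' ∣ tel g g' r m - g ^ m * r 0 := by
  induction m with
  | zero => simp [tel]
  | succ m ih =>
    rw [tel]
    have : g * tel g g' r m + (-1) ^ (m + 1) * g' ^ (m + 1) * r (m + 1) - g ^ (m + 1) * r 0
        = g * (tel g g' r m - g ^ m * r 0) + g' * ((-1) ^ (m + 1) * g' ^ m * r (m + 1)) := by
      ring
    rw [this]
    exact dvd_add (Dvd.dvd.mul_left ih _) (dvd_mul_right _ _)

lemma tel_mod_g (g g' : K[X]) (r : ℕ → K[X]) (m : ℕ) :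
    g ∣ tel g g' r m - g' ^ m * ((-1) ^ m * r m) := by
  cases m with
  | zero => simp [tel]
  | succ m =>
    rw [tel]
    have : g * tel g g' r m + (-1) ^ (m + 1) * g' ^ (m + 1) * r (m + 1)
        - g' ^ (m + 1) * ((-1) ^ (m + 1) * r (m + 1)) = g * tel g g' r m := by ring
    rw [this]
    exact dvd_mul_right _ _

lemma tel_eq (g g' : K[X]) (L β : ℕ) (P l r : ℕ → K[X]) (h0 : P 0 = 0)
    (h : ∀ i ≤ β, g' * P (i + 1) + g * P i = l i + X ^ L * r i) (m : ℕ) (hm : m ≤ β) :
    tel g g' l m + X ^ L * tel g g' r m = (-1) ^ m * g' ^ (m + 1) * P (m + 1) := by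
  induction m with
  | zero =>
    simp only [tel]
    rw [← h 0 (Nat.zero_le _), h0]
    ring
  | succ m ih =>
    simp only [tel]
    have e1 := ih (by omega)
    have e2 := h (m + 1) hm
    have : g * tel g g' l m + (-1) ^ (m + 1) * g' ^ (m + 1) * l (m + 1)
        + X ^ L * (g * tel g g' r m + (-1) ^ (m + 1) * g' ^ (m + 1) * r (m + 1))
        = g * (tel g g' l m + X ^ L * tel g g' r m)
          + (-1) ^ (m + 1) * g' ^ (m + 1) * (l (m + 1) + X ^ L * r (m + 1)) := by ring
    rw [this, e1, ← e2]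
    ring

lemma eq_zero_of_dvd_of_mem {g r : K[X]} {e : ℕ} (hg : g.natDegree = e) (hr : r ∈ degreeLT K e)
    (hg0 : g ≠ 0) (h : g ∣ r) : r = 0 := by
  refine eq_zero_of_dvd_of_degree_lt h ?_
  rw [mem_degreeLT] at hr
  rw [degree_eq_natDegree hg0, hg]
  exact hr

lemma tel_zero (g g' : K[X]) (e : ℕ) (hg : g.natDegree = e) (hg0 : g ≠ 0)
    (hco : IsCoprime g g') (r : ℕ → K[X]) (hr : ∀ i, r i ∈ degreeLT K e) (β : ℕ)
    (h : tel g g' r β = 0) : ∀ i ≤ β, r i = 0 := by
  induction β with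
  | zero =>
    intro i hi
    rw [Nat.le_zero.1 hi]
    simpa [tel] using h
  | succ m ih =>
    have h1 : r (m + 1) = 0 := by
      have h2 := tel_mod_g g g' r (m + 1)
      rw [h, zero_sub, dvd_neg] at h2
      have h3 : g ∣ (-1) ^ (m + 1) * r (m + 1) :=
        (IsCoprime.pow_right hco).dvd_of_dvd_mul_left h2
      have h4 : g ∣ r (m + 1) := by
        have h5 := Dvd.dvd.mul_left h3 ((-1) ^ (m + 1))
        rwa [← mul_assoc, ← mul_pow, neg_one_mul, neg_neg, one_pow, one_mul] at h5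
      exact eq_zero_of_dvd_of_mem hg (hr _) hg0 h4
    have h2 : tel g g' r m = 0 := by
      rw [tel, h1, mul_zero, add_zero] at h
      exact (mul_eq_zero.1 h).resolve_left hg0
    intro i hi
    rcases Nat.lt_or_ge i (m + 1) with h3 | h3
    · exact ih h2 i (by omega)
    · rw [show i = m + 1 by omega]; exact h1

/-- Solutions of a pencil are governed by one polynomial. -/
theorem pencil {g g' : K[X]} {e a β : ℕ} (hg : g.natDegree ≤ e) (hg' : g'.natDegree ≤ e)
    {P l r : ℕ → K[X]} (hl : ∀ i, l i ∈ degreeLT K e) (hr : ∀ i, r i ∈ degreeLT K e)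
    (h0 : P 0 = 0) (hβ : P (β + 1) = 0)
    (h : ∀ i ≤ β, g' * P (i + 1) + g * P i = l i + X ^ (a + e) * r i) :
    tel g g' r β ∈ degreeLT K (e * β - a) ∧
    tel g g' l β = - (X ^ (a + e) * tel g g' r β) := by
  have e1 := tel_eq g g' (a + e) β P l r h0 h β le_rfl
  rw [hβ, mul_zero] at e1
  have e2 : tel g g' l β = - (X ^ (a + e) * tel g g' r β) := eq_neg_of_add_eq_zero_left e1
  refine ⟨?_, e2⟩
  rw [mem_degreeLT_iff_coeff]
  intro x hx
  have h3 := tel_mem g g' l e hg hg' hl β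
  rw [mem_degreeLT_iff_coeff] at h3
  have h4 := h3 (x + (a + e)) (by
    have : e * (β + 1) = e * β + e := by ring
    omega)
  rw [e2, coeff_neg, coeff_X_pow_mul] at h4
  simpa using h4

theorem pencil_zero {g g' : K[X]} {e a β : ℕ} (hg : g.natDegree = e) (hg0 : g ≠ 0)
    (hg' : g'.natDegree ≤ e) (hg'0 : g' ≠ 0) (hco : IsCoprime g g')
    {P l r : ℕ → K[X]} (hl : ∀ i, l i ∈ degreeLT K e) (hr : ∀ i, r i ∈ degreeLT K e)
    (h0 : P 0 = 0) (hβ : P (β + 1) = 0)
    (h : ∀ i ≤ β, g' * P (i + 1) + g * P i = l i + X ^ (a + e) * r i)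
    (hz : tel g g' r β = 0) : ∀ i ≤ β + 1, P i = 0 := by
  obtain ⟨-, h2⟩ := pencil hg.le hg' hl hr h0 hβ h
  rw [hz, mul_zero, neg_zero] at h2
  have hr0 := tel_zero g g' e hg hg0 hco r hr β hz
  have hl0 := tel_zero g g' e hg hg0 hco l hl β h2
  intro i
  induction i with
  | zero => intro _; exact h0
  | succ i ih =>
    intro hi
    have e1 := h i (by omega)
    rw [hr0 i (by omega), hl0 i (by omega), ih (by omega), mul_zero, mul_zero, add_zero,
      add_zero] at e1
    exact (mul_eq_zero.1 e1).resolve_left hg'0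

end Pool.Agent.Helper37
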