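import Mathlib
import Pool.Agent.Helper37.Pencil

open Polynomial Finset

namespace Pool.Agent.Helper37

/-- A jointly injective finite family of functionals contains a jointly injective subfamily whose
size is the dimension. -/
lemma exists_coords {K U ι : Type*} [Field K] [AddCommGroup U] [Module K U]
    [FiniteDimensional K U] [Fintype ι] [DecidableEq ι] (φ : ι → Module.Dual K U)
    (h : ∀ r, (∀ i, φ i r = 0) → r = 0) :
    ∃ I : Finset ι, I.card = Module.finrank K U ∧ ∀ r, (∀ i ∈ I, φ i r = 0) → r = 0 := by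
  classical
  obtain ⟨κ, a, ha, hsp, hli⟩ := exists_linearIndependent' K φ
  have : Finite κ := Finite.of_injective a ha
  have : Fintype κ := Fintype.ofFinite κ
  have htop : Submodule.span K (Set.range φ) = ⊤ := by
    rw [eq_top_iff]
    intro ψ _
    let f : U →ₗ[K] (ι → K) := LinearMap.pi φ
    have hf : Function.Injective f := by
      rw [← LinearMap.ker_eq_bot, LinearMap.ker_eq_bot']
      intro r hr
      exact h r (fun i => by simpa [f] using congrFun hr i)
    obtain ⟨ρ, hρ⟩ := (LinearMap.dualMap_surjective_iff (f := f)).2 hf ψ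
    have : ψ = ∑ i, ρ (Pi.single i 1) • φ i := by
      ext r
      rw [← hρ, LinearMap.dualMap_apply]
      have h1 : f r = ∑ i, φ i r • (Pi.single i (1 : K) : ι → K) := by
        ext k
        simp [f, Finset.sum_apply, Pi.single_apply]
      rw [h1, map_sum]
      simp [mul_comm]
    rw [this]
    exact Submodule.sum_mem _ (fun i _ => Submodule.smul_mem _ _
      (Submodule.subset_span (Set.mem_range_self i)))
  refine ⟨univ.image a, ?_, ?_⟩
  · rw [Finset.card_image_of_injective _ ha, Finset.card_univ, ← finrank_span_eq_card hli, hsp,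
      htop, finrank_top, Subspace.dual_finrank_eq]
  · intro r hr
    apply h
    intro i
    have hmem : φ i ∈ Submodule.span K (Set.range (φ ∘ a)) := by
      rw [hsp, htop]; trivial
    refine Submodule.span_induction (p := fun ψ _ => ψ r = 0) ?_ ?_ ?_ ?_ hmem
    · rintro _ ⟨k, rfl⟩
      exact hr (a k) (Finset.mem_image_of_mem _ (Finset.mem_univ k))
    · rfl
    · intro x y _ _ hx hy
      rw [LinearMap.add_apply, hx, hy, add_zero]
    · intro c x _ hx
      rw [LinearMap.smul_apply, hx, smul_zero]

variable {K : Type*} [Field K]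

/-- The space of polynomials attached to a pencil with boundary condition `U`. -/
noncomputable def Sol (g g' : K[X]) (e a : ℕ) (U : Submodule K K[X]) (β : ℕ) :
    Submodule K K[X] where
  carrier := {ρ | ρ ∈ degreeLT K (e * β - a) ∧ ∃ r ∈ U, g ∣ ρ - g' ^ β * r}
  zero_mem' := ⟨Submodule.zero_mem _, 0, Submodule.zero_mem _, by simp⟩
  add_mem' := by
    rintro x y ⟨hx, r, hr, h1⟩ ⟨hy, s, hs, h2⟩
    refine ⟨Submodule.add_mem _ hx hy, r + s, Submodule.add_mem _ hr hs, ?_⟩
    have : x + y - g' ^ β * (r + s) = (x - g' ^ β * r) + (y - g' ^ β * s) := by ring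
    rw [this]
    exact dvd_add h1 h2
  smul_mem' := by
    rintro c x ⟨hx, r, hr, h1⟩
    refine ⟨Submodule.smul_mem _ c hx, c • r, Submodule.smul_mem _ c hr, ?_⟩
    have : c • x - g' ^ β * (c • r) = C c * (x - g' ^ β * r) := by
      rw [smul_eq_C_mul, smul_eq_C_mul]; ring
    rw [this]
    exact Dvd.dvd.mul_left h1 _

lemma Sol_le (g g' : K[X]) (e a : ℕ) (U : Submodule K K[X]) (β : ℕ) :
    Sol g g' e a U β ≤ degreeLT K (e * β - a) := fun _ h => h.1

lemma finrank_degreeLT (n : ℕ) : Module.finrank K (degreeLT K n) = n := by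
  rw [(degreeLTEquiv K n).finrank_eq]
  simp

instance finiteDimensional_degreeLT (n : ℕ) : FiniteDimensional K (degreeLT K n) :=
  (degreeLTEquiv K n).symm.finiteDimensional

lemma coprime_iff [IsAlgClosed K] {p q : K[X]} :
    IsCoprime p q ↔ ∀ x : K, p.eval x ≠ 0 ∨ q.eval x ≠ 0 := by
  have := Polynomial.isCoprime_iff_aeval_ne_zero_of_isAlgClosed K K p q
  simpa only [coe_aeval_eq_eval] using this

/-- The unit lemma: a good next node of the chain. -/
theorem exists_node [IsAlgClosed K] {g : K[X]} {e : ℕ} (hgm : g.Monic) (hge : g.natDegree = e)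
    (hgs : g.Separable) (U : Submodule K K[X]) (hU : U ≤ degreeLT K e) (a B : ℕ) :
    ∃ g' : K[X], g'.Monic ∧ g'.natDegree = e ∧ g'.Separable ∧ IsCoprime g g' ∧
      ∀ β, 1 ≤ β → β ≤ B →
        Module.finrank K (Sol g g' e a U β) ≤ (e * β - a) + Module.finrank K U - e := by
  classical
  have : Infinite K := IsAlgClosed.instInfinite
  have : FiniteDimensional K U := Submodule.finiteDimensional_of_le hU
  set R : Finset K := g.roots.toFinset with hR
  have hg0 : g ≠ 0 := hgm.ne_zero
  have hRcard : R.card = e := by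
    rw [hR, Multiset.toFinset_card_of_nodup (nodup_roots hgs), IsAlgClosed.card_roots_eq_natDegree,
      hge]
  have hRmem : ∀ x, x ∈ R ↔ g.eval x = 0 := by
    intro x
    rw [hR, Multiset.mem_toFinset, mem_roots hg0, IsRoot.def]
  have hRzero : ∀ (S : Finset K) (p : K[X]) (n : ℕ), p ∈ degreeLT K n → n ≤ S.card →
      (∀ x ∈ S, p.eval x = 0) → p = 0 := by
    intro S p n hp hn hx
    refine Polynomial.eq_zero_of_degree_lt_of_eval_finset_eq_zero S ?_ hx
    rw [mem_degreeLT] at hp
    exact hp.trans_le (by exact_mod_cast hn)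
  -- coordinates for `U`
  obtain ⟨I, hIcard, hI⟩ := exists_coords (K := K) (U := U) (ι := R)
    (fun ζ => (leval (ζ : K)).comp U.subtype) (by
      intro r hr
      apply Subtype.ext
      refine hRzero R _ e (hU r.2) hRcard.ge (fun x hx => ?_)
      simpa [leval] using hr ⟨x, hx⟩)
  have hUe : Module.finrank K U ≤ e := by
    have := Submodule.finrank_mono hU
    rwa [finrank_degreeLT] at this
  -- the truncated degree
  let δ : ℕ → ℕ := fun β => min (e * β - a) (e - Module.finrank K U)
  have key : ∀ β, 1 ≤ β → ∃ s : Finset K, ∀ z, z ∉ s →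
      ∀ ρ ∈ degreeLT K (δ β), ∀ r ∈ U,
        (∀ ζ : R, ρ.eval (ζ : K) = (if ζ ∈ I then 1 else z) ^ β * r.eval (ζ : K)) → ρ = 0 := by
    intro β hβ
    let F : K → (degreeLT K (δ β) × U) →ₗ[K] (R → K) := fun z =>
      { toFun := fun v ζ => (v.1 : K[X]).eval (ζ : K)
          - (if ζ ∈ I then 1 else z) ^ β * (v.2 : K[X]).eval (ζ : K)
        map_add' := by
          intro x y
          ext ζ
          simp only [Prod.fst_add, Prod.snd_add, Submodule.coe_add, eval_add, Pi.add_apply]
          ring
        map_smul' := by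
          intro c x
          ext ζ
          simp only [Prod.smul_fst, Prod.smul_snd, Submodule.coe_smul, eval_smul, smul_eq_mul,
            RingHom.id_apply, Pi.smul_apply]
          ring }
    obtain ⟨s, hs⟩ := gen_inj_finite F (ε₀ := 0) (by
      intro v ζ
      refine ⟨C ((v.1 : K[X]).eval (ζ : K))
        - (if ζ ∈ I then 1 else X) ^ β * C ((v.2 : K[X]).eval (ζ : K)), fun z => ?_⟩
      simp only [F, LinearMap.coe_mk, AddHom.coe_mk, eval_sub, eval_C, eval_mul, eval_pow]
      split_ifs <;> simp) (by
      rw [← LinearMap.ker_eq_bot, LinearMap.ker_eq_bot']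
      rintro ⟨ρ, r⟩ h
      have h' : ∀ ζ : R, (ρ : K[X]).eval (ζ : K)
          - (if ζ ∈ I then 1 else 0) ^ β * (r : K[X]).eval (ζ : K) = 0 :=
        fun ζ => congrFun h ζ
      have hρ : (ρ : K[X]) = 0 := by
        refine hRzero ((univ \ I).map (Function.Embedding.subtype _)) _ (δ β) ρ.2 ?_ ?_
        · rw [Finset.card_map, Finset.card_sdiff_of_subset (Finset.subset_univ _),
            Finset.card_univ, Fintype.card_coe, hRcard, hIcard]
          exact min_le_right _ _
        · intro x hx
          rw [Finset.mem_map] at hx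
          obtain ⟨ζ, hζ, rfl⟩ := hx
          have h1 := h' ζ
          rw [if_neg (Finset.mem_sdiff.1 hζ).2, zero_pow (by omega), zero_mul, sub_zero] at h1
          exact h1
      have hr : r = 0 := by
        apply hI
        intro ζ hζ
        have h1 := h' ζ
        rw [if_pos hζ, hρ] at h1
        simpa [leval] using h1
      rw [hr]
      refine Prod.ext (Subtype.ext hρ) rfl)
    refine ⟨s, fun z hz ρ hρ r hr h => ?_⟩
    have h1 : F z (⟨ρ, hρ⟩, ⟨r, hr⟩) = 0 := by
      ext ζ
      simp only [F, LinearMap.coe_mk, AddHom.coe_mk, Pi.zero_apply]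
      rw [h ζ]
      ring
    have h2 := (hs z hz) (h1.trans (map_zero (F z)).symm)
    exact congrArg Subtype.val (congrArg Prod.fst h2)
  choose! s hs using key
  obtain ⟨z, hz⟩ := Infinite.exists_notMem_finset (insert 0 ((Finset.Icc 1 B).biUnion s))
  rw [Finset.mem_insert, not_or, Finset.mem_biUnion, not_exists] at hz
  obtain ⟨hz0, hz⟩ := hz
  -- interpolation
  let θ : K → K := fun x => if h : x ∈ R then (if (⟨x, h⟩ : R) ∈ I then 1 else z) else 1
  have hθ : ∀ ζ : R, θ ζ = if ζ ∈ I then 1 else z := by
    intro ζ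
    simp only [θ]
    rw [dif_pos ζ.2]
  have hθ0 : ∀ x, θ x ≠ 0 := by
    intro x
    simp only [θ]
    split_ifs
    · exact one_ne_zero
    · exact hz0
    · exact one_ne_zero
  let ρ : K[X] := Lagrange.interpolate R id θ
  have hρe : ∀ x ∈ R, ρ.eval x = θ x := fun x hx =>
    Lagrange.eval_interpolate_at_node θ (Function.injective_id.injOn) hx
  have hρd : ρ.degree < e := by
    have := Lagrange.degree_interpolate_lt θ (s := R) (v := id) (Function.injective_id.injOn)
    rwa [hRcard] at this
  -- the Wronskian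
  let W : K[X] := g * derivative ρ - derivative g * ρ
  obtain ⟨lam, hlam⟩ := Infinite.exists_notMem_finset
    (insert (0 : K) (W.roots.toFinset.image (fun x => - g.eval x / ρ.eval x)))
  rw [Finset.mem_insert, not_or] at hlam
  obtain ⟨hlam0, hlam⟩ := hlam
  let g' : K[X] := g + C lam * ρ
  have hdeg : (C lam * ρ).degree < g.degree := by
    rw [degree_C_mul hlam0, degree_eq_natDegree hg0, hge]
    exact hρd
  have hg'm : g'.Monic := hgm.add_of_left hdeg
  have hg'e : g'.natDegree = e := by
    rw [← hge]
    exact natDegree_eq_of_degree_eq (degree_add_eq_left_of_degree_lt hdeg)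
  have hg'R : ∀ x ∈ R, g'.eval x = lam * θ x := by
    intro x hx
    simp only [g', eval_add, eval_mul, eval_C]
    rw [(hRmem x).1 hx, hρe x hx, zero_add]
  have hW : W ≠ 0 ∨ e = 0 := by
    by_cases he : e = 0
    · exact Or.inr he
    left
    intro hW0
    have hne : R.Nonempty := by
      rw [← Finset.card_pos, hRcard]; omega
    obtain ⟨x, hx⟩ := hne
    have h1 : W.eval x = 0 := by rw [hW0, eval_zero]
    simp only [W, eval_sub, eval_mul] at h1
    rw [(hRmem x).1 hx, hρe x hx, zero_mul, zero_sub, neg_eq_zero] at h1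
    rcases mul_eq_zero.1 h1 with h2 | h2
    · have h3 := coprime_iff.1 hgs x
      rcases h3 with h3 | h3
      · exact h3 ((hRmem x).1 hx)
      · exact h3 h2
    · exact hθ0 x h2
  have hsep : g'.Separable := by
    rw [Polynomial.Separable, coprime_iff]
    intro x
    by_contra hcon
    push Not at hcon
    obtain ⟨h1, h2⟩ := hcon
    simp only [g', eval_add, eval_mul, eval_C, derivative_add, derivative_mul, derivative_C,
      zero_mul, zero_add] at h1 h2
    rcases hW with hW | he
    · have hWx : W.eval x = 0 := by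
        simp only [W, eval_sub, eval_mul]
        have e1 : g.eval x = - (lam * ρ.eval x) := eq_neg_of_add_eq_zero_left h1
        have e2 : (derivative g).eval x = - (lam * (derivative ρ).eval x) :=
          eq_neg_of_add_eq_zero_left h2
        rw [e1, e2]; ring
      by_cases hρx : ρ.eval x = 0
      · rw [hρx, mul_zero, add_zero] at h1
        have hxR : x ∈ R := (hRmem x).2 h1
        exact hθ0 x (by rw [← hρe x hxR, hρx])
      · apply hlam
        rw [Finset.mem_image]
        refine ⟨x, ?_, ?_⟩
        · rw [Multiset.mem_toFinset, mem_roots hW]; exact hWx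
        · rw [eq_neg_of_add_eq_zero_left h1, neg_neg, mul_div_assoc, div_self hρx, mul_one]
    · have : g = 1 := by
        rw [he] at hge
        exact hgm.natDegree_eq_zero.1 hge
      have hρ0 : ρ = 0 := by
        rw [he] at hρd
        rw [← degree_eq_bot]
        exact Nat.WithBot.lt_zero_iff.1 hρd
      rw [this, hρ0] at h1
      simp at h1
  have hco : IsCoprime g g' := by
    rw [coprime_iff]
    intro x
    by_cases hx : g.eval x = 0
    · right
      rw [hg'R x ((hRmem x).2 hx)]
      exact mul_ne_zero hlam0 (hθ0 x)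
    · exact Or.inl hx
  refine ⟨g', hg'm, hg'e, hsep, hco, fun β hβ1 hβ2 => ?_⟩
  have hz' : z ∉ s β := fun h => hz β ⟨Finset.mem_Icc.2 ⟨hβ1, hβ2⟩, h⟩
  -- disjointness
  have hdisj : Sol g g' e a U β ⊓ degreeLT K (δ β) = ⊥ := by
    rw [eq_bot_iff]
    rintro σ ⟨⟨-, r, hr, hdvd⟩, hσ⟩
    rw [Submodule.mem_bot]
    refine hs β hβ1 z hz' σ hσ (lam ^ β • r) (Submodule.smul_mem _ _ hr) (fun ζ => ?_)
    obtain ⟨c, hc⟩ := hdvd
    have h1 : (σ - g' ^ β * r).eval (ζ : K) = 0 := by
      rw [hc, eval_mul, (hRmem _).1 ζ.2, zero_mul]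
    rw [eval_sub, eval_mul, eval_pow, hg'R _ ζ.2, sub_eq_zero] at h1
    rw [h1, eval_smul, ← hθ ζ, mul_pow, smul_eq_mul]
    ring
  have hle1 : Sol g g' e a U β ⊔ degreeLT K (δ β) ≤ degreeLT K (e * β - a) := by
    refine sup_le (Sol_le _ _ _ _ _ _) ?_
    exact degreeLT_mono (min_le_left _ _)
  have : FiniteDimensional K (Sol g g' e a U β) :=
    Submodule.finiteDimensional_of_le (Sol_le _ _ _ _ _ _)
  have h1 := Submodule.finrank_sup_add_finrank_inf_eq (Sol g g' e a U β) (degreeLT K (δ β))
  rw [hdisj, finrank_bot, add_zero, finrank_degreeLT] at h1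
  have h2 := Submodule.finrank_mono hle1
  rw [finrank_degreeLT] at h2
  have h3 : δ β = min (e * β - a) (e - Module.finrank K U) := rfl
  omega

end Pool.Agent.Helper37
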