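import Mathlib
import Pool.Agent.Helper37.Units

open Polynomial

namespace Pool.Agent.Helper37

variable {K : Type*} [Field K]

/-- Convolution of sequences of polynomials. -/
noncomputable def conv (h P : ℕ → K[X]) (q : ℕ) : K[X] :=
  ∑ x ∈ Finset.HasAntidiagonal.antidiagonal q, h x.1 * P x.2

/-- Sequences `P₀, …, P_{X-1}` of polynomials of degree `< L` with `P_{X-1} ∈ C`. -/
def VV (X L : ℕ) (C : Submodule K K[X]) : Submodule K (ℕ → K[X]) where
  carrier := {P | (∀ p, X ≤ p → P p = 0) ∧ (∀ p, P p ∈ degreeLT K L) ∧ P (X - 1) ∈ C}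
  zero_mem' := ⟨fun _ _ => rfl, fun _ => Submodule.zero_mem _, Submodule.zero_mem _⟩
  add_mem' := by
    rintro P Q ⟨h1, h2, h3⟩ ⟨h4, h5, h6⟩
    refine ⟨fun p hp => ?_, fun p => Submodule.add_mem _ (h2 p) (h5 p), Submodule.add_mem _ h3 h6⟩
    rw [Pi.add_apply, h1 p hp, h4 p hp, add_zero]
  smul_mem' := by
    rintro c P ⟨h1, h2, h3⟩
    refine ⟨fun p hp => ?_, fun p => Submodule.smul_mem _ _ (h2 p), Submodule.smul_mem _ _ h3⟩
    rw [Pi.smul_apply, h1 p hp, smul_zero]

lemma mem_VV {X L : ℕ} {C : Submodule K K[X]} {P : ℕ → K[X]} :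
    P ∈ VV X L C ↔ (∀ p, X ≤ p → P p = 0) ∧ (∀ p, P p ∈ degreeLT K L) ∧ P (X - 1) ∈ C := Iff.rfl

instance finiteDimensional_VV (X L : ℕ) (C : Submodule K K[X]) :
    FiniteDimensional K (VV X L C) := by
  let f : VV X L C →ₗ[K] (Fin X → degreeLT K L) :=
    { toFun := fun P p => ⟨P.1 p, P.2.2.1 p⟩
      map_add' := fun _ _ => rfl
      map_smul' := fun _ _ => rfl }
  refine FiniteDimensional.of_injective f (fun P Q h => ?_)
  apply Subtype.ext
  funext p
  by_cases hp : p < X
  · have := congrFun h ⟨p, hp⟩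
    exact congrArg Subtype.val this
  · rw [P.2.1 p (by omega), Q.2.1 p (by omega)]

/-- The exponents of the degeneration. -/
def expo (x d' j p : ℕ) : ℕ :=
  if j = d' + 1 then 1 + (p - x) - (p + 1 - x) else (p - x) - (j + p - (x + d'))

/-- The limit step: attaching a line to the chain. -/
theorem limit_step [Infinite K] (e a : ℕ) (g : K[X]) (D : Submodule K K[X]) (d' x β : ℕ)
    (hβ : 1 ≤ β) (h : ℕ → K[X]) (hh : ∀ j, d' < j → h j = 0)
    (hinj : ∀ P ∈ VV (x + β) (a + e) D,
      (∀ q ≤ x + d', Mid e (a + e) (conv h (fun p => if p ≤ x then P p else 0) q)) →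
      (∀ i, 1 ≤ i → i < β → Mid e (a + e) (h d' * P (x + i) + g * P (x + i - 1))) → P = 0) :
    ∃ c : K, c ≠ 0 ∧ ∀ P ∈ VV (x + β) (a + e) D,
      (∀ q, Mid e (a + e) (conv (fun j => if j = d' + 1 then g else C c * h j) P q)) → P = 0 := by
  classical
  let hs : ℕ → K[X] := fun j => if j = d' + 1 then g else h j
  let F : K → VV (x + β) (a + e) D →ₗ[K] (Fin (x + β + d') × Fin a → K) := fun ε =>
    { toFun := fun P r => ∑ u ∈ Finset.HasAntidiagonal.antidiagonal (r.1 : ℕ),
        ε ^ expo x d' u.1 u.2 * (hs u.1 * P.1 u.2).coeff (e + r.2)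
      map_add' := by
        intro P Q
        ext r
        rw [Pi.add_apply, ← Finset.sum_add_distrib]
        refine Finset.sum_congr rfl (fun u _ => ?_)
        rw [Submodule.coe_add, Pi.add_apply, mul_add, coeff_add, mul_add]
      map_smul' := by
        intro c P
        ext r
        rw [Pi.smul_apply, RingHom.id_apply, smul_eq_mul, Finset.mul_sum]
        refine Finset.sum_congr rfl (fun u _ => ?_)
        rw [Submodule.coe_smul, Pi.smul_apply, mul_smul_comm, coeff_smul, smul_eq_mul]
        ring }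
  have hFapp : ∀ ε (P : VV (x + β) (a + e) D) r, F ε P r = ∑ u ∈ Finset.HasAntidiagonal.antidiagonal (r.1 : ℕ),
        ε ^ expo x d' u.1 u.2 * (hs u.1 * P.1 u.2).coeff (e + r.2) := fun _ _ _ => rfl
  obtain ⟨s, hs'⟩ := gen_inj_finite F (ε₀ := 0) (by
    intro P r
    refine ⟨∑ u ∈ Finset.HasAntidiagonal.antidiagonal (r.1 : ℕ),
      X ^ expo x d' u.1 u.2 * C ((hs u.1 * P.1 u.2).coeff (e + r.2)), fun ε => ?_⟩
    rw [eval_finsetSum, hFapp]
    refine Finset.sum_congr rfl (fun u _ => ?_)
    rw [eval_mul, eval_pow, eval_X, eval_C]) (by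
    rw [← LinearMap.ker_eq_bot, LinearMap.ker_eq_bot']
    intro P hP
    apply Subtype.ext
    refine hinj P.1 P.2 ?_ ?_
    · intro q hq y hy1 hy2
      have h1 := congrFun hP (⟨q, by omega⟩, ⟨y - e, by omega⟩)
      rw [hFapp, Pi.zero_apply] at h1
      simp only [show e + (y - e) = y by omega] at h1
      rw [conv, finsetSum_coeff, ← h1]
      refine Finset.sum_congr rfl (fun u hu => ?_)
      rw [Finset.HasAntidiagonal.mem_antidiagonal] at hu
      simp only [hs]
      by_cases hj : u.1 = d' + 1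
      · rw [if_pos hj, hh u.1 (by omega), zero_mul, coeff_zero]
        have : expo x d' u.1 u.2 = 1 := by
          unfold expo; rw [if_pos hj]; omega
        rw [this, pow_one, zero_mul]
      · rw [if_neg hj]
        by_cases hj2 : d' < u.1
        · rw [hh u.1 hj2, zero_mul, zero_mul, coeff_zero, mul_zero]
        · by_cases hp : u.2 ≤ x
          · have : expo x d' u.1 u.2 = 0 := by
              unfold expo; rw [if_neg hj]; omega
            rw [this, pow_zero, one_mul, if_pos hp]
          · have : expo x d' u.1 u.2 ≠ 0 := by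
              unfold expo; rw [if_neg hj]; omega
            rw [zero_pow this, zero_mul, if_neg hp, mul_zero, coeff_zero]
    · intro i hi1 hi2 y hy1 hy2
      have h1 := congrFun hP (⟨x + d' + i, by omega⟩, ⟨y - e, by omega⟩)
      rw [hFapp, Pi.zero_apply] at h1
      simp only [show e + (y - e) = y by omega] at h1
      rw [Finset.sum_eq_add_of_mem (d', x + i) (d' + 1, x + i - 1)
        (by rw [Finset.HasAntidiagonal.mem_antidiagonal]; simp; omega) (by rw [Finset.HasAntidiagonal.mem_antidiagonal]; simp; omega)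
        (by intro h; have := congrArg Prod.fst h; simp at this)] at h1
      · have e1 : expo x d' d' (x + i) = 0 := by
          unfold expo; rw [if_neg (by omega)]; omega
        have e2 : expo x d' (d' + 1) (x + i - 1) = 0 := by
          unfold expo; rw [if_pos rfl]; omega
        simp only [e1, e2, pow_zero, one_mul, hs] at h1
        rw [if_neg (by omega), if_true] at h1
        rw [coeff_add]
        exact h1
      · intro u hu hne
        rw [Finset.HasAntidiagonal.mem_antidiagonal] at hu
        obtain ⟨j, p⟩ := u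
        simp only at hu
        have hne1 : j ≠ d' := fun hj => hne.1 (Prod.ext hj (by simp only; omega))
        have hne2 : j ≠ d' + 1 := fun hj => hne.2 (Prod.ext hj (by simp only; omega))
        simp only [hs]
        rw [if_neg hne2]
        by_cases hj2 : d' < j
        · rw [hh j hj2, zero_mul, coeff_zero, mul_zero]
        · have : expo x d' j p ≠ 0 := by
            unfold expo; rw [if_neg hne2]; omega
          rw [zero_pow this, zero_mul])
  obtain ⟨ε, hε⟩ := Infinite.exists_notMem_finset (insert 0 s)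
  rw [Finset.mem_insert, not_or] at hε
  obtain ⟨hε0, hεs⟩ := hε
  refine ⟨ε⁻¹, inv_ne_zero hε0, fun P hP hmid => ?_⟩
  -- rescale
  let P' : ℕ → K[X] := fun p => (ε⁻¹) ^ (p - x) • P p
  have hP' : P' ∈ VV (x + β) (a + e) D := by
    refine ⟨fun p hp => ?_, fun p => Submodule.smul_mem _ _ (hP.2.1 p),
      Submodule.smul_mem _ _ hP.2.2⟩
    simp only [P']
    rw [hP.1 p hp, smul_zero]
  have hFz : F ε ⟨P', hP'⟩ = 0 := by
    ext r
    rw [hFapp, Pi.zero_apply]
    have hm := hmid r.1 (e + r.2) (by omega) (by have := r.2.2; omega)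
    rw [conv, finsetSum_coeff] at hm
    have : ∑ u ∈ Finset.HasAntidiagonal.antidiagonal (r.1 : ℕ),
        ε ^ expo x d' u.1 u.2 * (hs u.1 * P' u.2).coeff (e + r.2)
        = (ε * (ε⁻¹) ^ ((r.1 : ℕ) - (x + d'))) * ∑ u ∈ Finset.HasAntidiagonal.antidiagonal (r.1 : ℕ),
          ((if u.1 = d' + 1 then g else C (ε⁻¹) * h u.1) * P u.2).coeff (e + r.2) := by
      rw [Finset.mul_sum]
      refine Finset.sum_congr rfl (fun u hu => ?_)
      rw [Finset.HasAntidiagonal.mem_antidiagonal] at hu
      simp only [P', hs]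
      rw [mul_smul_comm, coeff_smul, smul_eq_mul]
      by_cases hj : u.1 = d' + 1
      · rw [if_pos hj, if_pos hj]
        have h1 : expo x d' u.1 u.2 + ((r.1 : ℕ) - (x + d')) = 1 + (u.2 - x) := by
          unfold expo; rw [if_pos hj]; omega
        have h2 : ε ^ expo x d' u.1 u.2 * (ε⁻¹) ^ (u.2 - x)
            = ε * (ε⁻¹) ^ ((r.1 : ℕ) - (x + d')) := by
          rw [inv_pow, inv_pow, ← div_eq_mul_inv, ← div_eq_mul_inv,
            div_eq_div_iff (pow_ne_zero _ hε0) (pow_ne_zero _ hε0), ← pow_add, h1, pow_add,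
            pow_one]
        rw [← mul_assoc, h2]
      · rw [if_neg hj, if_neg hj]
        by_cases hj2 : d' < u.1
        · rw [hh u.1 hj2]; simp
        · have h1 : expo x d' u.1 u.2 + ((r.1 : ℕ) - (x + d')) = (u.2 - x) := by
            unfold expo; rw [if_neg hj]; omega
          have h2 : ε ^ expo x d' u.1 u.2 * (ε⁻¹) ^ (u.2 - x)
              = (ε⁻¹) ^ ((r.1 : ℕ) - (x + d')) := by
            rw [inv_pow, inv_pow, ← div_eq_mul_inv,
              div_eq_iff (pow_ne_zero _ hε0), ← h1, pow_add]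
            field_simp
          rw [← mul_assoc, h2, mul_assoc, mul_assoc, coeff_C_mul]
          field_simp
    rw [this, hm, mul_zero]
  have h2 := hs' ε hεs (hFz.trans (map_zero (F ε)).symm)
  have h3 : P' = 0 := congrArg Subtype.val h2
  funext p
  have h4 := congrFun h3 p
  simp only [P', Pi.zero_apply, smul_eq_zero] at h4
  exact h4.resolve_left (pow_ne_zero _ (inv_ne_zero hε0))

end Pool.Agent.Helper37
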