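import Mathlib
import Pool.Agent.Helper37.Mixed

open Polynomial

namespace Pool.Agent.Helper37

variable {K : Type*} [Field K]

/-- Boundary condition: `g p = l + X^{a+e} r` with `deg l < e` and `r ∈ U`. -/
noncomputable def Bd (g : K[X]) (e a : ℕ) (U : Submodule K K[X]) : Submodule K K[X] where
  carrier := {p | ∃ l ∈ degreeLT K e, ∃ r ∈ U, g * p = l + X ^ (a + e) * r}
  zero_mem' := ⟨0, Submodule.zero_mem _, 0, Submodule.zero_mem _, by simp⟩
  add_mem' := by
    rintro x y ⟨l, hl, r, hr, h1⟩ ⟨l', hl', r', hr', h2⟩
    exact ⟨l + l', Submodule.add_mem _ hl hl', r + r', Submodule.add_mem _ hr hr', by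
      rw [mul_add, h1, h2]; ring⟩
  smul_mem' := by
    rintro c x ⟨l, hl, r, hr, h1⟩
    exact ⟨c • l, Submodule.smul_mem _ c hl, c • r, Submodule.smul_mem _ c hr, by
      rw [mul_smul_comm, h1, smul_add, mul_smul_comm]⟩

lemma neg_one_pow_mul_mem {U : Submodule K K[X]} {r : K[X]} (hr : r ∈ U) (m : ℕ) :
    (-1) ^ m * r ∈ U := by
  have : (-1) ^ m * r = ((-1 : K) ^ m) • r := by
    rw [smul_eq_C_mul]; simp
  rw [this]
  exact Submodule.smul_mem _ _ hr

lemma chain_use {g g' : K[X]} {e a m : ℕ} (hg : g.natDegree ≤ e) (hg' : g'.natDegree ≤ e)
    {U : Submodule K K[X]} (hU : U ≤ degreeLT K e) {Q : ℕ → K[X]}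
    (hm1 : Q (m + 1) = 0) (hdeg : ∀ i, Q i ∈ degreeLT K (a + e))
    (hmid : ∀ i < m, Mid e (a + e) (g' * Q (i + 1) + g * Q i)) (hlast : Q m ∈ Bd g e a U) :
    ∃ l r : ℕ → K[X], (∀ i, l i ∈ degreeLT K e) ∧ (∀ i, r i ∈ degreeLT K e) ∧
      (∀ i ≤ m, g' * Q (i + 1) + g * Q i = l i + X ^ (a + e) * r i) ∧ r m ∈ U := by
  have key : ∀ i, ∃ l r : K[X], l ∈ degreeLT K e ∧ r ∈ degreeLT K e ∧
      (i ≤ m → g' * Q (i + 1) + g * Q i = l + X ^ (a + e) * r) ∧ (i = m → r ∈ U) := by
    intro i
    rcases lt_trichotomy i m with h | h | h
    · obtain ⟨l, hl, r, hr, h1⟩ := mid_decomp (p := g' * Q (i + 1) + g * Q i) (e := e)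
        (L := a + e) (by
          refine Submodule.add_mem _ ?_ ?_
          · have := mul_mem_degreeLT hg' (hdeg (i + 1))
            rwa [add_comm e] at this
          · have := mul_mem_degreeLT hg (hdeg i)
            rwa [add_comm e] at this) (hmid i h)
      exact ⟨l, r, hl, hr, fun _ => h1, fun h2 => absurd h2 h.ne⟩
    · obtain ⟨l, hl, r, hr, h1⟩ := hlast
      refine ⟨l, r, hl, hU hr, fun _ => ?_, fun _ => hr⟩
      rw [h, hm1, mul_zero, zero_add, h1]
    · exact ⟨0, 0, Submodule.zero_mem _, Submodule.zero_mem _, fun h2 => absurd h2 (by omega),
        fun h2 => absurd h2 h.ne'⟩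
  choose l r h1 h2 h3 h4 using key
  exact ⟨l, r, h1, h2, h3, h4 m rfl⟩

lemma tel_mem_Sol {g g' : K[X]} {e a m : ℕ} (hg : g.natDegree ≤ e) (hg' : g'.natDegree ≤ e)
    {U : Submodule K K[X]} {Q l r : ℕ → K[X]}
    (h0 : Q 0 = 0) (hm1 : Q (m + 1) = 0)
    (hl : ∀ i, l i ∈ degreeLT K e) (hr : ∀ i, r i ∈ degreeLT K e)
    (h : ∀ i ≤ m, g' * Q (i + 1) + g * Q i = l i + X ^ (a + e) * r i) (hrm : r m ∈ U) :
    tel g g' r m ∈ Sol g g' e a U m :=
  ⟨(pencil hg hg' hl hr h0 hm1 h).1, (-1) ^ m * r m, neg_one_pow_mul_mem hrm m,
    tel_mod_g g g' r m⟩

lemma chain_zero {g g' : K[X]} {e a m : ℕ} (hg : g.natDegree = e) (hg0 : g ≠ 0)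
    (hg' : g'.natDegree ≤ e) (hg'0 : g' ≠ 0) (hco : IsCoprime g g')
    {U : Submodule K K[X]} (hU : U ≤ degreeLT K e) {Q : ℕ → K[X]}
    (h0 : Q 0 = 0) (hm1 : Q (m + 1) = 0) (hdeg : ∀ i, Q i ∈ degreeLT K (a + e))
    (hmid : ∀ i < m, Mid e (a + e) (g' * Q (i + 1) + g * Q i)) (hlast : Q m ∈ Bd g e a U)
    (hS : Module.finrank K (Sol g g' e a U m) = 0) : ∀ i ≤ m + 1, Q i = 0 := by
  obtain ⟨l, r, hl, hr, h, hrm⟩ := chain_use hg.le hg' hU hm1 hdeg hmid hlast
  have h1 := tel_mem_Sol hg.le hg' h0 hm1 hl hr h hrm
  have : FiniteDimensional K (Sol g g' e a U m) :=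
    Submodule.finiteDimensional_of_le (Sol_le _ _ _ _ _ _)
  rw [Submodule.finrank_eq_zero] at hS
  rw [hS, Submodule.mem_bot] at h1
  exact pencil_zero hg hg0 hg' hg'0 hco hl hr h0 hm1 h h1

theorem chain [IsAlgClosed K] (e a : ℕ) (he : 1 ≤ e) :
    ∀ d X : ℕ, 1 ≤ X → ∀ g : K[X], g.Monic → g.natDegree = e → g.Separable →
      ∀ U : Submodule K K[X], U ≤ degreeLT K e → e * (X - 1) + Module.finrank K U ≤ a * d →
      ∃ h : ℕ → K[X], (∀ j, (h j).natDegree ≤ e) ∧ (∀ j, d < j → h j = 0) ∧ h d = g ∧
        ∀ P ∈ VV X (a + e) (Bd g e a U), (∀ q, Mid e (a + e) (conv h P q)) → P = 0 := by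
  classical
  have : Infinite K := IsAlgClosed.instInfinite
  intro d
  induction d with
  | zero =>
    intro X hX g hgm hge hgs U hU hle
    have : FiniteDimensional K U := Submodule.finiteDimensional_of_le hU
    have hX1 : X = 1 := by
      have h1 : e * (X - 1) = 0 := by omega
      rcases Nat.mul_eq_zero.1 h1 with h2 | h2 <;> omega
    have hU0 : U = ⊥ := by
      rw [← Submodule.finrank_eq_zero (S := U)]; omega
    refine ⟨fun j => if j = 0 then g else 0, fun j => ?_, fun j hj => ?_, by simp, ?_⟩
    · by_cases hj : j = 0
      · simp [hj, hge]
      · simp [hj]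
    · simp only; rw [if_neg (by omega)]
    · rintro P ⟨h1, h2, h3⟩ -
      subst hX1
      obtain ⟨l, hl, r, hr, h4⟩ := h3
      rw [hU0, Submodule.mem_bot] at hr
      rw [hr, mul_zero, add_zero] at h4
      have h5 : l = 0 := eq_zero_of_dvd_of_mem hge hl hgm.ne_zero ⟨_, h4.symm⟩
      rw [h5] at h4
      have h6 := (mul_eq_zero.1 h4).resolve_left hgm.ne_zero
      funext p
      rcases Nat.eq_zero_or_pos p with hp | hp
      · rw [hp]; exact h6
      · exact h1 p hp
  | succ d' ih =>
    intro X hX g hgm hge hgs U hU hle
    have : FiniteDimensional K U := Submodule.finiteDimensional_of_le hU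
    have hUe : Module.finrank K U ≤ e := by
      have := Submodule.finrank_mono hU
      rwa [finrank_degreeLT] at this
    obtain ⟨g', hg'm, hg'e, hg's, hco, hnode⟩ := exists_node hgm hge hgs U hU a X
    have hg0 := hgm.ne_zero
    have hg'0 := hg'm.ne_zero
    by_cases hcase : e * (X - 1) + Module.finrank K U ≤ a
    · -- one pencil suffices
      have hS : Module.finrank K (Sol g g' e a U X) = 0 := by
        have h1 := hnode X hX le_rfl
        have h2 : e * X = e * (X - 1) + e := by
          obtain ⟨Y, rfl⟩ : ∃ Y, X = Y + 1 := ⟨X - 1, by omega⟩
          simp [mul_add]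
        omega
      refine ⟨fun j => if j = d' + 1 then g else if j = d' then g' else 0, fun j => ?_,
        fun j hj => ?_, by simp, ?_⟩
      · by_cases h1 : j = d' + 1
        · simp [h1, hge]
        · by_cases h2 : j = d'
          · simp [h2, hg'e]
          · simp [h1, h2]
      · simp only
        rw [if_neg (by omega), if_neg (by omega)]
      · rintro P ⟨h1, h2, h3⟩ hmid
        let Q : ℕ → K[X] := fun i => if i = 0 then 0 else P (i - 1)
        have hQ := chain_zero (Q := Q) hge hg0 hg'e.le hg'0 hco hU (by simp [Q])
          (by simp only [Q]; rw [if_neg (by omega)]; exact h1 _ (by omega))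
          (fun i => by
            simp only [Q]
            split_ifs
            · exact Submodule.zero_mem _
            · exact h2 _)
          (fun i hi => by
            have h4 := hmid (d' + i)
            have h5 : conv (fun j => if j = d' + 1 then g else if j = d' then g' else 0) P
                (d' + i) = g' * Q (i + 1) + g * Q i := by
              rw [conv]
              simp only [Q]
              rw [if_neg (by omega), show i + 1 - 1 = i by omega]
              by_cases hi0 : i = 0
              · rw [if_pos hi0, mul_zero, add_zero, hi0]
                rw [Finset.sum_eq_single_of_mem (d', 0)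
                  (by rw [Finset.HasAntidiagonal.mem_antidiagonal])]
                · simp
                · rintro ⟨j, p⟩ hu hne
                  rw [Finset.HasAntidiagonal.mem_antidiagonal] at hu
                  simp only at hu
                  have hne1 : j ≠ d' := fun hj => hne (Prod.ext hj (by simp only; omega))
                  simp only
                  rw [if_neg (by omega), if_neg hne1, zero_mul]
              · rw [if_neg hi0]
                rw [Finset.sum_eq_add_of_mem (d', i) (d' + 1, i - 1)
                  (by rw [Finset.HasAntidiagonal.mem_antidiagonal])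
                  (by rw [Finset.HasAntidiagonal.mem_antidiagonal]; simp only; omega)
                  (by intro h; have := congrArg Prod.fst h; simp at this)]
                · simp
                · rintro ⟨j, p⟩ hu hne
                  rw [Finset.HasAntidiagonal.mem_antidiagonal] at hu
                  simp only at hu
                  have hne1 : j ≠ d' := fun hj => hne.1 (Prod.ext hj (by simp only; omega))
                  have hne2 : j ≠ d' + 1 := fun hj => hne.2 (Prod.ext hj (by simp only; omega))
                  simp only
                  rw [if_neg hne2, if_neg hne1, zero_mul]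
            rw [← h5]
            exact h4)
          (by simp only [Q]; rw [if_neg (by omega)]; exact h3) hS
        funext p
        by_cases hp : p < X
        · have := hQ (p + 1) (by omega)
          simpa [Q] using this
        · exact h1 p (by omega)
    · -- a longer chain
      push Not at hcase
      have hex : ∃ β, 1 ≤ β ∧ a ≤ e * (β - 1) + Module.finrank K U := ⟨X, hX, hcase.le⟩
      let β := Nat.find hex
      have hβ : 1 ≤ β ∧ a ≤ e * (β - 1) + Module.finrank K U := Nat.find_spec hex
      have hβX : β ≤ X := Nat.find_min' hex ⟨hX, hcase.le⟩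
      have hβmin : ∀ m, 1 ≤ m → m < β → e * (m - 1) + Module.finrank K U < a := by
        intro m h1 h2
        have := Nat.find_min hex h2
        push Not at this
        exact this h1
      obtain ⟨x, hx⟩ : ∃ x, X = x + β := ⟨X - β, by omega⟩
      have heβ : e * β = e * (β - 1) + e := by
        obtain ⟨Y, hY⟩ : ∃ Y, β = Y + 1 := ⟨β - 1, by omega⟩
        rw [hY]; simp [mul_add]
      -- the next boundary condition
      obtain ⟨w, w', hw⟩ : ∃ w w', w * g ^ β + w' * g' = 1 := by
        obtain ⟨w, w', h⟩ := (hco.pow_left : IsCoprime (g ^ β) g')
        exact ⟨w, w', h⟩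
      let φ : K[X] →ₗ[K] K[X] := (modByMonicHom g').comp (LinearMap.mulLeft K w)
      let U' : Submodule K K[X] := (Sol g g' e a U β).map φ
      have hφ : ∀ ρ, φ ρ = (w * ρ) %ₘ g' := fun _ => rfl
      have hU' : U' ≤ degreeLT K e := by
        rintro _ ⟨ρ, -, rfl⟩
        rw [hφ, mem_degreeLT]
        have := degree_modByMonic_lt (w * ρ) hg'm
        rwa [degree_eq_natDegree hg'0, hg'e] at this
      have hmemU' : ∀ ρ ∈ Sol g g' e a U β, ∀ r₀ ∈ degreeLT K e, g' ∣ ρ - g ^ β * r₀ →
          r₀ ∈ U' := by
        intro ρ hρ r₀ hr₀ hdvd
        refine ⟨ρ, hρ, ?_⟩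
        rw [hφ]
        obtain ⟨c, hc⟩ := hdvd
        have h1 : w * ρ = r₀ + g' * (w * c - w' * r₀) := by
          have h2 : ρ = g ^ β * r₀ + g' * c := by rw [← hc]; ring
          rw [h2]
          linear_combination r₀ * hw
        rw [h1, add_modByMonic, (modByMonic_eq_zero_iff_dvd hg'm).2 (dvd_mul_right _ _), add_zero]
        rw [modByMonic_eq_self_iff hg'm, degree_eq_natDegree hg'0, hg'e]
        rwa [mem_degreeLT] at hr₀
      have hfrU' : Module.finrank K U' ≤ (e * β - a) + Module.finrank K U - e := by
        have : FiniteDimensional K (Sol g g' e a U β) :=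
          Submodule.finiteDimensional_of_le (Sol_le _ _ _ _ _ _)
        exact (Submodule.finrank_map_le φ _).trans (hnode β hβ.1 hβX)
      have hle' : e * (x + 1 - 1) + Module.finrank K U' ≤ a * d' := by
        have h1 : e * (X - 1) = e * x + e * (β - 1) := by
          rw [← mul_add]; congr 1; omega
        have h2 : a * (d' + 1) = a * d' + a := by ring
        rw [show x + 1 - 1 = x by omega]
        omega
      obtain ⟨h, hh1, hh2, hh3, hh4⟩ := ih (x + 1) (by omega) g' hg'm hg'e hg's U' hU' hle'
      obtain ⟨c, hc0, hc⟩ := limit_step e a g (Bd g e a U) d' x β hβ.1 h hh2 (by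
        intro P hP H1 H2
        obtain ⟨hP1, hP2, hP3⟩ := hP
        rw [hh3] at H2
        -- the whole chain
        have hPx : g' * P x = conv h (fun p => if p ≤ x then P p else 0) (x + d') := by
          rw [conv, Finset.sum_eq_single_of_mem (d', x)
            (by rw [Finset.HasAntidiagonal.mem_antidiagonal]; simp only; omega)]
          · simp [hh3]
          · rintro ⟨j, p⟩ hu hne
            rw [Finset.HasAntidiagonal.mem_antidiagonal] at hu
            simp only at hu
            have hne1 : j ≠ d' := fun hj => hne (Prod.ext hj (by simp only; omega))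
            simp only
            by_cases hj : d' < j
            · rw [hh2 j hj, zero_mul]
            · rw [if_neg (by omega), mul_zero]
        have hlowmem : (fun p => if p ≤ x then P p else 0) ∈ VV (x + 1) (a + e) (Bd g' e a U') := by
          refine ⟨fun p hp => by simp only; rw [if_neg (by omega)], fun p => ?_, ?_⟩
          · simp only
            split_ifs
            · exact hP2 p
            · exact Submodule.zero_mem _
          · simp only
            rw [show x + 1 - 1 = x by omega, if_pos le_rfl]
            let Q : ℕ → K[X] := fun i => if i = 0 then 0 else if i ≤ β then P (x + i - 1) else 0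
            have hQm1 : Q (β + 1) = 0 := by
              simp only [Q]; rw [if_neg (by omega), if_neg (by omega)]
            obtain ⟨l, r, hl, hr, hlr, hrm⟩ := chain_use (Q := Q) (m := β) (a := a) (e := e)
              hge.le hg'e.le hU hQm1
              (fun i => by
                simp only [Q]
                split_ifs
                · exact Submodule.zero_mem _
                · exact hP2 _
                · exact Submodule.zero_mem _)
              (fun i hi => by
                rcases Nat.eq_zero_or_pos i with hi0 | hi0
                · have : g' * Q (i + 1) + g * Q i = g' * P x := by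
                    simp only [Q]
                    rw [if_neg (by omega), if_pos (by omega), if_pos hi0, mul_zero, add_zero]
                    congr 2; omega
                  rw [this, hPx]
                  exact H1 (x + d') le_rfl
                · have : g' * Q (i + 1) + g * Q i = g' * P (x + i) + g * P (x + i - 1) := by
                    simp only [Q]
                    rw [if_neg (by omega), if_pos (by omega), if_neg (by omega),
                      if_pos (by omega)]
                    congr 3
                  rw [this]
                  exact H2 i hi0 hi)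
              (by
                simp only [Q]
                rw [if_neg (by omega), if_pos le_rfl]
                exact hP3)
            have hQ0 : Q 0 = 0 := by simp [Q]
            have h1 := tel_mem_Sol hge.le hg'e.le hQ0 hQm1 hl hr hlr hrm
            refine ⟨l 0, hl 0, r 0, hmemU' _ h1 _ (hr 0) (tel_mod_g' g g' r β), ?_⟩
            have h2 := hlr 0 (by omega)
            simp only [Q] at h2
            rw [if_neg (by omega), if_pos (by omega), if_true, mul_zero, add_zero] at h2
            rw [← h2]
            congr 2
        have hlow : (fun p => if p ≤ x then P p else 0) = (0 : ℕ → K[X]) := by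
          refine hh4 _ hlowmem (fun q => ?_)
          by_cases hq : q ≤ x + d'
          · exact H1 q hq
          · have : conv h (fun p => if p ≤ x then P p else 0) q = 0 := by
              rw [conv]
              refine Finset.sum_eq_zero ?_
              rintro ⟨j, p⟩ hu
              rw [Finset.HasAntidiagonal.mem_antidiagonal] at hu
              simp only at hu ⊢
              by_cases hj : d' < j
              · rw [hh2 j hj, zero_mul]
              · rw [if_neg (by omega), mul_zero]
            rw [this]
            intro y _ _
            exact coeff_zero y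
        have hlow' : ∀ p ≤ x, P p = 0 := by
          intro p hp
          have := congrFun hlow p
          simpa [hp] using this
        by_cases hβ1 : β = 1
        · funext p
          by_cases hp : p ≤ x
          · exact hlow' p hp
          · exact hP1 p (by omega)
        · -- the rest of the chain
          let Q : ℕ → K[X] := fun i => if i = 0 then 0 else if i ≤ β - 1 then P (x + i) else 0
          have hS : Module.finrank K (Sol g g' e a U (β - 1)) = 0 := by
            have h1 := hnode (β - 1) (by omega) (by omega)
            have h2 := hβmin (β - 1) (by omega) (by omega)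
            have h3 : e * (β - 1) = e * (β - 1 - 1) + e := by
              obtain ⟨Y, hY⟩ : ∃ Y, β = Y + 2 := ⟨β - 2, by omega⟩
              rw [hY]; simp [mul_add]
            omega
          have hQ := chain_zero (Q := Q) (m := β - 1) hge hg0 hg'e.le hg'0 hco hU (by simp [Q])
            (by simp only [Q]; rw [if_neg (by omega), if_neg (by omega)])
            (fun i => by
              simp only [Q]
              split_ifs
              · exact Submodule.zero_mem _
              · exact hP2 _
              · exact Submodule.zero_mem _)
            (fun i hi => by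
              have h1 := H2 (i + 1) (by omega) (by omega)
              have : g' * Q (i + 1) + g * Q i
                  = g' * P (x + (i + 1)) + g * P (x + (i + 1) - 1) := by
                simp only [Q]
                rw [if_neg (by omega), if_pos (by omega)]
                congr 1
                rw [show x + (i + 1) - 1 = x + i by omega]
                rcases Nat.eq_zero_or_pos i with hi0 | hi0
                · rw [if_pos hi0, hlow' _ (by omega)]
                · rw [if_neg (by omega), if_pos (by omega)]
              rw [this]
              exact h1)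
            (by
              simp only [Q]
              rw [if_neg (by omega), if_pos le_rfl, show x + (β - 1) = x + β - 1 by omega]
              exact hP3) hS
          funext p
          by_cases hp : p ≤ x
          · exact hlow' p hp
          · by_cases hp2 : p < x + β
            · have h1 := hQ (p - x) (by omega)
              simp only [Q] at h1
              rw [if_neg (by omega), if_pos (by omega), show x + (p - x) = p by omega] at h1
              exact h1
            · exact hP1 p (by omega))
      refine ⟨fun j => if j = d' + 1 then g else C c * h j, fun j => ?_, fun j hj => ?_,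
        by simp, ?_⟩
      · simp only
        split_ifs
        · exact hge.le
        · exact (natDegree_C_mul_le _ _).trans (hh1 j)
      · simp only
        rw [if_neg (by omega), hh2 j (by omega), mul_zero]
      · rw [hx]
        exact hc

end Pool.Agent.Helper37
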