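import Mathlib
import Pool.Agent.Helper37.Chain

open Polynomial

namespace Pool.Agent.Helper37

variable {K : Type*} [Field K]

/-- The coefficient of `s ^ p * u ^ z`. -/
noncomputable def cc (P : K[X][X]) (p z : ℕ) : K := (P.coeff p).coeff z

lemma cc_ext {P Q : K[X][X]} (h : ∀ p z, cc P p z = cc Q p z) : P = Q := by
  ext p z
  exact h p z

@[simp] lemma cc_zero (p z : ℕ) : cc (0 : K[X][X]) p z = 0 := by simp [cc]

@[simp] lemma cc_add (P Q : K[X][X]) (p z : ℕ) : cc (P + Q) p z = cc P p z + cc Q p z := by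
  simp [cc]

@[simp] lemma cc_sub (P Q : K[X][X]) (p z : ℕ) : cc (P - Q) p z = cc P p z - cc Q p z := by
  simp [cc]

@[simp] lemma cc_neg (P : K[X][X]) (p z : ℕ) : cc (-P) p z = - cc P p z := by
  simp [cc]

@[simp] lemma cc_smul (c : K) (P : K[X][X]) (p z : ℕ) : cc (c • P) p z = c * cc P p z := by
  simp [cc]

lemma cc_sum {ι : Type*} (s : Finset ι) (F : ι → K[X][X]) (p z : ℕ) :
    cc (∑ i ∈ s, F i) p z = ∑ i ∈ s, cc (F i) p z := by
  simp [cc, finsetSum_coeff]

lemma cc_mul (f g : K[X][X]) (x y : ℕ) : cc (f * g) x y =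
    ∑ u ∈ Finset.HasAntidiagonal.antidiagonal x, ∑ v ∈ Finset.HasAntidiagonal.antidiagonal y,
      cc f u.1 v.1 * cc g u.2 v.2 := by
  unfold cc
  rw [coeff_mul, finsetSum_coeff]
  refine Finset.sum_congr rfl (fun u _ => ?_)
  rw [coeff_mul]

/-- Bivariate polynomials of degree `< m` in the outer and `< n` in the inner variable. -/
def BB (K : Type*) [Field K] (m n : ℕ) : Submodule K K[X][X] where
  carrier := {P | ∀ p z, m ≤ p ∨ n ≤ z → cc P p z = 0}
  zero_mem' := fun p z _ => cc_zero p z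
  add_mem' := fun {P Q} hP hQ p z h => by rw [cc_add, hP p z h, hQ p z h, add_zero]
  smul_mem' := fun c P hP p z h => by rw [cc_smul, hP p z h, mul_zero]

lemma mem_BB {m n : ℕ} {P : K[X][X]} : P ∈ BB K m n ↔ ∀ p z, m ≤ p ∨ n ≤ z → cc P p z = 0 :=
  Iff.rfl

lemma BB_mono {m n m' n' : ℕ} (h1 : m ≤ m') (h2 : n ≤ n') : BB K m n ≤ BB K m' n' := by
  intro P hP p z h
  exact hP p z (h.imp h1.trans h2.trans)

/-- A bivariate polynomial with given coefficients. -/
noncomputable def mkB (m n : ℕ) (v : ℕ → ℕ → K) : K[X][X] :=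
  ∑ p ∈ Finset.range m, ∑ z ∈ Finset.range n, monomial p (monomial z (v p z))

lemma cc_mkB (m n : ℕ) (v : ℕ → ℕ → K) (p z : ℕ) :
    cc (mkB m n v) p z = if p < m ∧ z < n then v p z else 0 := by
  unfold mkB
  rw [cc_sum]
  simp_rw [cc_sum]
  have : ∀ i j, cc (monomial i (monomial j (v i j))) p z
      = if i = p then (if j = z then v i j else 0) else 0 := by
    intro i j
    unfold cc
    rw [coeff_monomial]
    split_ifs with h1 h2
    · rw [coeff_monomial, if_pos h2]
    · rw [coeff_monomial, if_neg h2]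
    · exact coeff_zero z
  simp_rw [this]
  by_cases hp : p < m
  · rw [Finset.sum_eq_single_of_mem p (Finset.mem_range.2 hp)]
    · by_cases hz : z < n
      · rw [Finset.sum_eq_single_of_mem z (Finset.mem_range.2 hz)]
        · simp [hp, hz]
        · intro j _ hj
          simp [hj]
      · rw [if_neg (by tauto)]
        refine Finset.sum_eq_zero (fun j hj => ?_)
        rw [Finset.mem_range] at hj
        rw [if_pos rfl, if_neg (by omega)]
    · intro i _ hi
      simp [hi]
  · rw [if_neg (by tauto)]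
    refine Finset.sum_eq_zero (fun i hi => Finset.sum_eq_zero (fun j _ => ?_))
    rw [Finset.mem_range] at hi
    rw [if_neg (by omega)]

lemma mkB_mem (m n : ℕ) (v : ℕ → ℕ → K) : mkB m n v ∈ BB K m n := by
  intro p z h
  rw [cc_mkB, if_neg (by omega)]

/-- Coordinates. -/
noncomputable def coB (K : Type*) [Field K] (m n : ℕ) :
    K[X][X] →ₗ[K] (Fin m × Fin n → K) where
  toFun P i := cc P i.1 i.2
  map_add' _ _ := by ext i; simp
  map_smul' _ _ := by ext i; simp

@[simp] lemma coB_apply (m n : ℕ) (P : K[X][X]) (i : Fin m × Fin n) :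
    coB K m n P i = cc P i.1 i.2 := rfl

lemma coB_inj {m n : ℕ} {P : K[X][X]} (hP : P ∈ BB K m n) (h : coB K m n P = 0) : P = 0 := by
  apply cc_ext
  intro p z
  rw [cc_zero]
  by_cases hpz : m ≤ p ∨ n ≤ z
  · exact hP p z hpz
  · push Not at hpz
    exact congrFun h (⟨p, hpz.1⟩, ⟨z, hpz.2⟩)

/-- Coordinates on the box. -/
noncomputable def coordB (K : Type*) [Field K] (m n : ℕ) :
    BB K m n ≃ₗ[K] (Fin m × Fin n → K) :=
  LinearEquiv.ofBijective ((coB K m n).comp (BB K m n).subtype) (by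
    constructor
    · refine (injective_iff_map_eq_zero _).2 (fun P hP => ?_)
      exact Subtype.ext (coB_inj P.2 hP)
    · intro v
      refine ⟨⟨mkB m n (fun p z => if h : p < m ∧ z < n then v (⟨p, h.1⟩, ⟨z, h.2⟩) else 0),
        mkB_mem _ _ _⟩, ?_⟩
      ext i
      rw [LinearMap.comp_apply, Submodule.subtype_apply, coB_apply, cc_mkB,
        if_pos ⟨i.1.2, i.2.2⟩, dif_pos ⟨i.1.2, i.2.2⟩])

lemma coordB_apply (m n : ℕ) (P : BB K m n) (i : Fin m × Fin n) :
    coordB K m n P i = cc P.1 i.1 i.2 := rfl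

instance finiteDimensional_BB (m n : ℕ) : FiniteDimensional K (BB K m n) :=
  (coordB K m n).symm.finiteDimensional

instance free_BB (m n : ℕ) : Module.Free K (BB K m n) :=
  Module.Free.of_equiv (coordB K m n).symm

lemma finrank_BB (m n : ℕ) : Module.finrank K (BB K m n) = m * n := by
  rw [(coordB K m n).finrank_eq]
  simp

/-- The bivariate polynomial with given coordinates. -/
noncomputable def toB (K : Type*) [Field K] (m n : ℕ) :
    (Fin m × Fin n → K) →ₗ[K] K[X][X] :=
  (BB K m n).subtype.comp (coordB K m n).symm.toLinearMap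

lemma toB_mem (m n : ℕ) (v : Fin m × Fin n → K) : toB K m n v ∈ BB K m n :=
  ((coordB K m n).symm v).2

lemma cc_toB (m n : ℕ) (v : Fin m × Fin n → K) (i : Fin m × Fin n) :
    cc (toB K m n v) i.1 i.2 = v i := by
  have := coordB_apply m n ((coordB K m n).symm v) i
  rw [LinearEquiv.apply_symm_apply] at this
  exact this.symm

lemma toB_coB {m n : ℕ} {P : K[X][X]} (hP : P ∈ BB K m n) : toB K m n (coB K m n P) = P := by
  have : coB K m n P = coordB K m n ⟨P, hP⟩ := rfl
  rw [this]
  unfold toB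
  rw [LinearMap.comp_apply, LinearEquiv.coe_coe, LinearEquiv.symm_apply_apply]
  rfl

lemma coB_toB (m n : ℕ) (v : Fin m × Fin n → K) : coB K m n (toB K m n v) = v := by
  ext i
  rw [coB_apply, cc_toB]

lemma toB_eq_zero {m n : ℕ} {v : Fin m × Fin n → K} (h : toB K m n v = 0) : v = 0 := by
  rw [← coB_toB m n v, h, map_zero]

/-- Entries of multiplication matrices. -/
noncomputable def ent (f : K[X][X]) (x y p z : ℕ) : K :=
  if p ≤ x ∧ z ≤ y then cc f (x - p) (y - z) else 0

lemma sum_anti {M : Type*} [AddCommMonoid M] (F : ℕ → ℕ → M) (m x : ℕ)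
    (hF : ∀ j p, m ≤ p → F j p = 0) :
    ∑ u ∈ Finset.HasAntidiagonal.antidiagonal x, F u.1 u.2
      = ∑ p : Fin m, if (p : ℕ) ≤ x then F (x - p) p else 0 := by
  classical
  rw [← Finset.sum_filter]
  symm
  refine Finset.sum_bij_ne_zero (fun (p : Fin m) _ _ => (x - (p : ℕ), (p : ℕ))) ?_ ?_ ?_ ?_
  · intro p hp _
    rw [Finset.mem_filter] at hp
    rw [Finset.HasAntidiagonal.mem_antidiagonal]
    simp only
    omega
  · intro p _ _ q _ _ h
    exact Fin.ext (congrArg Prod.snd h)
  · rintro ⟨j, p⟩ hu hne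
    rw [Finset.HasAntidiagonal.mem_antidiagonal] at hu
    simp only at hu hne
    have hp : p < m := by
      by_contra h
      exact hne (hF j p (by omega))
    refine ⟨⟨p, hp⟩, ?_, ?_, ?_⟩
    · rw [Finset.mem_filter]
      exact ⟨Finset.mem_univ _, by simp only; omega⟩
    · simp only
      rwa [show x - p = j by omega]
    · simp only
      exact Prod.ext (by simp only; omega) rfl
  · intro p _ _
    rfl

lemma cc_mul_of_mem {m n : ℕ} {g : K[X][X]} (hg : g ∈ BB K m n) (f : K[X][X]) (x y : ℕ) :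
    cc (f * g) x y = ∑ w : Fin m × Fin n, ent f x y w.1 w.2 * cc g w.1 w.2 := by
  rw [cc_mul, sum_anti (fun j p => ∑ v ∈ Finset.HasAntidiagonal.antidiagonal y,
    cc f j v.1 * cc g p v.2) m x (fun j p hp => Finset.sum_eq_zero (fun v _ => by
      rw [hg p v.2 (Or.inl hp), mul_zero])), Fintype.sum_prod_type]
  refine Finset.sum_congr rfl (fun p _ => ?_)
  by_cases hp : (p : ℕ) ≤ x
  · rw [if_pos hp, sum_anti (fun j z => cc f (x - p) j * cc g p z) n y (fun j z hz => by
      rw [hg p z (Or.inr hz), mul_zero])]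
    refine Finset.sum_congr rfl (fun z _ => ?_)
    unfold ent
    by_cases hz : (z : ℕ) ≤ y
    · rw [if_pos hz, if_pos ⟨hp, hz⟩]
    · rw [if_neg hz, if_neg (by tauto), zero_mul]
  · rw [if_neg hp]
    symm
    refine Finset.sum_eq_zero (fun z _ => ?_)
    unfold ent
    rw [if_neg (by tauto), zero_mul]

lemma mul_mem_BB {d e m n : ℕ} {f g : K[X][X]} (hf : f ∈ BB K (d + 1) (e + 1))
    (hg : g ∈ BB K m n) : f * g ∈ BB K (m + d) (n + e) := by
  intro x y h
  rw [cc_mul_of_mem hg]
  refine Finset.sum_eq_zero (fun w _ => ?_)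
  unfold ent
  split_ifs with h1
  · rw [hf _ _ (by have := w.1.2; have := w.2.2; omega), zero_mul]
  · rw [zero_mul]

end Pool.Agent.Helper37
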