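import Mathlib
import Pool.Agent.Helper37.Biv

open Polynomial

namespace Pool.Agent.Helper37

variable {K : Type*} [Field K]

lemma coeff_mem_degreeLT {m n : ℕ} {P : K[X][X]} (hP : P ∈ BB K m n) (p : ℕ) :
    P.coeff p ∈ degreeLT K n := by
  rw [mem_degreeLT_iff_coeff]
  intro x hx
  exact hP p x (Or.inr hx)

/-- The middle part of the product with `h`. -/
noncomputable def thet (h : K[X][X]) (e R A : ℕ) : K[X][X] →ₗ[K] (Fin R × Fin A → K) where
  toFun P i := cc (h * P) i.1 (e + i.2)
  map_add' P Q := by ext i; simp [mul_add]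
  map_smul' c P := by ext i; simp

lemma thet_apply (h : K[X][X]) (e R A : ℕ) (P : K[X][X]) (i : Fin R × Fin A) :
    thet h e R A P i = cc (h * P) i.1 (e + i.2) := rfl

lemma mid_of_thet {h P : K[X][X]} {X d e a : ℕ} (hh : h ∈ BB K (d + 1) (e + 1))
    (hP : P ∈ BB K X (a + e)) (h0 : thet h e (X + d) a P = 0) (q : ℕ) :
    Mid e (a + e) ((h * P).coeff q) := by
  intro x hx1 hx2
  by_cases hq : q < X + d
  · have := congrFun h0 (⟨q, hq⟩, ⟨x - e, by omega⟩)
    rw [thet_apply] at this
    simp only [show e + (x - e) = x by omega] at this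
    exact this
  · exact mul_mem_BB hh hP q x (Or.inl (by omega))

theorem mixed_inj [IsAlgClosed K] (e a d X : ℕ) (he : 1 ≤ e) (hd : 1 ≤ d) (hX : 1 ≤ X)
    (hle : e * X ≤ a * d) :
    ∃ h : K[X][X], h ∈ BB K (d + 1) (e + 1) ∧ cc h 0 0 ≠ 0 ∧ cc h d e ≠ 0 ∧
      ∀ P ∈ BB K X (a + e), thet h e (X + d) a P = 0 → P = 0 := by
  classical
  have : Infinite K := IsAlgClosed.instInfinite
  obtain ⟨S, hS⟩ := Infinite.exists_subset_card_eq K e
  let g : K[X] := ∏ ζ ∈ S, (Polynomial.X - C ζ)
  have hgm : g.Monic := monic_prod_of_monic _ _ (fun ζ _ => monic_X_sub_C ζ)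
  have hge : g.natDegree = e := by
    rw [natDegree_finsetProd_X_sub_C_eq_card, hS]
  have hgs : g.Separable := by
    rw [separable_prod_X_sub_C_iff']
    intro x _ y _ h
    exact h
  obtain ⟨h', hh1, hh2, hh3, hh4⟩ := chain e a he d X hX g hgm hge hgs (degreeLT K e) le_rfl (by
    rw [finrank_degreeLT]
    have : e * X = e * (X - 1) + e := by
      obtain ⟨Y, rfl⟩ : ∃ Y, X = Y + 1 := ⟨X - 1, by omega⟩
      simp [mul_add]
    omega)
  let h : K[X][X] := ∑ j ∈ Finset.range (d + 1), monomial j (h' j)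
  have hcoeff : ∀ j, h.coeff j = h' j := by
    intro j
    simp only [h]
    rw [finsetSum_coeff]
    by_cases hj : j < d + 1
    · rw [Finset.sum_eq_single_of_mem j (Finset.mem_range.2 hj)]
      · rw [coeff_monomial, if_pos rfl]
      · intro i _ hi
        rw [coeff_monomial, if_neg hi]
    · rw [hh2 j (by omega)]
      refine Finset.sum_eq_zero (fun i hi => ?_)
      rw [Finset.mem_range] at hi
      rw [coeff_monomial, if_neg (by omega)]
  have hmem : h ∈ BB K (d + 1) (e + 1) := by
    intro p z hpz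
    unfold cc
    rw [hcoeff]
    rcases hpz with hp | hz
    · rw [hh2 p (by omega), coeff_zero]
    · exact coeff_eq_zero_of_natDegree_lt ((hh1 p).trans_lt (by omega))
  have hinj : ∀ P ∈ BB K X (a + e), thet h e (X + d) a P = 0 → P = 0 := by
    intro P hP h0
    have hmid := mid_of_thet hmem hP h0
    have hconv : ∀ q, conv h' P.coeff q = (h * P).coeff q := by
      intro q
      rw [coeff_mul, conv]
      refine Finset.sum_congr rfl (fun u _ => ?_)
      rw [hcoeff]
    have hPX : ∀ p, X ≤ p → P.coeff p = 0 := by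
      intro p hp
      ext z
      exact hP p z (Or.inl hp)
    have h1 : P.coeff = 0 := by
      refine hh4 P.coeff ⟨hPX, coeff_mem_degreeLT hP, ?_⟩ (fun q => by rw [hconv]; exact hmid q)
      have h2 : g * P.coeff (X - 1) = (h * P).coeff (X - 1 + d) := by
        rw [← hconv, conv, Finset.sum_eq_single_of_mem (d, X - 1)
          (by rw [Finset.HasAntidiagonal.mem_antidiagonal]; simp only; omega)]
        · simp only [hh3]
        · rintro ⟨j, p⟩ hu hne
          rw [Finset.HasAntidiagonal.mem_antidiagonal] at hu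
          simp only at hu
          have hne1 : j ≠ d := fun hj => hne (Prod.ext hj (by simp only; omega))
          simp only
          by_cases hj : d < j
          · rw [hh2 j hj, zero_mul]
          · rw [hPX p (by omega), mul_zero]
      have h3 : g * P.coeff (X - 1) ∈ degreeLT K (a + e + e) := by
        have := mul_mem_degreeLT hge.le (coeff_mem_degreeLT hP (X - 1))
        rwa [add_comm e] at this
      have h4 : Mid e (a + e) (g * P.coeff (X - 1)) := by
        rw [h2]; exact hmid _
      exact mid_decomp h3 h4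
    ext1 p
    rw [h1]
    rfl
  -- perturb the corner
  have hpert : ∀ z : K, ∀ P x y, cc ((h + C (C z)) * P) x y = cc (h * P) x y + z * cc P x y := by
    intro z P x y
    rw [add_mul, cc_add]
    congr 1
    unfold cc
    rw [coeff_C_mul, coeff_C_mul]
  let F : K → BB K X (a + e) →ₗ[K] (Fin (X + d) × Fin a → K) := fun z =>
    (thet (h + C (C z)) e (X + d) a).comp (BB K X (a + e)).subtype
  have hF1 : ∀ (P : BB K X (a + e)) (i : Fin (X + d) × Fin a), ∃ p : K[X], ∀ z,
      F z P i = p.eval z := by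
    intro P i
    refine ⟨C (cc (h * P.1) i.1 (e + i.2)) + Polynomial.X * C (cc P.1 i.1 (e + i.2)), fun z => ?_⟩
    have e1 : F z P i = cc ((h + C (C z)) * P.1) i.1 (e + i.2) := rfl
    rw [e1, hpert, eval_add, eval_mul, eval_X, eval_C, eval_C]
  have hF2 : Function.Injective (F 0) := by
    refine (injective_iff_map_eq_zero _).2 (fun P hP => ?_)
    apply Subtype.ext
    refine hinj P.1 P.2 ?_
    have : h + C (C (0 : K)) = h := by simp
    rw [← this]
    exact hP
  obtain ⟨s, hs⟩ := gen_inj_finite (V := BB K X (a + e)) (ι := Fin (X + d) × Fin a) F hF1 hF2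
  obtain ⟨z, hz⟩ := Infinite.exists_notMem_finset (insert (- cc h 0 0) s)
  rw [Finset.mem_insert, not_or] at hz
  have hccC : ∀ x y, cc (C (C z) : K[X][X]) x y = if x = 0 ∧ y = 0 then z else 0 := by
    intro x y
    unfold cc
    rw [coeff_C]
    by_cases hx : x = 0
    · rw [if_pos hx, coeff_C]
      by_cases hy : y = 0
      · rw [if_pos hy, if_pos ⟨hx, hy⟩]
      · rw [if_neg hy, if_neg (by tauto)]
    · rw [if_neg hx, coeff_zero, if_neg (by tauto)]
  refine ⟨h + C (C z), ?_, ?_, ?_, ?_⟩
  · intro x y hxy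
    rw [cc_add, hmem x y hxy, hccC, if_neg (by omega), add_zero]
  · rw [cc_add, hccC, if_pos ⟨rfl, rfl⟩]
    intro h0
    exact hz.1 (eq_neg_of_add_eq_zero_right h0)
  · rw [cc_add, hccC, if_neg (by omega), add_zero]
    unfold cc
    rw [hcoeff, hh3, ← hge, hgm.coeff_natDegree]
    exact one_ne_zero
  · intro P hP h0
    have h1 : F z ⟨P, hP⟩ = 0 := h0
    have h2 := (injective_iff_map_eq_zero _).1 (hs z hz.2) _ h1
    exact congrArg Subtype.val h2

end Pool.Agent.Helper37
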