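import Mathlib
import Pool.Agent.Helper37.Star

open Polynomial

namespace Pool.Agent.Helper37

variable {K : Type*} [Field K]

/-- The matrix of the middle part of multiplication by `h`. -/
noncomputable def NN (h : K[X][X]) (e R A X L : ℕ) : Matrix (Fin R × Fin A) (Fin X × Fin L) K :=
  fun i w => ent h i.1 (e + i.2) w.1 w.2

lemma thet_eq {h P : K[X][X]} {e R A X L : ℕ} (hP : P ∈ BB K X L) :
    thet h e R A P = (NN h e R A X L).mulVec (coB K X L P) := by
  ext i
  rw [thet_apply, cc_mul_of_mem hP]
  rfl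

/-- The kernel of the middle part of multiplication by `h`. -/
noncomputable def KB (h : K[X][X]) (e R A X L : ℕ) : Submodule K K[X][X] :=
  BB K X L ⊓ LinearMap.ker (thet h e R A)

lemma KB_le (h : K[X][X]) (e R A X L : ℕ) : KB h e R A X L ≤ BB K X L := inf_le_left

instance finiteDimensional_KB (h : K[X][X]) (e R A X L : ℕ) :
    FiniteDimensional K (KB h e R A X L) :=
  Submodule.finiteDimensional_of_le (KB_le h e R A X L)

lemma finrank_KB (h : K[X][X]) (e R A X L : ℕ) :
    Module.finrank K (KB h e R A X L) + (NN h e R A X L).rank = X * L := by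
  let f : BB K X L →ₗ[K] (Fin R × Fin A → K) := (thet h e R A).comp (BB K X L).subtype
  have h1 := LinearMap.finrank_range_add_finrank_ker (K := K) (V := BB K X L)
    (V₂ := Fin R × Fin A → K) f
  rw [finrank_BB] at h1
  have h2 : Module.finrank K (LinearMap.ker f) = Module.finrank K (KB h e R A X L) := by
    have : LinearMap.ker f = (LinearMap.ker (thet h e R A)).comap (BB K X L).subtype := rfl
    rw [this, KB, ← Submodule.map_comap_subtype, Submodule.finrank_map_subtype_eq]
  have h3 : LinearMap.range f = LinearMap.range (NN h e R A X L).mulVecLin := by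
    have : f = ((NN h e R A X L).mulVecLin).comp (coordB K X L).toLinearMap := by
      ext1 P
      exact thet_eq P.2
    rw [this, LinearMap.range_comp_of_range_eq_top]
    exact LinearEquiv.range _
  rw [h2, h3] at h1
  rw [Matrix.rank]
  omega

theorem star [IsAlgClosed K] (e a d X : ℕ) (he : 1 ≤ e) (ha : 1 ≤ a) (hd : 1 ≤ d)
    (hX : 1 ≤ X) :
    ∃ h : K[X][X], h ∈ BB K (d + 1) (e + 1) ∧ cc h 0 0 ≠ 0 ∧ cc h d e ≠ 0 ∧
      Module.finrank K (KB h e (X + d) a X (a + e)) ≤ X * (a + e) - (X + d) * a := by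
  rcases le_total (e * X) (a * d) with hle | hle
  · obtain ⟨h, h1, h2, h3, h4⟩ := mixed_inj (K := K) e a d X he hd hX hle
    refine ⟨h, h1, h2, h3, ?_⟩
    have : KB h e (X + d) a X (a + e) = ⊥ := by
      rw [eq_bot_iff]
      rintro P ⟨hP1, hP2⟩
      rw [Submodule.mem_bot]
      exact h4 P hP1 hP2
    rw [this, finrank_bot]
    exact Nat.zero_le _
  · obtain ⟨g, h1, h2, h3, h4⟩ := mixed_inj (K := K) d X e a hd he ha (by
      rw [mul_comm d a, mul_comm X e]; exact hle)
    have hKB : KB g d (a + e) X a (X + d) = ⊥ := by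
      rw [eq_bot_iff]
      rintro P ⟨hP1, hP2⟩
      rw [Submodule.mem_bot]
      exact h4 P hP1 hP2
    have hr := finrank_KB g d (a + e) X a (X + d)
    rw [hKB, finrank_bot, zero_add] at hr
    let h : K[X][X] := mkB (d + 1) (e + 1) (fun j i => cc g (e - i) (d - j))
    refine ⟨h, mkB_mem _ _ _, ?_, ?_, ?_⟩
    · rw [cc_mkB, if_pos ⟨by omega, by omega⟩, Nat.sub_zero, Nat.sub_zero]
      exact h3
    · rw [cc_mkB, if_pos ⟨by omega, by omega⟩, Nat.sub_self, Nat.sub_self]
      exact h2
    · have hNN : NN h e (X + d) a X (a + e) = ((NN g d (a + e) X a (X + d)).transpose).submatrix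
          (Equiv.prodComm _ _) (Equiv.prodComm _ _) := by
        ext ⟨q, y⟩ ⟨p, z⟩
        change (if (p : ℕ) ≤ q ∧ (z : ℕ) ≤ e + y then
            cc (mkB (d + 1) (e + 1) (fun j i => cc g (e - i) (d - j))) (q - p) (e + y - z) else 0)
          = if (y : ℕ) ≤ z ∧ (q : ℕ) ≤ d + p then cc g (z - y) (d + p - q) else 0
        rw [cc_mkB]
        have hq := q.2
        have hy := y.2
        have hp := p.2
        have hz := z.2
        by_cases c1 : (p : ℕ) ≤ q ∧ (z : ℕ) ≤ e + y
        · rw [if_pos c1]
          by_cases c2 : (q : ℕ) - p < d + 1 ∧ e + y - z < e + 1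
          · rw [if_pos c2, if_pos (by omega)]
            congr 1 <;> omega
          · rw [if_neg c2]
            by_cases c3 : (y : ℕ) ≤ z ∧ (q : ℕ) ≤ d + p
            · omega
            · rw [if_neg c3]
        · rw [if_neg c1]
          by_cases c3 : (y : ℕ) ≤ z ∧ (q : ℕ) ≤ d + p
          · rw [if_pos c3]
            rw [h1 _ _ (by omega)]
          · rw [if_neg c3]
      have hr2 : (NN h e (X + d) a X (a + e)).rank = a * (X + d) := by
        rw [hNN, Matrix.rank_submatrix, Matrix.rank_transpose, hr]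
      have := finrank_KB h e (X + d) a X (a + e)
      rw [hr2] at this
      rw [mul_comm (X + d) a]
      omega

end Pool.Agent.Helper37
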