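import Mathlib
import Pool.Agent.Helper37.Star2

open Polynomial

namespace Pool.Agent.Helper37

variable {K : Type*} [Field K]

/-- The product of `s - σ` over `σ ∈ S`. -/
noncomputable def AA (S : Finset K) : K[X][X] := ∏ σ ∈ S, (X - C (C σ))

lemma AA_eval (S : Finset K) (τ : K) : (AA S).eval (C τ) = C (∏ σ ∈ S, (τ - σ)) := by
  unfold AA
  rw [eval_prod, map_prod]
  refine Finset.prod_congr rfl (fun σ _ => ?_)
  simp

lemma AA_ne_zero (S : Finset K) : AA S ≠ 0 := by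
  unfold AA
  rw [Finset.prod_ne_zero_iff]
  intro σ _
  exact X_sub_C_ne_zero _

lemma cc_XC (σ : K) (p z : ℕ) : cc (X - C (C σ) : K[X][X]) p z =
    if p = 1 ∧ z = 0 then 1 else if p = 0 ∧ z = 0 then -σ else 0 := by
  unfold cc
  rw [coeff_sub, coeff_X, coeff_C]
  by_cases h1 : p = 1
  · subst h1
    by_cases hz : z = 0
    · simp [hz]
    · simp [hz, coeff_one]
  · by_cases h0 : p = 0
    · subst h0
      by_cases hz : z = 0
      · simp [hz]
      · simp [hz, coeff_C]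
    · simp [h1, h0, Ne.symm h1]

lemma XC_mem (σ : K) : (X - C (C σ) : K[X][X]) ∈ BB K 2 1 := by
  intro p z h
  rw [cc_XC, if_neg (by omega), if_neg (by omega)]

lemma AA_mem (S : Finset K) : AA S ∈ BB K (S.card + 1) 1 := by
  classical
  induction S using Finset.induction_on with
  | empty =>
    unfold AA
    rw [Finset.prod_empty, Finset.card_empty]
    intro p z h
    unfold cc
    rw [coeff_one]
    by_cases hp : p = 0
    · rw [if_pos hp, coeff_one, if_neg (by omega)]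
    · rw [if_neg hp, coeff_zero]
  | insert σ S hσ ih =>
    unfold AA
    rw [Finset.prod_insert hσ, Finset.card_insert_of_notMem hσ]
    exact mul_mem_BB (d := 1) (e := 0) (XC_mem σ) ih

lemma eval_mem {m n : ℕ} {P : K[X][X]} (hP : P ∈ BB K m n) (σ : K) :
    P.eval (C σ) ∈ degreeLT K n := by
  rw [eval_eq_sum]
  refine Submodule.sum_mem _ (fun p _ => ?_)
  have : P.coeff p * C σ ^ p = (σ ^ p) • P.coeff p := by
    rw [← C_pow, mul_comm, ← smul_eq_C_mul]
  simp only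
  rw [this]
  exact Submodule.smul_mem _ _ (coeff_mem_degreeLT hP p)

lemma cc_XC_mul (σ : K) (Q : K[X][X]) (p z : ℕ) :
    cc ((X - C (C σ)) * Q) (p + 1) z = cc Q p z - σ * cc Q (p + 1) z := by
  rw [sub_mul, cc_sub]
  congr 1
  · unfold cc
    rw [coeff_X_mul]
  · unfold cc
    rw [coeff_C_mul, coeff_C_mul]

lemma BB_of_mul {m n : ℕ} {σ : K} {Q : K[X][X]} (h : (X - C (C σ)) * Q ∈ BB K (m + 1) n) :
    Q ∈ BB K m n := by
  have key : ∀ k p z, m ≤ p ∨ n ≤ z → cc Q p z = σ ^ k * cc Q (p + k) z := by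
    intro k
    induction k with
    | zero => intro p z _; simp
    | succ k ih =>
      intro p z hpz
      have h1 := h (p + 1) z (hpz.imp (by omega) id)
      rw [cc_XC_mul, sub_eq_zero] at h1
      rw [h1, ih (p + 1) z (hpz.imp (by omega) id), show p + 1 + k = p + (k + 1) by ring]
      ring
  intro p z hpz
  rw [key (Q.natDegree + 1) p z hpz]
  unfold cc
  rw [coeff_eq_zero_of_natDegree_lt (show Q.natDegree < p + (Q.natDegree + 1) by omega),
    coeff_zero, mul_zero]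

lemma BB_zero_left (n : ℕ) {Q : K[X][X]} (h : Q ∈ BB K 0 n) : Q = 0 := by
  apply cc_ext
  intro p z
  rw [h p z (Or.inl (Nat.zero_le _)), cc_zero]

lemma prod_ne {S : Finset K} {σ : K} (hσ : σ ∉ S) : (∏ τ ∈ S, (σ - τ)) ≠ 0 := by
  rw [Finset.prod_ne_zero_iff]
  intro τ hτ h3
  exact hσ (by rwa [sub_eq_zero.1 h3])

lemma split_roots {m n : ℕ} {P : K[X][X]} (hP : P ∈ BB K m n) (S : Finset K)
    (h : ∀ σ ∈ S, P.eval (C σ) = 0) : ∃ Q ∈ BB K (m - S.card) n, P = AA S * Q := by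
  classical
  induction S using Finset.induction_on with
  | empty =>
    exact ⟨P, by simpa using hP, by simp [AA]⟩
  | insert σ S hσ ih =>
    obtain ⟨Q', hQ', hPQ⟩ := ih (fun τ hτ => h τ (Finset.mem_insert_of_mem hτ))
    have h1 := h σ (Finset.mem_insert_self _ _)
    rw [hPQ, eval_mul, AA_eval] at h1
    have h2 : Q'.eval (C σ) = 0 := by
      refine (mul_eq_zero.1 h1).resolve_left ?_
      rw [C_eq_zero]
      exact prod_ne hσ
    obtain ⟨Q, hQ⟩ := dvd_iff_isRoot.2 h2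
    refine ⟨Q, ?_, ?_⟩
    · rw [Finset.card_insert_of_notMem hσ]
      rcases Nat.eq_zero_or_pos (m - S.card) with h0 | h0
      · rw [h0] at hQ'
        have h4 := BB_zero_left n hQ'
        rw [hQ] at h4
        have h5 := (mul_eq_zero.1 h4).resolve_left (X_sub_C_ne_zero _)
        rw [h5]
        exact Submodule.zero_mem _
      · apply BB_of_mul (σ := σ)
        rw [← hQ]
        rwa [show m - (S.card + 1) + 1 = m - S.card by omega]
    · rw [hPQ, hQ]
      unfold AA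
      rw [Finset.prod_insert hσ]
      ring

lemma cc_CX_mul (L : ℕ) (Q : K[X][X]) (p z : ℕ) :
    cc (C (X ^ L) * Q) p z = if L ≤ z then cc Q p (z - L) else 0 := by
  unfold cc
  rw [coeff_C_mul, coeff_X_pow_mul']

theorem ker_M0 {h : K[X][X]} {e d L m : ℕ}
    {S₁ S₂ : Finset K} (hS₁ : S₁.card = d) (hS₂ : S₂.card = d) (hdisj : Disjoint S₁ S₂)
    (h1 : ∀ σ ∈ S₁, (h.eval (C σ)).coeff e ≠ 0) (h2 : ∀ σ ∈ S₂, (h.eval (C σ)).coeff 0 ≠ 0)
    {P₁ P₂ P₃ : K[X][X]} (hP₁ : P₁ ∈ BB K m e) (hP₂ : P₂ ∈ BB K m e) (hP₃ : P₃ ∈ BB K m L)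
    (hz : C (X ^ L) * (AA S₁ * P₁) + AA S₂ * P₂ + h * P₃ = 0) :
    ∃ Q ∈ BB K (m - 2 * d) L, P₃ = AA S₁ * AA S₂ * Q ∧ ∀ q, Mid e L ((h * Q).coeff q) := by
  classical
  have hAself : ∀ (S : Finset K) (σ : K), σ ∈ S → (AA S).eval (C σ) = 0 := by
    intro S σ hσ
    rw [AA_eval, Finset.prod_eq_zero hσ (sub_self σ), C_0]
  have hev : ∀ σ : K, X ^ L * ((AA S₁).eval (C σ) * P₁.eval (C σ))
      + (AA S₂).eval (C σ) * P₂.eval (C σ) + h.eval (C σ) * P₃.eval (C σ) = 0 := by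
    intro σ
    have := congrArg (eval (C σ)) hz
    simpa using this
  have hd1 : ∀ σ ∈ S₁, P₃.eval (C σ) = 0 := by
    intro σ hσ
    have h3 := hev σ
    rw [hAself S₁ σ hσ, zero_mul, mul_zero, zero_add, AA_eval] at h3
    by_contra hne
    have h4 : h.eval (C σ) * P₃.eval (C σ) ∈ degreeLT K e := by
      rw [eq_neg_of_add_eq_zero_right h3, ← smul_eq_C_mul]
      exact Submodule.neg_mem _ (Submodule.smul_mem _ _ (eval_mem hP₂ σ))
    rw [mem_degreeLT, degree_mul] at h4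
    have h5 : (e : WithBot ℕ) ≤ (h.eval (C σ)).degree := le_degree_of_ne_zero (h1 σ hσ)
    have h6 : (0 : WithBot ℕ) ≤ (P₃.eval (C σ)).degree := zero_le_degree_iff.2 hne
    have h7 := add_le_add h5 h6
    rw [add_zero] at h7
    exact absurd (h7.trans_lt h4) (lt_irrefl _)
  have hd2 : ∀ σ ∈ S₂, P₃.eval (C σ) = 0 := by
    intro σ hσ
    have h3 := hev σ
    rw [hAself S₂ σ hσ, zero_mul, add_zero] at h3
    have h4 : X ^ L ∣ h.eval (C σ) * P₃.eval (C σ) := by
      rw [eq_neg_of_add_eq_zero_right h3, dvd_neg]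
      exact dvd_mul_right _ _
    have h5 : IsCoprime (X ^ L) (h.eval (C σ)) := by
      apply IsCoprime.pow_left
      rw [irreducible_X.coprime_iff_not_dvd, X_dvd_iff]
      exact h2 σ hσ
    have h6 := h5.dvd_of_dvd_mul_left h4
    exact eq_zero_of_dvd_of_mem (natDegree_X_pow L) (eval_mem hP₃ σ) (pow_ne_zero _ X_ne_zero) h6
  have hd3 : ∀ σ ∈ S₂, P₁.eval (C σ) = 0 := by
    intro σ hσ
    have h3 := hev σ
    rw [hAself S₂ σ hσ, zero_mul, add_zero, hd2 σ hσ, mul_zero, add_zero, AA_eval] at h3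
    have h4 := (mul_eq_zero.1 h3).resolve_left (pow_ne_zero _ X_ne_zero)
    refine (mul_eq_zero.1 h4).resolve_left ?_
    rw [C_eq_zero]
    exact prod_ne (fun h5 => (Finset.disjoint_left.1 hdisj h5) hσ)
  have hd4 : ∀ σ ∈ S₁, P₂.eval (C σ) = 0 := by
    intro σ hσ
    have h3 := hev σ
    rw [hAself S₁ σ hσ, zero_mul, mul_zero, zero_add, hd1 σ hσ, mul_zero, add_zero, AA_eval] at h3
    refine (mul_eq_zero.1 h3).resolve_left ?_
    rw [C_eq_zero]
    exact prod_ne (fun h5 => (Finset.disjoint_left.1 hdisj hσ) h5)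
  obtain ⟨Q, hQ1, hQ2⟩ := split_roots hP₃ (S₁ ∪ S₂) (fun σ hσ => by
    rcases Finset.mem_union.1 hσ with h3 | h3
    · exact hd1 σ h3
    · exact hd2 σ h3)
  obtain ⟨P₁', hP₁', hP₁''⟩ := split_roots hP₁ S₂ hd3
  obtain ⟨P₂', hP₂', hP₂''⟩ := split_roots hP₂ S₁ hd4
  have hun : AA (S₁ ∪ S₂) = AA S₁ * AA S₂ := by
    unfold AA
    rw [Finset.prod_union hdisj]
  rw [hun] at hQ2
  rw [Finset.card_union_of_disjoint hdisj, hS₁, hS₂, ← two_mul] at hQ1
  refine ⟨Q, hQ1, hQ2, fun q x hx1 hx2 => ?_⟩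
  have h3 : AA S₁ * AA S₂ * (C (X ^ L) * P₁' + P₂' + h * Q) = 0 := by
    rw [← hz, hQ2, hP₁'', hP₂'']
    ring
  have h4 := (mul_eq_zero.1 h3).resolve_left (mul_ne_zero (AA_ne_zero _) (AA_ne_zero _))
  have h5 := congrArg (fun P => cc P q x) h4
  simp only [cc_add, cc_zero] at h5
  rw [cc_CX_mul, if_neg (by omega), hP₂' q x (Or.inr hx1), add_zero, zero_add] at h5
  exact h5

lemma M0_inj {e L m : ℕ} (heL : e ≤ L) {S₁ S₂ : Finset K}
    {P₁ P₂ : K[X][X]} (hP₂ : P₂ ∈ BB K m e)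
    (hz : C (X ^ L) * (AA S₁ * P₁) + AA S₂ * P₂ = 0) : P₁ = 0 ∧ P₂ = 0 := by
  have h1 : AA S₂ * P₂ = 0 := by
    apply cc_ext
    intro q x
    rw [cc_zero]
    by_cases hx : e ≤ x
    · have := mul_mem_BB (d := S₂.card) (e := 0) (AA_mem S₂) hP₂
      exact this q x (Or.inr hx)
    · have h5 := congrArg (fun P => cc P q x) hz
      simp only [cc_add, cc_zero] at h5
      rw [cc_CX_mul, if_neg (by omega), zero_add] at h5
      exact h5
  have h2 := (mul_eq_zero.1 h1).resolve_left (AA_ne_zero _)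
  rw [h1, add_zero] at hz
  have h3 := (mul_eq_zero.1 hz).resolve_left (C_ne_zero.2 (pow_ne_zero _ X_ne_zero))
  exact ⟨(mul_eq_zero.1 h3).resolve_left (AA_ne_zero _), h2⟩

end Pool.Agent.Helper37
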