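import Mathlib
import Pool.Agent.Helper37.Mzero

open Polynomial

namespace Pool.Agent.Helper37

/-- Lower semicontinuity of the rank in a polynomial one-parameter family. -/
theorem rank_open {K V ι : Type*} [Field K] [AddCommGroup V] [Module K V] [FiniteDimensional K V]
    [Fintype ι] [DecidableEq ι] (F : K → V →ₗ[K] (ι → K))
    (hF : ∀ v i, ∃ p : K[X], ∀ ε, F ε v i = p.eval ε) (ε₀ : K) :
    ∃ s : Finset K, ∀ ε, ε ∉ s → Module.finrank K V ≤
      Module.finrank K (LinearMap.range (F ε)) + Module.finrank K (LinearMap.ker (F ε₀)) := by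
  obtain ⟨W, hW⟩ := Submodule.exists_isCompl (LinearMap.ker (F ε₀))
  obtain ⟨s, hs⟩ := gen_inj_finite (V := W) (ι := ι) (fun ε => (F ε).comp W.subtype)
    (fun v i => hF v i) (ε₀ := ε₀) (by
      refine (injective_iff_map_eq_zero _).2 (fun v hv => ?_)
      have h1 : (v : V) ∈ LinearMap.ker (F ε₀) ⊓ W := ⟨hv, v.2⟩
      rw [hW.inf_eq_bot, Submodule.mem_bot] at h1
      exact Subtype.ext h1)
  refine ⟨s, fun ε hε => ?_⟩
  have h1 := hs ε hε
  have h2 := LinearMap.finrank_range_of_inj h1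
  have h3 : LinearMap.range ((F ε).comp W.subtype) ≤ LinearMap.range (F ε) :=
    LinearMap.range_comp_le_range _ _
  have h4 := Submodule.finrank_mono h3
  have h5 := Submodule.finrank_add_eq_of_isCompl hW
  omega

variable {K : Type*} [Field K]

/-- The multiplication map of a triple. -/
noncomputable def muB (f : Fin 3 → K[X][X]) (m n : ℕ) :
    (Fin 3 → Fin m × Fin n → K) →ₗ[K] K[X][X] where
  toFun g := ∑ i, f i * toB K m n (g i)
  map_add' g g' := by
    rw [← Finset.sum_add_distrib]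
    refine Finset.sum_congr rfl (fun i _ => ?_)
    rw [Pi.add_apply, map_add, mul_add]
  map_smul' c g := by
    rw [RingHom.id_apply, Finset.smul_sum]
    refine Finset.sum_congr rfl (fun i _ => ?_)
    rw [Pi.smul_apply, map_smul, mul_smul_comm]

lemma muB_apply (f : Fin 3 → K[X][X]) (m n : ℕ) (g : Fin 3 → Fin m × Fin n → K) :
    muB f m n g = ∑ i, f i * toB K m n (g i) := rfl

/-- The image of the multiplication map of a triple. -/
noncomputable def Im (f : Fin 3 → K[X][X]) (m n : ℕ) : Submodule K K[X][X] :=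
  LinearMap.range (muB f m n)

instance finiteDimensional_Im (f : Fin 3 → K[X][X]) (m n : ℕ) :
    FiniteDimensional K (Im f m n) :=
  Module.Finite.range (muB f m n)

lemma mem_Im {f : Fin 3 → K[X][X]} {m n : ℕ} {P : K[X][X]} :
    P ∈ Im f m n ↔ ∃ g : Fin 3 → K[X][X], (∀ i, g i ∈ BB K m n) ∧ ∑ i, f i * g i = P := by
  constructor
  · rintro ⟨g, rfl⟩
    exact ⟨fun i => toB K m n (g i), fun i => toB_mem _ _ _, rfl⟩
  · rintro ⟨g, hg, rfl⟩
    refine ⟨fun i => coB K m n (g i), ?_⟩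
    rw [muB_apply]
    refine Finset.sum_congr rfl (fun i _ => ?_)
    rw [toB_coB (hg i)]

lemma CX_mem (L : ℕ) : (C (X ^ L) : K[X][X]) ∈ BB K 1 (L + 1) := by
  intro p z h
  unfold cc
  rw [coeff_C]
  split_ifs with h1
  · rw [coeff_X_pow, if_neg (by omega)]
  · exact coeff_zero z

lemma CX_mul_mem {L m n : ℕ} {P : K[X][X]} (hP : P ∈ BB K m n) :
    C (X ^ L) * P ∈ BB K m (n + L) :=
  mul_mem_BB (d := 0) (e := L) (CX_mem L) hP

lemma CC_mem (z : K) : (C (C z) : K[X][X]) ∈ BB K 1 1 := by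
  intro p y h
  unfold cc
  rw [coeff_C]
  split_ifs with h1
  · rw [coeff_C, if_neg (by omega)]
  · exact coeff_zero y

lemma CC_mul_mem {m n : ℕ} (z : K) {P : K[X][X]} (hP : P ∈ BB K m n) :
    C (C z) * P ∈ BB K m n :=
  mul_mem_BB (d := 0) (e := 0) (CC_mem z) hP

/-- The domain of the perturbed map. -/
abbrev VF (K : Type*) [Field K] (κ e m : ℕ) : Type _ :=
  (Fin m × Fin κ → K) × (Fin m × Fin κ → K) × (Fin m × Fin (e + κ) → K) ×
    (Fin m × Fin e → K) × (Fin m × Fin e → K)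

lemma finrank_VF (κ e m : ℕ) : Module.finrank K (VF K κ e m) = 3 * m * (e + κ) := by
  rw [Module.finrank_prod, Module.finrank_prod, Module.finrank_prod, Module.finrank_prod]
  simp only [Module.finrank_fintype_fun_eq_card, Fintype.card_prod, Fintype.card_fin]
  ring

/-- The third component. -/
noncomputable def TF (κ e m : ℕ) : VF K κ e m →ₗ[K] K[X][X] where
  toFun v := toB K m κ v.1 + C (X ^ κ) * toB K m κ v.2.1
    + C (X ^ (2 * κ)) * toB K m (e + κ) v.2.2.1
  map_add' v w := by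
    simp only [Prod.fst_add, Prod.snd_add, map_add]
    ring
  map_smul' c v := by
    simp only [Prod.smul_fst, Prod.smul_snd, map_smul, RingHom.id_apply, smul_add,
      mul_smul_comm]

lemma TF_apply (κ e m : ℕ) (v : VF K κ e m) : TF κ e m v =
    toB K m κ v.1 + C (X ^ κ) * toB K m κ v.2.1
      + C (X ^ (2 * κ)) * toB K m (e + κ) v.2.2.1 := rfl

lemma TF_mem (κ e m : ℕ) (v : VF K κ e m) : TF κ e m v ∈ BB K m (3 * κ + e) := by
  rw [TF_apply]
  refine Submodule.add_mem _ (Submodule.add_mem _ ?_ ?_) ?_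
  · exact BB_mono le_rfl (by omega) (toB_mem _ _ _)
  · exact BB_mono le_rfl (by omega) (CX_mul_mem (toB_mem _ _ _))
  · exact BB_mono le_rfl (by omega) (CX_mul_mem (toB_mem _ _ _))

lemma TF_zero {κ e m : ℕ} {v : VF K κ e m} (h : TF κ e m v = 0) :
    v.1 = 0 ∧ v.2.1 = 0 ∧ v.2.2.1 = 0 := by
  rw [TF_apply] at h
  have key : ∀ p z, cc (toB K m κ v.1) p z
      + (if κ ≤ z then cc (toB K m κ v.2.1) p (z - κ) else 0)
      + (if 2 * κ ≤ z then cc (toB K m (e + κ) v.2.2.1) p (z - 2 * κ) else 0) = 0 := by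
    intro p z
    have := congrArg (fun P => cc P p z) h
    simpa only [cc_add, cc_zero, cc_CX_mul] using this
  refine ⟨toB_eq_zero (cc_ext fun p z => ?_), toB_eq_zero (cc_ext fun p z => ?_),
    toB_eq_zero (cc_ext fun p z => ?_)⟩
  · rw [cc_zero]
    by_cases hz : κ ≤ z
    · exact toB_mem _ _ v.1 p z (Or.inr hz)
    · have := key p z
      rwa [if_neg hz, if_neg (by omega), add_zero, add_zero] at this
  · rw [cc_zero]
    by_cases hz : κ ≤ z
    · exact toB_mem _ _ v.2.1 p z (Or.inr hz)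
    · have := key p (z + κ)
      rwa [if_pos (by omega), if_neg (by omega), add_zero,
        toB_mem _ _ v.1 p (z + κ) (Or.inr (by omega)),
        zero_add, Nat.add_sub_cancel] at this
  · rw [cc_zero]
    have := key p (z + 2 * κ)
    rwa [if_pos (by omega), if_pos (by omega), toB_mem _ _ v.1 p (z + 2 * κ) (Or.inr (by omega)),
      toB_mem _ _ v.2.1 p _ (Or.inr (by omega)), zero_add, zero_add, Nat.add_sub_cancel] at this

/-- The perturbed map. -/
noncomputable def GF (h : K[X][X]) (S₁ S₂ : Finset K) (κ e m : ℕ) (ε : K) :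
    VF K κ e m →ₗ[K] K[X][X] where
  toFun v := C (X ^ (3 * κ + e)) * (AA S₁ * toB K m e v.2.2.2.1)
    + AA S₂ * toB K m e v.2.2.2.2 + h * TF κ e m v
    + C (C ε) * (AA S₁ * C (X ^ (e + 2 * κ)) * toB K m κ v.1
      - AA S₂ * toB K m (e + κ) v.2.2.1)
  map_add' v w := by
    rw [map_add]
    simp only [Prod.fst_add, Prod.snd_add, map_add]
    ring
  map_smul' c v := by
    rw [map_smul]
    simp only [Prod.smul_fst, Prod.smul_snd, map_smul, RingHom.id_apply, smul_add,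
      mul_smul_comm, smul_sub, mul_sub]

lemma GF_apply (h : K[X][X]) (S₁ S₂ : Finset K) (κ e m : ℕ) (ε : K) (v : VF K κ e m) :
    GF h S₁ S₂ κ e m ε v = C (X ^ (3 * κ + e)) * (AA S₁ * toB K m e v.2.2.2.1)
    + AA S₂ * toB K m e v.2.2.2.2 + h * TF κ e m v
    + C (C ε) * (AA S₁ * C (X ^ (e + 2 * κ)) * toB K m κ v.1
      - AA S₂ * toB K m (e + κ) v.2.2.1) := rfl

lemma GF_mem {h : K[X][X]} {d e : ℕ} (hh : h ∈ BB K (d + 1) (e + 1)) {S₁ S₂ : Finset K}
    (hS₁ : S₁.card = d) (hS₂ : S₂.card = d) (κ m : ℕ) (v : VF K κ e m) :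
    GF h S₁ S₂ κ e m 0 v ∈ BB K (m + d) (3 * κ + e + e) := by
  rw [GF_apply, C_0, C_0, zero_mul, add_zero]
  have h1 := AA_mem S₁
  have h2 := AA_mem S₂
  rw [hS₁] at h1
  rw [hS₂] at h2
  refine Submodule.add_mem _ (Submodule.add_mem _ ?_ ?_) ?_
  · refine BB_mono le_rfl (by omega)
      (CX_mul_mem (mul_mem_BB (d := d) (e := 0) h1 (toB_mem _ _ _)))
  · exact BB_mono le_rfl (by omega) (mul_mem_BB (d := d) (e := 0) h2 (toB_mem _ _ _))
  · exact mul_mem_BB hh (TF_mem κ e m v)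

lemma finrank_ker_GF {h : K[X][X]} {d e κ m : ℕ}
    {S₁ S₂ : Finset K} (hS₁ : S₁.card = d) (hS₂ : S₂.card = d) (hdisj : Disjoint S₁ S₂)
    (h1 : ∀ σ ∈ S₁, (h.eval (C σ)).coeff e ≠ 0) (h2 : ∀ σ ∈ S₂, (h.eval (C σ)).coeff 0 ≠ 0) :
    Module.finrank K (LinearMap.ker (GF h S₁ S₂ κ e m 0)) ≤
      Module.finrank K (KB h e (m - 2 * d + d) (3 * κ) (m - 2 * d) (3 * κ + e)) := by
  let T : LinearMap.ker (GF h S₁ S₂ κ e m 0) →ₗ[K] K[X][X] :=
    (TF κ e m).comp (LinearMap.ker (GF h S₁ S₂ κ e m 0)).subtype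
  have hker : ∀ v ∈ LinearMap.ker (GF h S₁ S₂ κ e m 0),
      C (X ^ (3 * κ + e)) * (AA S₁ * toB K m e v.2.2.2.1)
      + AA S₂ * toB K m e v.2.2.2.2 + h * TF κ e m v = 0 := by
    intro v hv
    rw [LinearMap.mem_ker, GF_apply, C_0, C_0, zero_mul, add_zero] at hv
    exact hv
  have hT : Function.Injective T := by
    refine (injective_iff_map_eq_zero _).2 (fun v hv => ?_)
    have h3 : TF κ e m v.1 = 0 := hv
    have h4 := hker v.1 v.2
    rw [h3, mul_zero, add_zero] at h4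
    obtain ⟨h5, h6⟩ := M0_inj (L := 3 * κ + e) (by omega) (toB_mem _ _ _) h4
    obtain ⟨h7, h8, h9⟩ := TF_zero h3
    apply Subtype.ext
    exact Prod.ext h7 (Prod.ext h8 (Prod.ext h9 (Prod.ext (toB_eq_zero h5) (toB_eq_zero h6))))
  have hrange : LinearMap.range T ≤
      (KB h e (m - 2 * d + d) (3 * κ) (m - 2 * d) (3 * κ + e)).map
        (LinearMap.mulLeft K (AA S₁ * AA S₂)) := by
    rintro _ ⟨v, rfl⟩
    obtain ⟨Q, hQ1, hQ2, hQ3⟩ := ker_M0 hS₁ hS₂ hdisj h1 h2 (toB_mem _ _ _)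
      (toB_mem _ _ _) (TF_mem κ e m v.1) (hker v.1 v.2)
    refine ⟨Q, ⟨hQ1, ?_⟩, ?_⟩
    · rw [SetLike.mem_coe, LinearMap.mem_ker]
      ext i
      rw [thet_apply]
      exact hQ3 i.1 (e + i.2) (by omega) (by have := i.2.2; omega)
    · rw [LinearMap.mulLeft_apply]
      exact hQ2.symm
  have h3 := LinearMap.finrank_range_of_inj hT
  have h4 := Submodule.finrank_mono hrange
  have h5 := Submodule.finrank_map_le (LinearMap.mulLeft K (AA S₁ * AA S₂))
    (KB h e (m - 2 * d + d) (3 * κ) (m - 2 * d) (3 * κ + e))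
  omega

end Pool.Agent.Helper37
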