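import Mathlib
import Pool.Agent.Helper37.Ftwo

open Polynomial

namespace Pool.Agent.Helper37

variable {K : Type*} [Field K]

theorem star' [IsAlgClosed K] (e a d X : ℕ) (he : 1 ≤ e) (ha : 1 ≤ a) (hd : 1 ≤ d) :
    ∃ h : K[X][X], h ∈ BB K (d + 1) (e + 1) ∧ cc h 0 0 ≠ 0 ∧ cc h d e ≠ 0 ∧
      Module.finrank K (KB h e (X + d) a X (a + e)) ≤ X * (a + e) - (X + d) * a := by
  rcases Nat.eq_zero_or_pos X with hX | hX
  · subst hX
    obtain ⟨h, h1, h2, h3, -⟩ := star (K := K) e a d 1 he ha hd le_rfl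
    refine ⟨h, h1, h2, h3, ?_⟩
    have : KB h e (0 + d) a 0 (a + e) = ⊥ := by
      rw [eq_bot_iff]
      rintro P ⟨hP1, -⟩
      rw [Submodule.mem_bot]
      exact BB_zero_left _ hP1
    rw [this, finrank_bot]
    exact Nat.zero_le _
  · exact star e a d X he ha hd hX

/-- Slices of a bivariate polynomial. -/
noncomputable def slice (h : K[X][X]) (d z : ℕ) : K[X] :=
  ∑ p ∈ Finset.range (d + 1), monomial p (cc h p z)

lemma slice_eval {h : K[X][X]} {d e : ℕ} (hh : h ∈ BB K (d + 1) (e + 1)) (z : ℕ) (σ : K) :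
    (h.eval (C σ)).coeff z = (slice h d z).eval σ := by
  have hdeg : h.natDegree < d + 1 := by
    rw [Nat.lt_succ_iff, natDegree_le_iff_coeff_eq_zero]
    intro N hN
    ext y
    exact hh N y (Or.inl hN)
  rw [eval_eq_sum_range' hdeg, finsetSum_coeff, slice, eval_finsetSum]
  refine Finset.sum_congr rfl (fun p _ => ?_)
  rw [← C_pow, mul_comm, coeff_C_mul, eval_monomial, mul_comm]
  rfl

lemma slice_ne_zero {h : K[X][X]} {d z p : ℕ} (hp : p ≤ d) (h0 : cc h p z ≠ 0) :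
    slice h d z ≠ 0 := by
  intro h1
  have h2 := congrArg (fun f => Polynomial.coeff f p) h1
  simp only [slice, finsetSum_coeff, coeff_zero] at h2
  rw [Finset.sum_eq_single_of_mem p (Finset.mem_range.2 (by omega))] at h2
  · rw [coeff_monomial, if_pos rfl] at h2
    exact h0 h2
  · intro i _ hi
    rw [coeff_monomial, if_neg hi]

lemma exists_avoid {M : Type*} [Infinite M] (B : Finset M) (d : ℕ) :
    ∃ S : Finset M, S.card = d ∧ Disjoint S B := by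
  classical
  obtain ⟨t, ht1, ht2⟩ := Infinite.exists_superset_card_eq B (B.card + d) (by omega)
  refine ⟨t \ B, ?_, Finset.sdiff_disjoint⟩
  rw [Finset.card_sdiff_of_subset ht1, ht2]
  omega

lemma triple_mem {N : Submodule K K[X][X]} {a b c : K[X][X]} (ha : a ∈ N) (hb : b ∈ N)
    (hc : c ∈ N) (i : Fin 3) : (![a, b, c] : Fin 3 → K[X][X]) i ∈ N := by
  match i with
  | 0 => exact ha
  | 1 => exact hb
  | 2 => exact hc

lemma mem_Im3 {f0 f1 f2 g0 g1 g2 P : K[X][X]} {m n : ℕ} (h0 : g0 ∈ BB K m n)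
    (h1 : g1 ∈ BB K m n) (h2 : g2 ∈ BB K m n) (h : f0 * g0 + f1 * g1 + f2 * g2 = P) :
    P ∈ Im ![f0, f1, f2] m n := by
  rw [mem_Im]
  refine ⟨![g0, g1, g2], triple_mem h0 h1 h2, ?_⟩
  rw [← h, Fin.sum_univ_three]
  rfl

lemma GF_range (h : K[X][X]) (S₁ S₂ : Finset K) (κ e m : ℕ) {ε : K} (hε0 : ε ≠ 0) :
    LinearMap.range (GF h S₁ S₂ κ e m ε) ≤
      Im ![h + C (C ε) * (AA S₁ * C (X ^ (e + 2 * κ))), C (X ^ κ) * h,
        C (X ^ (2 * κ)) * h - C (C ε) * AA S₂] m (e + κ) := by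
  rintro _ ⟨v, rfl⟩
  have hεε : (C (C ε) : K[X][X]) * C (C ε⁻¹) = 1 := by
    rw [← C_mul, ← C_mul, mul_inv_cancel₀ hε0, C_1, C_1]
  have hX1 : (C (X ^ (3 * κ + e)) : K[X][X]) = C (X ^ (e + 2 * κ)) * C (X ^ κ) := by
    rw [← C_mul, ← pow_add]
    congr 2
    omega
  have hX2 : (C (X ^ (2 * κ)) : K[X][X]) = C (X ^ κ) * C (X ^ κ) := by
    rw [← C_mul, ← pow_add]
    congr 2
    omega
  refine mem_Im3 (g0 := toB K m κ v.1 + C (C ε⁻¹) * (C (X ^ κ) * toB K m e v.2.2.2.1))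
    (g1 := toB K m κ v.2.1 - C (C ε⁻¹) * toB K m e v.2.2.2.1
        + C (C ε⁻¹) * (C (X ^ κ) * toB K m e v.2.2.2.2))
    (g2 := toB K m (e + κ) v.2.2.1 - C (C ε⁻¹) * toB K m e v.2.2.2.2) ?_ ?_ ?_ ?_
  · exact Submodule.add_mem _ (BB_mono le_rfl (by omega) (toB_mem _ _ _))
      (CC_mul_mem _ (BB_mono le_rfl (by omega) (CX_mul_mem (toB_mem _ _ _))))
  · exact Submodule.add_mem _ (Submodule.sub_mem _ (BB_mono le_rfl (by omega) (toB_mem _ _ _))
      (CC_mul_mem _ (BB_mono le_rfl (by omega) (toB_mem _ _ _))))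
      (CC_mul_mem _ (BB_mono le_rfl (by omega) (CX_mul_mem (toB_mem _ _ _))))
  · exact Submodule.sub_mem _ (BB_mono le_rfl (by omega) (toB_mem _ _ _))
      (CC_mul_mem _ (BB_mono le_rfl (by omega) (toB_mem _ _ _)))
  · rw [GF_apply, TF_apply, hX1, hX2]
    linear_combination (AA S₁ * C (X ^ (e + 2 * κ)) * C (X ^ κ) * toB K m e v.2.2.2.1
      + AA S₂ * toB K m e v.2.2.2.2) * hεε

/-- The main rank estimate over an algebraically closed field. -/
theorem Ftwo [IsAlgClosed K] (κ e d m : ℕ) (hκ : 1 ≤ κ) (he : 1 ≤ e) (hd : 1 ≤ d) :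
    ∃ f : Fin 3 → K[X][X], (∀ i, f i ∈ BB K (d + 1) (e + 2 * κ + 1)) ∧
      min (3 * m * (e + κ)) ((m + d) * (2 * e + 3 * κ)) ≤
        Module.finrank K (Im f m (e + κ)) := by
  classical
  have : Infinite K := IsAlgClosed.instInfinite
  obtain ⟨h, hh, hc0, hce, hKB⟩ := star' (K := K) e (3 * κ) d (m - 2 * d) he (by omega) hd
  obtain ⟨S₁, hS₁, hS₁'⟩ := exists_avoid (slice h d e).roots.toFinset d
  obtain ⟨S₂, hS₂, hS₂'⟩ := exists_avoid (S₁ ∪ (slice h d 0).roots.toFinset) d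
  rw [Finset.disjoint_union_right] at hS₂'
  have h1 : ∀ σ ∈ S₁, (h.eval (C σ)).coeff e ≠ 0 := by
    intro σ hσ h2
    rw [slice_eval hh] at h2
    refine Finset.disjoint_left.1 hS₁' hσ ?_
    rw [Multiset.mem_toFinset, mem_roots (slice_ne_zero le_rfl hce)]
    exact h2
  have h2 : ∀ σ ∈ S₂, (h.eval (C σ)).coeff 0 ≠ 0 := by
    intro σ hσ h2
    rw [slice_eval hh] at h2
    refine Finset.disjoint_left.1 hS₂'.2 hσ ?_
    rw [Multiset.mem_toFinset, mem_roots (slice_ne_zero (Nat.zero_le _) hc0)]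
    exact h2
  have hker := finrank_ker_GF (κ := κ) (m := m) hS₁ hS₂ hS₂'.1.symm h1 h2
  let F : K → VF K κ e m →ₗ[K] (Fin (m + d) × Fin (3 * κ + e + e) → K) := fun ε =>
    (coB K (m + d) (3 * κ + e + e)).comp (GF h S₁ S₂ κ e m ε)
  have hF1 : ∀ v i, ∃ p : K[X], ∀ ε, F ε v i = p.eval ε := by
    intro v i
    refine ⟨C (cc (C (X ^ (3 * κ + e)) * (AA S₁ * toB K m e v.2.2.2.1)
      + AA S₂ * toB K m e v.2.2.2.2 + h * TF κ e m v) i.1 i.2)
      + X * C (cc (AA S₁ * C (X ^ (e + 2 * κ)) * toB K m κ v.1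
      - AA S₂ * toB K m (e + κ) v.2.2.1) i.1 i.2), fun ε => ?_⟩
    have e1 : F ε v i = cc (GF h S₁ S₂ κ e m ε v) i.1 i.2 := rfl
    rw [e1, GF_apply, cc_add, eval_add, eval_C, eval_mul, eval_X, eval_C]
    congr 1
    unfold cc
    rw [coeff_C_mul, coeff_C_mul]
  have hF2 : LinearMap.ker (F 0) ≤ LinearMap.ker (GF h S₁ S₂ κ e m 0) := by
    intro v hv
    exact coB_inj (GF_mem hh hS₁ hS₂ κ m v) hv
  obtain ⟨s, hs⟩ := rank_open F hF1 0
  obtain ⟨ε, hε⟩ := Infinite.exists_notMem_finset (insert 0 s)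
  rw [Finset.mem_insert, not_or] at hε
  obtain ⟨hε0, hεs⟩ := hε
  have h3 := hs ε hεs
  rw [finrank_VF] at h3
  have h4 := Submodule.finrank_mono hF2
  have hAA1 := AA_mem S₁
  have hAA2 := AA_mem S₂
  rw [hS₁] at hAA1
  rw [hS₂] at hAA2
  have hrange := GF_range h S₁ S₂ κ e m hε0
  have hm1 : AA S₁ * C (X ^ (e + 2 * κ)) ∈ BB K (d + 1) (e + 2 * κ + 1) := by
    have h5 : C (X ^ (e + 2 * κ)) * AA S₁ ∈ BB K (d + 1) (1 + (e + 2 * κ)) := CX_mul_mem hAA1
    rw [mul_comm (AA S₁), add_comm (e + 2 * κ)]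
    exact h5
  have hm2 : C (X ^ κ) * h ∈ BB K (d + 1) (e + 1 + κ) := CX_mul_mem hh
  have hm3 : C (X ^ (2 * κ)) * h ∈ BB K (d + 1) (e + 1 + 2 * κ) := CX_mul_mem hh
  have hm4 : C (C ε) * AA S₂ ∈ BB K (d + 1) 1 := CC_mul_mem ε hAA2
  have hm5 : C (C ε) * (AA S₁ * C (X ^ (e + 2 * κ))) ∈ BB K (d + 1) (e + 2 * κ + 1) :=
    CC_mul_mem ε hm1
  refine ⟨![h + C (C ε) * (AA S₁ * C (X ^ (e + 2 * κ))), C (X ^ κ) * h,
        C (X ^ (2 * κ)) * h - C (C ε) * AA S₂], triple_mem ?_ ?_ ?_, ?_⟩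
  · exact Submodule.add_mem _ (BB_mono le_rfl (by omega) hh) hm5
  · exact BB_mono le_rfl (by omega) hm2
  · exact Submodule.sub_mem _ (BB_mono le_rfl (by omega) hm3) (BB_mono le_rfl (by omega) hm4)
  have h5 := Submodule.finrank_mono hrange
  have h6 : Module.finrank K (LinearMap.range (F ε)) ≤
      Module.finrank K (LinearMap.range (GF h S₁ S₂ κ e m ε)) := by
    have : LinearMap.range (F ε) = (LinearMap.range (GF h S₁ S₂ κ e m ε)).map
      (coB K (m + d) (3 * κ + e + e)) := LinearMap.range_comp _ _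
    rw [this]
    exact Submodule.finrank_map_le _ _
  set N := Module.finrank K (Im ![h + C (C ε) * (AA S₁ * C (X ^ (e + 2 * κ))), C (X ^ κ) * h,
        C (X ^ (2 * κ)) * h - C (C ε) * AA S₂] m (e + κ)) with hN
  have h7 : 3 * m * (e + κ) ≤ N + ((m - 2 * d) * (3 * κ + e) - (m - 2 * d + d) * (3 * κ)) := by
    omega
  rcases le_total m (2 * d) with h8 | h8
  · rw [Nat.sub_eq_zero_of_le h8, zero_mul, Nat.zero_sub, add_zero] at h7
    exact (min_le_left _ _).trans h7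
  · obtain ⟨Y, rfl⟩ := Nat.exists_eq_add_of_le h8
    rw [Nat.add_sub_cancel_left] at h7
    rcases le_total (Y * (3 * κ + e)) ((Y + d) * (3 * κ)) with h9 | h9
    · rw [Nat.sub_eq_zero_of_le h9, add_zero] at h7
      exact (min_le_left _ _).trans h7
    · obtain ⟨Z, hZ⟩ := Nat.exists_eq_add_of_le h9
      rw [hZ, Nat.add_sub_cancel_left] at h7
      refine (min_le_right _ _).trans ?_
      have h10 : (2 * d + Y + d) * (2 * e + 3 * κ) + Z = 3 * (2 * d + Y) * (e + κ) := by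
        nlinarith
      omega

end Pool.Agent.Helper37
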