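import Mathlib
import Pool.Agent.Helper37.Fmain

open Polynomial

namespace Pool.Agent.Helper37

variable {K : Type*} [Field K]

lemma cc_swap (P : K[X][X]) (p z : ℕ) : cc (Bivariate.swap P) p z = cc P z p := by
  induction P using Polynomial.induction_on' with
  | add P Q hP hQ => rw [map_add, cc_add, cc_add, hP, hQ]
  | monomial n a =>
    induction a using Polynomial.induction_on' with
    | add a b ha hb => rw [map_add, map_add, cc_add, cc_add, ha, hb]
    | monomial k r =>
      rw [Bivariate.swap_monomial_monomial]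
      unfold cc
      rw [coeff_monomial, coeff_monomial]
      split_ifs with h1 h2
      · rw [coeff_monomial, coeff_monomial, if_pos h1, if_pos h2]
      · rw [coeff_monomial, if_neg h2, coeff_zero]
      · rw [coeff_monomial, if_neg h1, coeff_zero]
      · rw [coeff_zero, coeff_zero]

lemma swap_mem {m n : ℕ} {P : K[X][X]} (h : P ∈ BB K m n) : Bivariate.swap P ∈ BB K n m := by
  intro p z hpz
  rw [cc_swap]
  exact h z p hpz.symm

/-- The swapped triple. -/
noncomputable def swf (f : Fin 3 → K[X][X]) (i : Fin 3) : K[X][X] := Bivariate.swap (f i)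

lemma swf_swf (f : Fin 3 → K[X][X]) : swf (swf f) = f := by
  funext i
  exact Bivariate.swap_swap_apply (f i)

/-- The swap as a linear equivalence. -/
noncomputable def swL (K : Type*) [Field K] : K[X][X] ≃ₗ[K] K[X][X] :=
  (Bivariate.swap (R := K)).toLinearEquiv

lemma swL_apply (P : K[X][X]) : swL K P = Bivariate.swap P := rfl

lemma Im_swap_le (f : Fin 3 → K[X][X]) (m n : ℕ) :
    (Im f m n).map (swL K : K[X][X] →ₗ[K] K[X][X]) ≤ Im (swf f) n m := by
  rintro _ ⟨P, hP, rfl⟩
  rw [SetLike.mem_coe, mem_Im] at hP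
  obtain ⟨g, hg, rfl⟩ := hP
  rw [mem_Im]
  refine ⟨fun i => Bivariate.swap (g i), fun i => swap_mem (hg i), ?_⟩
  rw [LinearEquiv.coe_coe, map_sum]
  refine Finset.sum_congr rfl (fun i _ => ?_)
  rw [swL_apply, map_mul]
  rfl

lemma finrank_Im_swap_le (f : Fin 3 → K[X][X]) (m n : ℕ) :
    Module.finrank K (Im f m n) ≤ Module.finrank K (Im (swf f) n m) := by
  have h1 := Submodule.finrank_mono (Im_swap_le f m n)
  rwa [LinearEquiv.finrank_map_eq] at h1

lemma finrank_Im_swap (f : Fin 3 → K[X][X]) (m n : ℕ) :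
    Module.finrank K (Im (swf f) n m) = Module.finrank K (Im f m n) := by
  refine le_antisymm ?_ (finrank_Im_swap_le f m n)
  have h := finrank_Im_swap_le (swf f) n m
  rwa [swf_swf] at h

lemma finrank_Im_le (f : Fin 3 → K[X][X]) (m n : ℕ) :
    Module.finrank K (Im f m n) ≤ 3 * (m * n) := by
  have h := LinearMap.finrank_range_le (muB f m n)
  have h2 : Module.finrank K (Fin 3 → Fin m × Fin n → K) = 3 * (m * n) := by
    rw [Module.finrank_pi_fintype]
    simp
  rw [h2] at h
  exact h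

lemma Im_le_BB {f : Fin 3 → K[X][X]} {d₁ d₂ : ℕ} (hf : ∀ i, f i ∈ BB K (d₁ + 1) (d₂ + 1))
    (m n : ℕ) : Im f m n ≤ BB K (m + d₁) (n + d₂) := by
  intro P hP
  rw [mem_Im] at hP
  obtain ⟨g, hg, rfl⟩ := hP
  exact Submodule.sum_mem _ (fun i _ => mul_mem_BB (hf i) (hg i))

lemma finrank_Im_le' {f : Fin 3 → K[X][X]} {d₁ d₂ : ℕ} (hf : ∀ i, f i ∈ BB K (d₁ + 1) (d₂ + 1))
    (m n : ℕ) : Module.finrank K (Im f m n) ≤ (m + d₁) * (n + d₂) := by
  have h := Submodule.finrank_mono (Im_le_BB hf m n)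
  rwa [finrank_BB] at h

lemma Im_eq_BB {f : Fin 3 → K[X][X]} {d₁ d₂ : ℕ} (hf : ∀ i, f i ∈ BB K (d₁ + 1) (d₂ + 1))
    {m n : ℕ} (h : (m + d₁) * (n + d₂) ≤ Module.finrank K (Im f m n)) :
    Im f m n = BB K (m + d₁) (n + d₂) := by
  refine Submodule.eq_of_le_of_finrank_le (Im_le_BB hf m n) ?_
  rw [finrank_BB]
  exact h

lemma Im_mono {f : Fin 3 → K[X][X]} {m n m' n' : ℕ} (h1 : m ≤ m') (h2 : n ≤ n') :
    Im f m n ≤ Im f m' n' := by
  intro P hP
  rw [mem_Im] at hP ⊢
  obtain ⟨g, hg, rfl⟩ := hP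
  exact ⟨g, fun i => BB_mono h1 h2 (hg i), rfl⟩

/-- Surjectivity propagates. -/
lemma surj_up {f : Fin 3 → K[X][X]} {d₁ d₂ : ℕ} (hd : 1 ≤ d₁)
    (hf : ∀ i, f i ∈ BB K (d₁ + 1) (d₂ + 1))
    {m n : ℕ} (h : (m + d₁) * (n + d₂) ≤ Module.finrank K (Im f m n)) {m' : ℕ} (hm : m ≤ m') :
    (m' + d₁) * (n + d₂) ≤ Module.finrank K (Im f m' n) := by
  induction m', hm using Nat.le_induction with
  | base => exact h
  | succ m' _ ih =>
    have h1 := Im_eq_BB hf ih
    have h2 : BB K (m' + 1 + d₁) (n + d₂) ≤ Im f (m' + 1) n := by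
      intro P hP
      have hdec := divX_mul_X_add P
      have h3 : P.divX ∈ BB K (m' + d₁) (n + d₂) := by
        intro p z hpz
        unfold cc
        rw [coeff_divX]
        exact hP (p + 1) z (hpz.imp (by omega) id)
      have h4 : (C (P.coeff 0) : K[X][X]) ∈ BB K (m' + d₁) (n + d₂) := by
        intro p z hpz
        unfold cc
        rw [coeff_C]
        split_ifs with h0
        · exact hP 0 z (Or.inr (by omega))
        · exact coeff_zero z
      rw [← h1] at h3 h4
      rw [← hdec]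
      refine Submodule.add_mem _ ?_ (Im_mono (Nat.le_succ _) le_rfl h4)
      rw [mem_Im] at h3 ⊢
      obtain ⟨g, hg, h5⟩ := h3
      refine ⟨fun i => X * g i, fun i => ?_, ?_⟩
      · refine mul_mem_BB (d := 1) (e := 0) ?_ (hg i)
        intro p z hpz
        unfold cc
        rw [coeff_X]
        split_ifs with h6
        · rw [coeff_one, if_neg (by omega)]
        · exact coeff_zero z
      · rw [← h5, Finset.sum_mul]
        refine Finset.sum_congr rfl (fun i _ => ?_)
        ring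
    have h3 := Submodule.finrank_mono h2
    rwa [finrank_BB] at h3

end Pool.Agent.Helper37
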