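import Mathlib
import Pool.Agent.Helper37.Swp

open Polynomial

namespace Pool.Agent.Helper37

variable {K : Type*} [Field K]

/-- Block multiplication matrices. -/
noncomputable def BM {a b : ℕ} (G : Fin a → Fin b → K[X][X]) (M N m n : ℕ) :
    Matrix (Fin a × Fin M × Fin N) (Fin b × Fin m × Fin n) K :=
  fun r s => ent (G r.1 s.1) r.2.1 r.2.2 s.2.1 s.2.2

lemma BM_mulVec {a b : ℕ} (G : Fin a → Fin b → K[X][X]) (M N m n : ℕ)
    (v : Fin b × Fin m × Fin n → K) (r : Fin a × Fin M × Fin N) :
    (BM G M N m n).mulVec v r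
      = cc (∑ j, G r.1 j * toB K m n (fun w => v (j, w))) r.2.1 r.2.2 := by
  rw [cc_sum, Matrix.mulVec, dotProduct, Fintype.sum_prod_type]
  refine Finset.sum_congr rfl (fun j _ => ?_)
  rw [cc_mul_of_mem (toB_mem _ _ _)]
  refine Finset.sum_congr rfl (fun w _ => ?_)
  rw [cc_toB]
  rfl

lemma rank_BM_one {f : Fin 3 → K[X][X]} {M N m n : ℕ} (h : Im f m n ≤ BB K M N) :
    (BM (fun _ : Fin 1 => f) M N m n).rank = Module.finrank K (Im f m n) := by
  have e1 := LinearMap.finrank_range_add_finrank_ker (BM (fun _ : Fin 1 => f) M N m n).mulVecLin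
  have e2 := LinearMap.finrank_range_add_finrank_ker (muB f m n)
  have e3 : Module.finrank K (LinearMap.ker (muB f m n))
      = Module.finrank K (LinearMap.ker (BM (fun _ : Fin 1 => f) M N m n).mulVecLin) := by
    have h1 : LinearMap.ker (BM (fun _ : Fin 1 => f) M N m n).mulVecLin
        = (LinearMap.ker (muB f m n)).comap
          (LinearEquiv.curry K K (Fin 3) (Fin m × Fin n) : _ →ₗ[K] _) := by
      ext v
      rw [LinearMap.mem_ker, Submodule.mem_comap, LinearMap.mem_ker, muB_apply,
        Matrix.mulVecLin_apply]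
      constructor
      · intro h0
        refine coB_inj (m := M) (n := N) (h ⟨_, rfl⟩) ?_
        ext i
        have := congrFun h0 (0, i)
        rw [BM_mulVec] at this
        exact this
      · intro h0
        ext r
        rw [BM_mulVec, Pi.zero_apply]
        have h2 : (∑ j, f j * toB K m n (fun w => v (j, w))) = 0 := h0
        rw [h2, cc_zero]
    rw [h1]
    exact (LinearEquiv.finrank_eq ((LinearEquiv.curry K K (Fin 3) (Fin m × Fin n)).ofSubmodule'
      (LinearMap.ker (muB f m n)))).symm
  have e4 : Module.finrank K (Fin 3 → Fin m × Fin n → K)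
      = Module.finrank K (Fin 3 × Fin m × Fin n → K) :=
    ((LinearEquiv.curry K K (Fin 3) (Fin m × Fin n)).finrank_eq).symm
  rw [Matrix.rank, Im]
  omega

end Pool.Agent.Helper37
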