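import Mathlib

open Polynomial

namespace Pool.Agent.Helper37

lemma exists_li {K V ι : Type*} [Field K] [AddCommGroup V] [Module K V] [Finite ι]
    (v : ι → V) {r : ℕ} (hr : r ≤ Module.finrank K (Submodule.span K (Set.range v))) :
    ∃ g : Fin r → ι, LinearIndependent K (v ∘ g) := by
  classical
  obtain ⟨κ, a, ha, hsp, hli⟩ := exists_linearIndependent' K v
  have : Finite κ := Finite.of_injective a ha
  have : Fintype κ := Fintype.ofFinite κ
  have h1 : Module.finrank K (Submodule.span K (Set.range v)) = Fintype.card κ := by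
    rw [← hsp, finrank_span_eq_card hli]
  rw [h1] at hr
  let e : Fin r → κ := fun i => (Fintype.equivFin κ).symm (Fin.castLE hr i)
  have he : Function.Injective e := fun i j hij => by
    have := (Fintype.equivFin κ).symm.injective hij
    exact Fin.castLE_injective hr this
  exact ⟨a ∘ e, hli.comp e he⟩

lemma exists_minor {K α β : Type*} [Field K] [Fintype α] [Fintype β]
    (A : Matrix α β K) {r : ℕ} (hr : r ≤ A.rank) :
    ∃ (f : Fin r → α) (g : Fin r → β), (A.submatrix f g).det ≠ 0 := by
  classical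
  rw [Matrix.rank_eq_finrank_span_cols] at hr
  obtain ⟨g, hg⟩ := exists_li A.col hr
  have h1 : (A.submatrix id g).rank = r := by
    have h2 := LinearIndependent.rank_matrix (M := (A.submatrix id g).transpose) hg
    rw [Matrix.rank_transpose, Fintype.card_fin] at h2
    exact h2
  have h3 := h1.ge
  rw [Matrix.rank_eq_finrank_span_row] at h3
  obtain ⟨f, hf⟩ := exists_li (A.submatrix id g).row h3
  refine ⟨f, g, ?_⟩
  have h4 : IsUnit (A.submatrix f g) := by
    rw [← Matrix.linearIndependent_rows_iff_isUnit]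
    exact hf
  rw [Matrix.isUnit_iff_isUnit_det] at h4
  exact h4.ne_zero

lemma rank_of_minor {K α β : Type*} [Field K] [Fintype α] [Fintype β]
    (A : Matrix α β K) {r : ℕ} {f : Fin r → α} {g : Fin r → β}
    (h : (A.submatrix f g).det ≠ 0) : r ≤ A.rank := by
  classical
  have h1 : (A.submatrix f g).rank = r := by
    rw [Matrix.rank_of_isUnit _ ((Matrix.isUnit_iff_isUnit_det _).2 h.isUnit), Fintype.card_fin]
  rw [← h1]
  exact Matrix.rank_submatrix_le A f g

/-- A condition on points of affine space that holds off the zero set of a nonzero polynomial. -/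
def IsBig {K σ : Type*} [Field K] (P : (σ → K) → Prop) : Prop :=
  ∃ p : MvPolynomial σ K, p ≠ 0 ∧ ∀ c : σ → K, MvPolynomial.aeval c p ≠ 0 → P c

lemma IsBig.mono {K σ : Type*} [Field K] {P Q : (σ → K) → Prop} (h : IsBig P)
    (hPQ : ∀ c, P c → Q c) : IsBig Q := by
  obtain ⟨p, hp, h1⟩ := h
  exact ⟨p, hp, fun c hc => hPQ c (h1 c hc)⟩

lemma IsBig.and {K σ : Type*} [Field K] {P Q : (σ → K) → Prop} (h : IsBig P) (h' : IsBig Q) :
    IsBig (fun c => P c ∧ Q c) := by
  obtain ⟨p, hp, h1⟩ := h
  obtain ⟨q, hq, h2⟩ := h'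
  refine ⟨p * q, mul_ne_zero hp hq, fun c hc => ?_⟩
  rw [map_mul] at hc
  exact ⟨h1 c (left_ne_zero_of_mul hc), h2 c (right_ne_zero_of_mul hc)⟩

lemma IsBig.of_forall {K σ : Type*} [Field K] {P : (σ → K) → Prop} (h : ∀ c, P c) :
    IsBig P :=
  ⟨1, one_ne_zero, fun c _ => h c⟩

lemma IsBig.all {K σ ι : Type*} [Field K] (s : Finset ι) {P : ι → (σ → K) → Prop}
    (h : ∀ i ∈ s, IsBig (P i)) : IsBig (fun c => ∀ i ∈ s, P i c) := by
  classical
  induction s using Finset.induction_on with
  | empty => exact IsBig.of_forall (fun c i hi => absurd hi (Finset.notMem_empty i))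
  | insert i s hi ih =>
    refine ((h i (Finset.mem_insert_self _ _)).and
      (ih (fun j hj => h j (Finset.mem_insert_of_mem hj)))).mono (fun c hc j hj => ?_)
    rcases Finset.mem_insert.1 hj with rfl | hj'
    · exact hc.1
    · exact hc.2 j hj'

lemma IsBig.reindex {K σ τ : Type*} [Field K] {P : (σ → K) → Prop} (h : IsBig P) (e : σ ≃ τ) :
    IsBig (fun c : τ → K => P (c ∘ e)) := by
  obtain ⟨p, hp, h1⟩ := h
  refine ⟨MvPolynomial.rename e p, ?_, fun c hc => ?_⟩
  · intro h0
    apply hp
    apply MvPolynomial.rename_injective e e.injective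
    rw [h0, map_zero]
  · apply h1
    rwa [MvPolynomial.aeval_rename] at hc

lemma det_minor_aeval {K F σ α β : Type*} [Field K] [Field F] [Algebra K F]
    (N : Matrix α β (MvPolynomial σ K)) {r : ℕ} (f : Fin r → α) (g : Fin r → β) (c : σ → F) :
    ((N.map (MvPolynomial.aeval c)).submatrix f g).det
        = MvPolynomial.aeval c (N.submatrix f g).det := by
  rw [← AlgHom.coe_toRingHom, RingHom.map_det]
  rfl

/-- A rank condition that holds at one point over an extension field is generic. -/
theorem big_of_rank {K Ω σ α β : Type*} [Field K] [Field Ω] [Algebra K Ω] [Fintype α] [Fintype β]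
    (N : Matrix α β (MvPolynomial σ K)) (c₀ : σ → Ω) {r : ℕ}
    (h : r ≤ (N.map (MvPolynomial.aeval c₀)).rank) :
    IsBig (fun c : σ → K => r ≤ (N.map (MvPolynomial.aeval c)).rank) := by
  classical
  obtain ⟨f, g, hfg⟩ := exists_minor _ h
  refine ⟨(N.submatrix f g).det, ?_, fun c hc => ?_⟩
  · intro h0
    rw [det_minor_aeval, h0, map_zero] at hfg
    exact hfg rfl
  · apply rank_of_minor (f := f) (g := g)
    rw [det_minor_aeval]
    exact hc

end Pool.Agent.Helper37
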