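import Mathlib
import Pool.Agent.Helper37.BMat
import Pool.Agent.Helper37.Minor

open Polynomial

namespace Pool.Agent.Helper37

section generic

variable {K F σ : Type*} [Field K] [Field F] [Algebra K F]

/-- Generic block matrices. -/
noncomputable def GM {a b : ℕ} (E : Fin a → Fin b → ℕ → ℕ → MvPolynomial σ K) (M N m n : ℕ) :
    Matrix (Fin a × Fin M × Fin N) (Fin b × Fin m × Fin n) (MvPolynomial σ K) :=
  fun r s => if (s.2.1 : ℕ) ≤ r.2.1 ∧ (s.2.2 : ℕ) ≤ r.2.2 then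
    E r.1 s.1 (r.2.1 - s.2.1) (r.2.2 - s.2.2) else 0

lemma GM_map {a b : ℕ} (E : Fin a → Fin b → ℕ → ℕ → MvPolynomial σ K) (M N m n : ℕ)
    (c : σ → F) (G : Fin a → Fin b → F[X][X])
    (hG : ∀ i j p z, cc (G i j) p z = MvPolynomial.aeval c (E i j p z)) :
    (GM E M N m n).map (MvPolynomial.aeval c) = BM G M N m n := by
  ext r s
  rw [Matrix.map_apply]
  unfold GM BM ent
  rw [hG]
  split_ifs
  · rfl
  · exact map_zero _

theorem big_BM {a b : ℕ} (E : Fin a → Fin b → ℕ → ℕ → MvPolynomial σ K) (M N m n : ℕ)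
    (c₀ : σ → F) (G₀ : Fin a → Fin b → F[X][X])
    (hG₀ : ∀ i j p z, cc (G₀ i j) p z = MvPolynomial.aeval c₀ (E i j p z)) {r : ℕ}
    (hr : r ≤ (BM G₀ M N m n).rank) (G : (σ → K) → Fin a → Fin b → K[X][X])
    (hG : ∀ c i j p z, cc (G c i j) p z = MvPolynomial.aeval c (E i j p z)) :
    IsBig (fun c : σ → K => r ≤ (BM (G c) M N m n).rank) := by
  rw [← GM_map E M N m n c₀ G₀ hG₀] at hr
  refine (big_of_rank _ _ hr).mono (fun c hc => ?_)
  rw [← GM_map E M N m n c (G c) (hG c)]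
  exact hc

end generic

/-- Indices of the coefficients of a triple of bidegree `(d₁, d₂)`. -/
abbrev Par (d₁ d₂ : ℕ) : Type := Fin 3 × Fin (d₁ + 1) × Fin (d₂ + 1)

section families

variable {F : Type*} [Field F] {d₁ d₂ : ℕ}

/-- The triple with given coefficients. -/
noncomputable def fc (c : Par d₁ d₂ → F) (i : Fin 3) : F[X][X] :=
  toB F (d₁ + 1) (d₂ + 1) (fun w => c (i, w))

lemma fc_mem (c : Par d₁ d₂ → F) (i : Fin 3) : fc c i ∈ BB F (d₁ + 1) (d₂ + 1) := toB_mem _ _ _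

/-- The coefficients of a triple. -/
noncomputable def pt (d₁ d₂ : ℕ) (f : Fin 3 → F[X][X]) : Par d₁ d₂ → F :=
  fun j => cc (f j.1) j.2.1 j.2.2

lemma fc_pt {f : Fin 3 → F[X][X]} (hf : ∀ i, f i ∈ BB F (d₁ + 1) (d₂ + 1)) :
    fc (pt d₁ d₂ f) = f := by
  funext i
  exact toB_coB (hf i)

/-- Generic coefficients. -/
noncomputable def gc (K : Type*) [Field K] (d₁ d₂ : ℕ) (i : Fin 3) (p z : ℕ) :
    MvPolynomial (Par d₁ d₂) K :=
  if h : p < d₁ + 1 ∧ z < d₂ + 1 then MvPolynomial.X (i, ⟨p, h.1⟩, ⟨z, h.2⟩) else 0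

lemma cc_fc {K : Type*} [Field K] [Algebra K F] (c : Par d₁ d₂ → F) (i : Fin 3) (p z : ℕ) :
    cc (fc c i) p z = MvPolynomial.aeval c (gc K d₁ d₂ i p z) := by
  unfold gc
  split_ifs with h
  · rw [MvPolynomial.aeval_X]
    exact cc_toB _ _ _ (⟨p, h.1⟩, ⟨z, h.2⟩)
  · rw [map_zero]
    exact fc_mem c i p z (by omega)

/-- The top coefficients with respect to the outer variable. -/
noncomputable def topf (f : Fin 3 → F[X][X]) (d : ℕ) (i : Fin 3) : F[X][X] :=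
  C ((f i).coeff d)

lemma cc_topf (f : Fin 3 → F[X][X]) (d : ℕ) (i : Fin 3) (p z : ℕ) :
    cc (topf f d i) p z = if p = 0 then cc (f i) d z else 0 := by
  unfold topf cc
  rw [coeff_C]
  split_ifs
  · rfl
  · exact coeff_zero z

lemma topf_mem {f : Fin 3 → F[X][X]} (hf : ∀ i, f i ∈ BB F (d₁ + 1) (d₂ + 1)) (i : Fin 3) :
    topf f d₁ i ∈ BB F (0 + 1) (d₂ + 1) := by
  intro p z h
  rw [cc_topf]
  split_ifs with h0
  · exact hf i d₁ z (Or.inr (by omega))
  · rfl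

/-- The Koszul matrix. -/
noncomputable def KG (f : Fin 3 → F[X][X]) (i j : Fin 3) : F[X][X] :=
  if j = i + 1 then f (i + 2) else if j = i + 2 then - f (i + 1) else 0

lemma KG_mem {f : Fin 3 → F[X][X]} (hf : ∀ i, f i ∈ BB F (d₁ + 1) (d₂ + 1)) (i j : Fin 3) :
    KG f i j ∈ BB F (d₁ + 1) (d₂ + 1) := by
  unfold KG
  split_ifs
  · exact hf _
  · exact Submodule.neg_mem _ (hf _)
  · exact Submodule.zero_mem _

lemma KG_sum (f : Fin 3 → F[X][X]) (l : Fin 3) : ∑ j, f j * KG f j l = 0 := by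
  rw [Fin.sum_univ_three]
  fin_cases l
  · simp [KG]; ring
  · simp [KG]; ring
  · simp [KG]; ring

end families

section bigfam

variable {K L : Type*} [Field K] [Field L] [Algebra K L] {d₁ d₂ : ℕ}

theorem big_Im (f : Fin 3 → L[X][X]) (hf : ∀ i, f i ∈ BB L (d₁ + 1) (d₂ + 1)) (m n : ℕ) {r : ℕ}
    (hr : r ≤ Module.finrank L (Im f m n)) :
    IsBig (fun c : Par d₁ d₂ → K => r ≤ Module.finrank K (Im (fc c) m n)) := by
  rw [← rank_BM_one (Im_le_BB hf m n)] at hr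
  refine (big_BM (K := K) (fun (_ : Fin 1) j => gc K d₁ d₂ j) (m + d₁) (n + d₂) m n
    (pt d₁ d₂ f) (fun (_ : Fin 1) => f) (fun _ j p z => ?_) hr (fun c _ => fc c)
    (fun c _ j p z => cc_fc c j p z)).mono (fun c hc => ?_)
  · rw [← cc_fc, fc_pt hf]
  · rwa [rank_BM_one (Im_le_BB (fc_mem c) m n)] at hc

theorem big_top (f : Fin 3 → L[X][X]) (hf : ∀ i, f i ∈ BB L (d₁ + 1) (d₂ + 1)) (n : ℕ) {r : ℕ}
    (hr : r ≤ Module.finrank L (Im (topf f d₁) 1 n)) :
    IsBig (fun c : Par d₁ d₂ → K => r ≤ Module.finrank K (Im (topf (fc c) d₁) 1 n)) := by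
  rw [← rank_BM_one (Im_le_BB (topf_mem hf) 1 n)] at hr
  refine (big_BM (K := K) (fun (_ : Fin 1) j p z => if p = 0 then gc K d₁ d₂ j d₁ z else 0)
    (1 + 0) (n + d₂) 1 n
    (pt d₁ d₂ f) (fun (_ : Fin 1) => topf f d₁) (fun _ j p z => ?_) hr
    (fun c _ => topf (fc c) d₁)
    (fun c _ j p z => ?_)).mono (fun c hc => ?_)
  · rw [cc_topf]
    split_ifs
    · rw [← cc_fc, fc_pt hf]
    · exact (map_zero _).symm
  · rw [cc_topf]
    split_ifs
    · rw [← cc_fc]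
    · exact (map_zero _).symm
  · rwa [rank_BM_one (Im_le_BB (topf_mem (fc_mem c)) 1 n)] at hc

theorem big_kos (f : Fin 3 → L[X][X]) (hf : ∀ i, f i ∈ BB L (d₁ + 1) (d₂ + 1)) (M N m n : ℕ)
    {r : ℕ} (hr : r ≤ (BM (KG f) M N m n).rank) :
    IsBig (fun c : Par d₁ d₂ → K => r ≤ (BM (KG (fc c)) M N m n).rank) := by
  have key : ∀ {F : Type _} [Field F] [Algebra K F] (c : Par d₁ d₂ → F) (i j : Fin 3) (p z : ℕ),
      cc (KG (fc c) i j) p z = MvPolynomial.aeval c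
        (if j = i + 1 then gc K d₁ d₂ (i + 2) p z else
          if j = i + 2 then - gc K d₁ d₂ (i + 1) p z else 0) := by
    intro F _ _ c i j p z
    unfold KG
    split_ifs
    · exact cc_fc _ _ _ _
    · rw [cc_neg, map_neg, cc_fc (K := K)]
    · rw [cc_zero, map_zero]
  refine big_BM (K := K) (fun i j p z => if j = i + 1 then gc K d₁ d₂ (i + 2) p z else
          if j = i + 2 then - gc K d₁ d₂ (i + 1) p z else 0) M N m n
    (pt d₁ d₂ f) (KG f) (fun i j p z => ?_) hr (fun c => KG (fc c)) (fun c i j p z => ?_)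
  · rw [← key, fc_pt hf]
  · unfold KG
    split_ifs
    · exact cc_fc _ _ _ _
    · rw [cc_neg, map_neg, cc_fc (K := K)]
    · rw [cc_zero, map_zero]

end bigfam

end Pool.Agent.Helper37
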