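import Mathlib
import Pool.Agent.Helper37.Generic

open Polynomial

namespace Pool.Agent.Helper37

variable {F : Type*} [Field F] {d₁ d₂ : ℕ}

/-! ### Full rank from injectivity and conversely -/

lemma full_of_inj {f : Fin 3 → F[X][X]} {m n : ℕ}
    (h : ∀ g : Fin 3 → F[X][X], (∀ i, g i ∈ BB F m n) → ∑ i, f i * g i = 0 → ∀ i, g i = 0) :
    3 * (m * n) ≤ Module.finrank F (Im f m n) := by
  have hinj : Function.Injective (muB f m n) := by
    refine (injective_iff_map_eq_zero _).2 (fun v hv => ?_)
    have := h (fun i => toB F m n (v i)) (fun i => toB_mem _ _ _) hv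
    funext i
    exact toB_eq_zero (this i)
  have h1 := LinearMap.finrank_range_of_inj hinj
  have h2 : Module.finrank F (Fin 3 → Fin m × Fin n → F) = 3 * (m * n) := by
    rw [Module.finrank_pi_fintype]
    simp
  rw [Im, h1, h2]

lemma inj_of_full {f : Fin 3 → F[X][X]} {m n : ℕ}
    (h : 3 * (m * n) ≤ Module.finrank F (Im f m n)) (g : Fin 3 → F[X][X])
    (hg : ∀ i, g i ∈ BB F m n) (h0 : ∑ i, f i * g i = 0) : ∀ i, g i = 0 := by
  have h1 := LinearMap.finrank_range_add_finrank_ker (muB f m n)
  have h2 : Module.finrank F (Fin 3 → Fin m × Fin n → F) = 3 * (m * n) := by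
    rw [Module.finrank_pi_fintype]
    simp
  rw [h2] at h1
  rw [Im] at h
  have h3 : Module.finrank F (LinearMap.ker (muB f m n)) = 0 := by omega
  rw [Submodule.finrank_eq_zero] at h3
  have h4 : (fun i => coB F m n (g i)) ∈ LinearMap.ker (muB f m n) := by
    rw [LinearMap.mem_ker, muB_apply, ← h0]
    exact Finset.sum_congr rfl (fun i _ => by rw [toB_coB (hg i)])
  rw [h3, Submodule.mem_bot] at h4
  intro i
  exact coB_inj (hg i) (congrFun h4 i)

lemma natDegree_le_of_mem {P : F[X][X]} {m n : ℕ} (h : P ∈ BB F (m + 1) n) :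
    P.natDegree ≤ m := by
  rw [natDegree_le_iff_coeff_eq_zero]
  intro N hN
  ext y
  exact h N y (Or.inl hN)

/-- Injectivity of the top coefficients gives injectivity in every degree. -/
lemma full_of_top {f : Fin 3 → F[X][X]} (hf : ∀ i, f i ∈ BB F (d₁ + 1) (d₂ + 1)) {n : ℕ}
    (h : 3 * (1 * n) ≤ Module.finrank F (Im (topf f d₁) 1 n)) (m : ℕ) :
    3 * (m * n) ≤ Module.finrank F (Im f m n) := by
  have htop := inj_of_full h
  have key : ∀ m, ∀ g : Fin 3 → F[X][X], (∀ i, g i ∈ BB F m n) → ∑ i, f i * g i = 0 →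
      ∀ i, g i = 0 := by
    intro m
    induction m with
    | zero =>
      intro g hg _ i
      exact BB_zero_left n (hg i)
    | succ m ih =>
      intro g hg h0
      have h1 := htop (fun i => C ((g i).coeff m)) (fun i => by
        intro p z hpz
        unfold cc
        rw [coeff_C]
        split_ifs with h2
        · exact hg i m z (Or.inr (by omega))
        · exact coeff_zero z) (by
        have h2 := congrArg (fun P => Polynomial.coeff P (d₁ + m)) h0
        simp only [finsetSum_coeff, coeff_zero] at h2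
        have h3 : ∑ i, topf f d₁ i * C ((g i).coeff m)
            = C (∑ i, (f i).coeff d₁ * (g i).coeff m) := by
          rw [map_sum]
          refine Finset.sum_congr rfl (fun i _ => ?_)
          rw [topf, ← C_mul]
        have h4 : ∑ i, (f i).coeff d₁ * (g i).coeff m = ∑ i, (f i * g i).coeff (d₁ + m) := by
          refine Finset.sum_congr rfl (fun i _ => ?_)
          rw [coeff_mul_add_eq_of_natDegree_le (natDegree_le_of_mem (hf i)) (natDegree_le_of_mem (hg i))]
        rw [h3, h4, h2, C_0])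
      refine ih g (fun i => ?_) h0
      intro p z hpz
      by_cases hp : p = m
      · have h2 := h1 i
        rw [C_eq_zero] at h2
        unfold cc
        rw [hp, h2, coeff_zero]
      · exact hg i p z (by omega)
  exact full_of_inj (key m)

/-! ### First example: separated top coefficients -/

/-- The first example. -/
noncomputable def ex1 (F : Type*) [Field F] (d₁ n : ℕ) (i : Fin 3) : F[X][X] :=
  monomial d₁ (X ^ ((i : ℕ) * n))

lemma ex1_mem {n : ℕ} (hn : 2 * n ≤ d₂) (i : Fin 3) : ex1 F d₁ n i ∈ BB F (d₁ + 1) (d₂ + 1) := by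
  intro p z h
  unfold ex1 cc
  rw [coeff_monomial]
  split_ifs with h1
  · rw [coeff_X_pow, if_neg]
    have hi : (i : ℕ) * n ≤ 2 * n := Nat.mul_le_mul_right n (by omega)
    omega
  · exact coeff_zero z

lemma ex1_top (n : ℕ) : 3 * (1 * n) ≤ Module.finrank F (Im (topf (ex1 F d₁ n) d₁) 1 n) := by
  refine full_of_inj (fun g hg h0 => ?_)
  have htop : ∀ i, topf (ex1 F d₁ n) d₁ i = C (X ^ ((i : ℕ) * n)) := by
    intro i
    unfold topf ex1
    rw [coeff_monomial, if_pos rfl]
  intro i
  apply cc_ext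
  intro p z
  rw [cc_zero]
  by_cases hz : n ≤ z
  · exact hg i p z (Or.inr hz)
  · have h1 := congrArg (fun P => cc P p (z + (i : ℕ) * n)) h0
    simp only [cc_sum, cc_zero] at h1
    rw [Finset.sum_eq_single_of_mem i (Finset.mem_univ i)] at h1
    · rw [htop, cc_CX_mul, if_pos (by omega), Nat.add_sub_cancel] at h1
      exact h1
    · intro j _ hj
      rw [htop, cc_CX_mul]
      split_ifs with h2
      · apply hg j
        right
        have h3 : (j : ℕ) < i := by
          by_contra h4
          have h5 : (i : ℕ) + 1 ≤ j := by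
            have : (i : ℕ) ≠ j := fun h => hj (Fin.ext h.symm)
            omega
          have h6 : ((i : ℕ) + 1) * n ≤ (j : ℕ) * n := Nat.mul_le_mul_right n h5
          rw [add_mul, one_mul] at h6
          omega
        have h4 : ((j : ℕ) + 1) * n ≤ (i : ℕ) * n := Nat.mul_le_mul_right n h3
        rw [add_mul, one_mul] at h4
        omega
      · rfl

/-! ### Second example: binomials -/

/-- The second example. -/
noncomputable def ex2 (F : Type*) [Field F] (d₁ d₂ : ℕ) : Fin 3 → F[X][X] :=
  ![monomial d₁ (X ^ d₂), 1, monomial d₁ 1 + C (X ^ d₂)]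

/-- Monomials. -/
noncomputable def mono (F : Type*) [Field F] (x y : ℕ) : F[X][X] := monomial x (monomial y 1)

lemma cc_mono (x y p z : ℕ) : cc (mono F x y) p z = if x = p ∧ y = z then 1 else 0 := by
  unfold mono cc
  rw [coeff_monomial]
  by_cases hx : x = p
  · rw [if_pos hx, coeff_monomial]
    by_cases hy : y = z
    · rw [if_pos hy, if_pos ⟨hx, hy⟩]
    · rw [if_neg hy, if_neg (by tauto)]
  · rw [if_neg hx, coeff_zero, if_neg (by tauto)]

lemma mono_mem {x y m n : ℕ} (hx : x < m) (hy : y < n) : mono F x y ∈ BB F m n := by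
  intro p z h
  rw [cc_mono, if_neg (by omega)]

lemma mono_mul (x y p z : ℕ) : mono F x y * mono F p z = mono F (x + p) (y + z) := by
  unfold mono
  rw [monomial_mul_monomial, monomial_mul_monomial, mul_one]

lemma BB_le_of_mono {m n : ℕ} {W : Submodule F F[X][X]}
    (h : ∀ x y, x < m → y < n → mono F x y ∈ W) : BB F m n ≤ W := by
  intro P hP
  have : P = ∑ p ∈ Finset.range m, ∑ z ∈ Finset.range n, cc P p z • mono F p z := by
    apply cc_ext
    intro x y
    rw [cc_sum]
    simp_rw [cc_sum, cc_smul, cc_mono]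
    by_cases hx : x < m
    · rw [Finset.sum_eq_single_of_mem x (Finset.mem_range.2 hx)]
      · by_cases hy : y < n
        · rw [Finset.sum_eq_single_of_mem y (Finset.mem_range.2 hy)]
          · rw [if_pos ⟨rfl, rfl⟩, mul_one]
          · intro j _ hj
            rw [if_neg (by tauto), mul_zero]
        · rw [hP x y (Or.inr (by omega))]
          symm
          refine Finset.sum_eq_zero (fun j hj => ?_)
          rw [Finset.mem_range] at hj
          rw [if_neg (by omega), mul_zero]
      · intro j _ hj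
        refine Finset.sum_eq_zero (fun k _ => ?_)
        rw [if_neg (by tauto), mul_zero]
    · rw [hP x y (Or.inl (by omega))]
      symm
      refine Finset.sum_eq_zero (fun j hj => Finset.sum_eq_zero (fun k _ => ?_))
      rw [Finset.mem_range] at hj
      rw [if_neg (by omega), mul_zero]
  rw [this]
  exact Submodule.sum_mem _ (fun p hp => Submodule.sum_mem _ (fun z hz =>
    Submodule.smul_mem _ _ (h p z (Finset.mem_range.1 hp) (Finset.mem_range.1 hz))))

lemma ex2_eq : ex2 F d₁ d₂ = ![mono F d₁ d₂, mono F 0 0, mono F d₁ 0 + mono F 0 d₂] := by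
  unfold ex2 mono
  simp [X_pow_eq_monomial]

lemma ex2_mem (i : Fin 3) : ex2 F d₁ d₂ i ∈ BB F (d₁ + 1) (d₂ + 1) := by
  rw [ex2_eq]
  exact triple_mem (mono_mem (by omega) (by omega)) (mono_mem (by omega) (by omega))
    (Submodule.add_mem _ (mono_mem (by omega) (by omega)) (mono_mem (by omega) (by omega))) i

theorem ex2_rank {m n : ℕ} (hm : d₁ ≤ m) (hn : d₂ ≤ n) :
    (m + d₁) * (n + d₂) ≤ Module.finrank F (Im (ex2 F d₁ d₂) m n)
      + (2 * d₁ - m) * (2 * d₂ - n) := by
  have hI : ∀ x y, x < m + d₁ → y < n + d₂ → (x < m ∧ y < n) ∨ (d₁ ≤ x ∧ d₂ ≤ y) →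
      mono F x y ∈ Im (ex2 F d₁ d₂) m n := by
    rintro x y hx hy (⟨h1, h2⟩ | ⟨h1, h2⟩)
    · rw [ex2_eq]
      refine mem_Im3 (g0 := 0) (g1 := mono F x y) (g2 := 0) (Submodule.zero_mem _)
        (mono_mem h1 h2) (Submodule.zero_mem _) ?_
      rw [mul_zero, mul_zero, zero_add, add_zero, mono_mul, zero_add, zero_add]
    · rw [ex2_eq]
      refine mem_Im3 (g0 := mono F (x - d₁) (y - d₂)) (g1 := 0) (g2 := 0)
        (mono_mem (by omega) (by omega)) (Submodule.zero_mem _) (Submodule.zero_mem _) ?_
      rw [mul_zero, mul_zero, add_zero, add_zero, mono_mul, Nat.add_sub_cancel' h1,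
        Nat.add_sub_cancel' h2]
  have hrel : ∀ p z, p < m → z < n →
      mono F (p + d₁) z + mono F p (z + d₂) ∈ Im (ex2 F d₁ d₂) m n := by
    intro p z hp hz
    rw [ex2_eq]
    refine mem_Im3 (g0 := 0) (g1 := 0) (g2 := mono F p z) (Submodule.zero_mem _)
      (Submodule.zero_mem _) (mono_mem hp hz) ?_
    rw [mul_zero, mul_zero, zero_add, zero_add, add_mul, mono_mul, mono_mul, add_comm d₁,
      zero_add, zero_add, add_comm d₂]
  let E : Submodule F F[X][X] := (BB F (2 * d₁ - m) (2 * d₂ - n)).map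
    (LinearMap.mulLeft F (mono F (m - d₁) n))
  have hE : ∀ x y, m - d₁ ≤ x → x < d₁ → n ≤ y → y < 2 * d₂ → mono F x y ∈ E := by
    intro x y h1 h2 h3 h4
    refine ⟨mono F (x - (m - d₁)) (y - n), mono_mem (by omega) (by omega), ?_⟩
    rw [LinearMap.mulLeft_apply, mono_mul, Nat.add_sub_cancel' h1, Nat.add_sub_cancel' h3]
  have hle : BB F (m + d₁) (n + d₂) ≤ Im (ex2 F d₁ d₂) m n ⊔ E := by
    refine BB_le_of_mono (fun x y hx hy => ?_)
    have step : ∀ {a b : F[X][X]}, a + b ∈ Im (ex2 F d₁ d₂) m n →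
        b ∈ Im (ex2 F d₁ d₂) m n ⊔ E → a ∈ Im (ex2 F d₁ d₂) m n ⊔ E := by
      intro a b hab hb
      have := Submodule.sub_mem _ ((le_sup_left : Im (ex2 F d₁ d₂) m n ≤ _) hab) hb
      rwa [add_sub_cancel_right] at this
    -- the top left corner
    have htl : ∀ x y, x < d₁ → n ≤ y → y < n + d₂ →
        mono F x y ∈ Im (ex2 F d₁ d₂) m n ⊔ E := by
      intro x y hx hy1 hy2
      by_cases h1 : m - d₁ ≤ x ∧ y < 2 * d₂
      · exact (le_sup_right : E ≤ _) (hE x y h1.1 hx hy1 h1.2)
      · refine step (b := mono F (x + d₁) (y - d₂)) ?_ ?_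
        · have := hrel x (y - d₂) (by omega) (by omega)
          rwa [Nat.sub_add_cancel (by omega), add_comm] at this
        · refine (le_sup_left : Im (ex2 F d₁ d₂) m n ≤ _) (hI _ _ (by omega) (by omega) ?_)
          omega
    by_cases h1 : (x < m ∧ y < n) ∨ (d₁ ≤ x ∧ d₂ ≤ y)
    · exact (le_sup_left : Im (ex2 F d₁ d₂) m n ≤ _) (hI x y hx hy h1)
    · by_cases h2 : x < d₁
      · exact htl x y h2 (by omega) hy
      · refine step (b := mono F (x - d₁) (y + d₂)) ?_ ?_
        · have := hrel (x - d₁) y (by omega) (by omega)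
          rwa [Nat.sub_add_cancel (by omega)] at this
        · by_cases h3 : (x - d₁ < m ∧ y + d₂ < n) ∨ (d₁ ≤ x - d₁ ∧ d₂ ≤ y + d₂)
          · exact (le_sup_left : Im (ex2 F d₁ d₂) m n ≤ _)
              (hI _ _ (by omega) (by omega) h3)
          · exact htl _ _ (by omega) (by omega) (by omega)
  have h1 := Submodule.finrank_mono hle
  rw [finrank_BB] at h1
  have h2 := Submodule.finrank_add_le_finrank_add_finrank (Im (ex2 F d₁ d₂) m n) E
  have h3 : Module.finrank F E ≤ (2 * d₁ - m) * (2 * d₂ - n) := by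
    refine (Submodule.finrank_map_le _ _).trans ?_
    rw [finrank_BB]
  omega

end Pool.Agent.Helper37
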