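import Mathlib
import Pool.Agent.Helper37.Examples

open Polynomial

namespace Pool.Agent.Helper37

variable {F : Type*} [Field F] {d₁ d₂ : ℕ}

lemma BM_mul_KG {f : Fin 3 → F[X][X]} (hf : ∀ i, f i ∈ BB F (d₁ + 1) (d₂ + 1)) (M N m n : ℕ) :
    BM (fun _ : Fin 1 => f) M N (m + d₁) (n + d₂) * BM (KG f) (m + d₁) (n + d₂) m n = 0 := by
  classical
  apply Matrix.toLin'.injective
  rw [map_zero]
  apply LinearMap.ext
  intro v
  rw [Matrix.toLin'_apply, ← Matrix.mulVec_mulVec, LinearMap.zero_apply]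
  ext r
  rw [BM_mulVec, Pi.zero_apply]
  have h1 : ∀ j, toB F (m + d₁) (n + d₂)
      (fun w => (BM (KG f) (m + d₁) (n + d₂) m n).mulVec v (j, w))
      = ∑ l, KG f j l * toB F m n (fun w => v (l, w)) := by
    intro j
    have h2 : (∑ l, KG f j l * toB F m n (fun w => v (l, w))) ∈ BB F (m + d₁) (n + d₂) :=
      Submodule.sum_mem _ (fun l _ => mul_mem_BB (KG_mem hf j l) (toB_mem _ _ _))
    rw [← toB_coB h2]
    congr 1
    ext w
    rw [BM_mulVec]
    rfl
  have h3 : ∑ j, f j * toB F (m + d₁) (n + d₂)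
      (fun w => (BM (KG f) (m + d₁) (n + d₂) m n).mulVec v (j, w)) = 0 := by
    have h4 : ∀ j, f j * toB F (m + d₁) (n + d₂)
      (fun w => (BM (KG f) (m + d₁) (n + d₂) m n).mulVec v (j, w))
      = ∑ l, (f j * KG f j l) * toB F m n (fun w => v (l, w)) := by
      intro j
      rw [h1, Finset.mul_sum]
      exact Finset.sum_congr rfl (fun l _ => by rw [mul_assoc])
    rw [Finset.sum_congr rfl (fun j _ => h4 j), Finset.sum_comm]
    refine Finset.sum_eq_zero (fun l _ => ?_)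
    rw [← Finset.sum_mul, KG_sum, zero_mul]
  rw [h3, cc_zero]

theorem kos_bound {f : Fin 3 → F[X][X]} (hf : ∀ i, f i ∈ BB F (d₁ + 1) (d₂ + 1)) {m n : ℕ}
    (h : 3 * (m * n) ≤ (BM (KG f) (m + d₁) (n + d₂) m n).rank) :
    Module.finrank F (Im f (m + d₁) (n + d₂)) + 3 * (m * n) ≤ 3 * ((m + d₁) * (n + d₂)) := by
  have h1 := Matrix.rank_add_rank_le_card_of_mul_eq_zero
    (BM_mul_KG hf (m + d₁ + d₁) (n + d₂ + d₂) m n)
  rw [rank_BM_one (Im_le_BB hf (m + d₁) (n + d₂))] at h1
  simp only [Fintype.card_prod, Fintype.card_fin] at h1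
  omega

/-- The third example. -/
noncomputable def ex3 (F : Type*) [Field F] (d₁ d₂ : ℕ) : Fin 3 → F[X][X] :=
  ![mono F d₁ d₂, 1, 0]

lemma ex3_mem (i : Fin 3) : ex3 F d₁ d₂ i ∈ BB F (d₁ + 1) (d₂ + 1) := by
  have h1 : (1 : F[X][X]) = mono F 0 0 := by
    unfold mono
    simp
  unfold ex3
  rw [h1]
  exact triple_mem (mono_mem (by omega) (by omega)) (mono_mem (by omega) (by omega))
    (Submodule.zero_mem _) i

lemma ex3_rank {m n : ℕ} (hm : m ≤ d₁) :
    3 * (m * n) ≤ (BM (KG (ex3 F d₁ d₂)) (m + d₁) (n + d₂) m n).rank := by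
  classical
  have h1 := LinearMap.finrank_range_add_finrank_ker
    (BM (KG (ex3 F d₁ d₂)) (m + d₁) (n + d₂) m n).mulVecLin
  have h2 : LinearMap.ker (BM (KG (ex3 F d₁ d₂)) (m + d₁) (n + d₂) m n).mulVecLin = ⊥ := by
    rw [LinearMap.ker_eq_bot']
    intro v hv
    have h3 : ∀ j, ∑ l, KG (ex3 F d₁ d₂) j l * toB F m n (fun w => v (l, w)) = 0 := by
      intro j
      refine coB_inj (m := m + d₁) (n := n + d₂)
        (Submodule.sum_mem _ (fun l _ => mul_mem_BB (KG_mem ex3_mem j l) (toB_mem _ _ _))) ?_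
      ext w
      have h4 := congrFun hv (j, w)
      rw [Matrix.mulVecLin_apply, BM_mulVec] at h4
      exact h4
    set g0 := toB F m n (fun w => v (0, w)) with hg0
    set g1 := toB F m n (fun w => v (1, w)) with hg1
    set g2 := toB F m n (fun w => v (2, w)) with hg2
    have e0 : g2 = 0 := by
      have h4 := h3 0
      rw [Fin.sum_univ_three, ← hg0, ← hg1, ← hg2] at h4
      simpa [KG, ex3] using h4
    have e2 : g0 - mono F d₁ d₂ * g1 = 0 := by
      have h4 := h3 2
      rw [Fin.sum_univ_three, ← hg0, ← hg1, ← hg2] at h4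
      have h5 : KG (ex3 F d₁ d₂) 2 0 = 1 := by simp [KG, ex3]
      have h6 : KG (ex3 F d₁ d₂) 2 1 = - mono F d₁ d₂ := by simp [KG, ex3]
      have h7 : KG (ex3 F d₁ d₂) 2 2 = 0 := by simp [KG]
      rw [h5, h6, h7] at h4
      linear_combination h4
    have hm0 : g0 ∈ BB F m n := toB_mem _ _ _
    have hmono : mono F d₁ d₂ = X ^ d₁ * C (X ^ d₂) := by
      unfold mono
      rw [← C_mul_X_pow_eq_monomial, X_pow_eq_monomial d₂, mul_comm]
    have hne : mono F d₁ d₂ ≠ 0 := by
      rw [hmono]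
      exact mul_ne_zero (pow_ne_zero _ X_ne_zero) (C_ne_zero.2 (pow_ne_zero _ X_ne_zero))
    have e1 : g0 = 0 := by
      apply cc_ext
      intro x y
      rw [cc_zero]
      by_cases hx : m ≤ x
      · exact hm0 x y (Or.inl hx)
      · rw [sub_eq_zero.1 e2, hmono, mul_assoc]
        unfold cc
        rw [coeff_X_pow_mul', if_neg (by omega), coeff_zero]
    have e3 : g1 = 0 := by
      rw [e1, zero_sub, neg_eq_zero] at e2
      exact (mul_eq_zero.1 e2).resolve_left hne
    have f0 := congrFun (toB_eq_zero e1)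
    have f1 := congrFun (toB_eq_zero e3)
    have f2 := congrFun (toB_eq_zero e0)
    ext ⟨j, w⟩
    match j with
    | 0 => exact f0 w
    | 1 => exact f1 w
    | 2 => exact f2 w
  rw [h2, finrank_bot, add_zero] at h1
  have h3 : Module.finrank F (Fin 3 × Fin m × Fin n → F) = 3 * (m * n) := by
    simp
  rw [Matrix.rank, h1, h3]

end Pool.Agent.Helper37
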