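import Mathlib
import Pool.Agent.Helper37.Koszul

open Polynomial

namespace Pool.Agent.Helper37

variable {K : Type*} [Field K] {d₁ d₂ : ℕ}

theorem big_half (K : Type*) [Field K] (d₁ d₂ : ℕ) (hd₁ : 1 ≤ d₁) :
    IsBig (fun c : Par d₁ d₂ → K => ∀ m n, 1 ≤ n → n < d₂ →
      min (3 * (m * n)) ((m + d₁) * (n + d₂)) ≤ Module.finrank K (Im (fc c) m n)) := by
  have key : ∀ n ∈ Finset.range d₂, IsBig (fun c : Par d₁ d₂ → K => 1 ≤ n → ∀ m,
      min (3 * (m * n)) ((m + d₁) * (n + d₂)) ≤ Module.finrank K (Im (fc c) m n)) := by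
    intro n hn
    rw [Finset.mem_range] at hn
    rcases Nat.eq_zero_or_pos n with h0 | h0
    · exact IsBig.of_forall (fun c h => by omega)
    rcases le_or_gt (2 * n) d₂ with h1 | h1
    · refine (big_top (K := K) (ex1 K d₁ n) (ex1_mem h1) n (ex1_top n)).mono (fun c hc _ m => ?_)
      exact (min_le_left _ _).trans (full_of_top (fc_mem c) hc m)
    · have h2 : IsBig (fun c : Par d₁ d₂ → K => ∀ m ∈ Finset.range (2 * d₁ * d₂ + 1),
          min (3 * (m * n)) ((m + d₁) * (n + d₂)) ≤ Module.finrank K (Im (fc c) m n)) := by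
        refine IsBig.all _ (fun m _ => ?_)
        obtain ⟨e, he⟩ : ∃ e, 2 * n = d₂ + e := Nat.exists_eq_add_of_le h1.le
        obtain ⟨κ, hκ⟩ : ∃ κ, d₂ = n + κ := Nat.exists_eq_add_of_le hn.le
        obtain ⟨f, hf1, hf2⟩ := Ftwo (K := AlgebraicClosure K) κ e d₁ m (by omega) (by omega) hd₁
        have e1 : e + 2 * κ = d₂ := by omega
        have e2 : e + κ = n := by omega
        have e3 : 2 * e + 3 * κ = n + d₂ := by omega
        rw [e1] at hf1
        rw [e2, e3, mul_assoc] at hf2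
        exact big_Im f hf1 m n hf2
      refine h2.mono (fun c hc _ m => ?_)
      rcases le_or_gt m (2 * d₁ * d₂) with h3 | h3
      · exact hc m (Finset.mem_range.2 (by omega))
      · have h4 := hc (2 * d₁ * d₂) (Finset.mem_range.2 (by omega))
        have h5 : (2 * d₁ * d₂ + d₁) * (n + d₂) ≤ 3 * (2 * d₁ * d₂ * n) := by
          have h6 : d₁ * (n + d₂) ≤ 2 * d₁ * d₂ := by nlinarith
          have h7 : 2 * d₁ * d₂ * d₂ + 2 * d₁ * d₂ ≤ 2 * d₁ * d₂ * (2 * n) := by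
            have := Nat.mul_le_mul_left (2 * d₁ * d₂) (show d₂ + 1 ≤ 2 * n by omega)
            linarith [this, mul_add (2 * d₁ * d₂) d₂ 1]
          nlinarith
        rw [min_eq_right h5] at h4
        exact (min_le_right _ _).trans (surj_up hd₁ (fc_mem c) h4 h3.le)
  refine (IsBig.all _ key).mono (fun c hc m n hn1 hn2 => ?_)
  exact hc n (Finset.mem_range.2 hn2) hn1 m

lemma surj_up' {f : Fin 3 → K[X][X]} (hd : 1 ≤ d₂)
    (hf : ∀ i, f i ∈ BB K (d₁ + 1) (d₂ + 1))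
    {m n : ℕ} (h : (m + d₁) * (n + d₂) ≤ Module.finrank K (Im f m n)) {n' : ℕ} (hn : n ≤ n') :
    (m + d₁) * (n' + d₂) ≤ Module.finrank K (Im f m n') := by
  rw [← finrank_Im_swap, mul_comm] at h ⊢
  exact surj_up hd (fun i => swap_mem (hf i)) h hn

theorem big_center (K : Type*) [Field K] (d₁ d₂ : ℕ) (hd₁ : 1 ≤ d₁) (hd₂ : 1 ≤ d₂) :
    IsBig (fun c : Par d₁ d₂ → K => ∀ m n, d₁ ≤ m → d₂ ≤ n →
      (m + d₁) * (n + d₂) ≤ Module.finrank K (Im (fc c) m n)
        + (2 * d₁ - m) * (2 * d₂ - n)) := by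
  have key : IsBig (fun c : Par d₁ d₂ → K => ∀ m ∈ Finset.range (2 * d₁ + 1),
      ∀ n ∈ Finset.range (2 * d₂ + 1), d₁ ≤ m → d₂ ≤ n →
      (m + d₁) * (n + d₂) ≤ Module.finrank K (Im (fc c) m n)
        + (2 * d₁ - m) * (2 * d₂ - n)) := by
    refine IsBig.all _ (fun m _ => IsBig.all _ (fun n _ => ?_))
    by_cases h1 : d₁ ≤ m
    · by_cases h2 : d₂ ≤ n
      · have h3 := ex2_rank (F := K) h1 h2
        rw [← Nat.sub_le_iff_le_add] at h3
        refine (big_Im (ex2 K d₁ d₂) ex2_mem m n h3).mono (fun c hc _ _ => ?_)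
        rw [← Nat.sub_le_iff_le_add]
        exact hc
      · exact IsBig.of_forall (fun c _ h => absurd h h2)
    · exact IsBig.of_forall (fun c h _ => absurd h h1)
  refine key.mono (fun c hc m n hm hn => ?_)
  have main : ∀ m n, d₁ ≤ m → d₂ ≤ n → m ≤ 2 * d₁ → n ≤ 2 * d₂ →
      (m + d₁) * (n + d₂) ≤ Module.finrank K (Im (fc c) m n)
        + (2 * d₁ - m) * (2 * d₂ - n) := fun m n h1 h2 h3 h4 =>
    hc m (Finset.mem_range.2 (by omega)) n (Finset.mem_range.2 (by omega)) h1 h2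
  rcases le_or_gt m (2 * d₁) with h1 | h1
  · rcases le_or_gt n (2 * d₂) with h2 | h2
    · exact main m n hm hn h1 h2
    · have h3 := main m (2 * d₂) hm (by omega) h1 le_rfl
      rw [Nat.sub_self, mul_zero, add_zero] at h3
      exact (surj_up' hd₂ (fc_mem c) h3 h2.le).trans (Nat.le_add_right _ _)
  · rcases le_or_gt n (2 * d₂) with h2 | h2
    · have h3 := main (2 * d₁) n (by omega) hn le_rfl h2
      rw [Nat.sub_self, zero_mul, add_zero] at h3
      exact (surj_up hd₁ (fc_mem c) h3 h1.le).trans (Nat.le_add_right _ _)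
    · have h3 := main (2 * d₁) (2 * d₂) (by omega) (by omega) le_rfl le_rfl
      rw [Nat.sub_self, zero_mul, add_zero] at h3
      have h4 := surj_up hd₁ (fc_mem c) h3 h1.le
      exact (surj_up' hd₂ (fc_mem c) h4 h2.le).trans (Nat.le_add_right _ _)

theorem big_koszul (K : Type*) [Field K] (d₁ d₂ : ℕ) :
    IsBig (fun c : Par d₁ d₂ → K => ∀ m n, m ≤ d₁ → n ≤ d₂ →
      Module.finrank K (Im (fc c) (m + d₁) (n + d₂)) + 3 * (m * n)
        ≤ 3 * ((m + d₁) * (n + d₂))) := by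
  have key : IsBig (fun c : Par d₁ d₂ → K => ∀ m ∈ Finset.range (d₁ + 1),
      ∀ n ∈ Finset.range (d₂ + 1), m ≤ d₁ →
      Module.finrank K (Im (fc c) (m + d₁) (n + d₂)) + 3 * (m * n)
        ≤ 3 * ((m + d₁) * (n + d₂))) := by
    refine IsBig.all _ (fun m _ => IsBig.all _ (fun n _ => ?_))
    by_cases h1 : m ≤ d₁
    · refine (big_kos (ex3 K d₁ d₂) ex3_mem (m + d₁) (n + d₂) m n (ex3_rank h1)).mono
        (fun c hc _ => kos_bound (fc_mem c) hc)
    · exact IsBig.of_forall (fun c h => absurd h h1)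
  refine key.mono (fun c hc m n hm hn => ?_)
  exact hc m (Finset.mem_range.2 (by omega)) n (Finset.mem_range.2 (by omega)) hm

/-- The swapped parameters. -/
def swPar (d₁ d₂ : ℕ) : Par d₂ d₁ ≃ Par d₁ d₂ where
  toFun j := (j.1, j.2.2, j.2.1)
  invFun j := (j.1, j.2.2, j.2.1)
  left_inv _ := rfl
  right_inv _ := rfl

lemma fc_swPar (c : Par d₁ d₂ → K) : fc (c ∘ swPar d₁ d₂) = swf (fc c) := by
  funext i
  apply cc_ext
  intro p z
  unfold swf
  rw [cc_swap]
  by_cases h : p < d₂ + 1 ∧ z < d₁ + 1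
  · have h1 := cc_toB (d₂ + 1) (d₁ + 1) (fun w => (c ∘ swPar d₁ d₂) (i, w))
      (⟨p, h.1⟩, ⟨z, h.2⟩)
    have h2 := cc_toB (d₁ + 1) (d₂ + 1) (fun w => c (i, w)) (⟨z, h.2⟩, ⟨p, h.1⟩)
    exact h1.trans h2.symm
  · rw [fc_mem _ i p z (by omega), fc_mem _ i z p (by omega)]

theorem big_half' (K : Type*) [Field K] (d₁ d₂ : ℕ) (hd₂ : 1 ≤ d₂) :
    IsBig (fun c : Par d₁ d₂ → K => ∀ m n, 1 ≤ m → m < d₁ →
      min (3 * (m * n)) ((m + d₁) * (n + d₂)) ≤ Module.finrank K (Im (fc c) m n)) := by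
  refine ((big_half K d₂ d₁ hd₂).reindex (swPar d₁ d₂)).mono (fun c hc m n h1 h2 => ?_)
  have h3 := hc n m h1 h2
  rw [fc_swPar, finrank_Im_swap, mul_comm n m, mul_comm (n + d₂)] at h3
  exact h3

/-- The dimension of the space of forms of bidegree `(a, b)`. -/
def dimR (a b : ℤ) : ℤ := if 0 ≤ a ∧ 0 ≤ b then (a + 1) * (b + 1) else 0

/-- The Euler characteristic of the Koszul complex in bidegree `(a, b)`. -/
def chi (d₁ d₂ a b : ℤ) : ℤ :=
  dimR a b - 3 * dimR (a - d₁) (b - d₂) + 3 * dimR (a - 2 * d₁) (b - 2 * d₂)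
    - dimR (a - 3 * d₁) (b - 3 * d₂)

end Pool.Agent.Helper37
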