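import Mathlib
import Pool.Agent.Helper37.Cond

open Polynomial

namespace Pool.Agent.Helper37

variable {K : Type*} [Field K] {d₁ d₂ : ℕ}

lemma dimR_shift (m n d₁ d₂ k : ℕ) (hm : 1 ≤ m) (hn : 1 ≤ n) :
    dimR (((m + d₁ - 1 : ℕ) : ℤ) - (k + 1) * d₁) (((n + d₂ - 1 : ℕ) : ℤ) - (k + 1) * d₂)
      = if k * d₁ < m ∧ k * d₂ < n then ((m : ℤ) - k * d₁) * ((n : ℤ) - k * d₂) else 0 := by
  have e1 : ((m + d₁ - 1 : ℕ) : ℤ) = m + d₁ - 1 := by
    push_cast [Nat.cast_sub (show 1 ≤ m + d₁ by omega)]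
    ring
  have e2 : ((n + d₂ - 1 : ℕ) : ℤ) = n + d₂ - 1 := by
    push_cast [Nat.cast_sub (show 1 ≤ n + d₂ by omega)]
    ring
  rw [e1, e2]
  unfold dimR
  have e3 : (m : ℤ) + d₁ - 1 - (k + 1) * d₁ = m - k * d₁ - 1 := by ring
  have e4 : (n : ℤ) + d₂ - 1 - (k + 1) * d₂ = n - k * d₂ - 1 := by ring
  rw [e3, e4]
  by_cases h : k * d₁ < m ∧ k * d₂ < n
  · rw [if_pos h]
    have h1 : ((k * d₁ : ℕ) : ℤ) < m := by exact_mod_cast h.1
    have h2 : ((k * d₂ : ℕ) : ℤ) < n := by exact_mod_cast h.2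
    push_cast at h1 h2
    rw [if_pos ⟨by linarith, by linarith⟩]
    ring
  · rw [if_neg h, if_neg]
    rintro ⟨h1, h2⟩
    apply h
    constructor
    · have h3 : ((k * d₁ : ℕ) : ℤ) < m := by push_cast; linarith
      exact_mod_cast h3
    · have h3 : ((k * d₂ : ℕ) : ℤ) < n := by push_cast; linarith
      exact_mod_cast h3

lemma chi_shift (m n d₁ d₂ : ℕ) (hm : 1 ≤ m) (hn : 1 ≤ n) :
    chi d₁ d₂ ((m + d₁ - 1 : ℕ) : ℤ) ((n + d₂ - 1 : ℕ) : ℤ)
      = ((m : ℤ) + d₁) * ((n : ℤ) + d₂) - 3 * (m * n)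
        + 3 * (if d₁ < m ∧ d₂ < n then ((m : ℤ) - d₁) * ((n : ℤ) - d₂) else 0)
        - (if 2 * d₁ < m ∧ 2 * d₂ < n then ((m : ℤ) - 2 * d₁) * ((n : ℤ) - 2 * d₂) else 0) := by
  have h0 := dimR_shift m n d₁ d₂ 0 hm hn
  have h1 := dimR_shift m n d₁ d₂ 1 hm hn
  have h2 := dimR_shift m n d₁ d₂ 2 hm hn
  have h3 : dimR ((m + d₁ - 1 : ℕ) : ℤ) ((n + d₂ - 1 : ℕ) : ℤ)
      = ((m : ℤ) + d₁) * ((n : ℤ) + d₂) := by
    unfold dimR
    rw [if_pos ⟨Int.natCast_nonneg _, Int.natCast_nonneg _⟩]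
    have e1 : ((m + d₁ - 1 : ℕ) : ℤ) = m + d₁ - 1 := by
      push_cast [Nat.cast_sub (show 1 ≤ m + d₁ by omega)]
      ring
    have e2 : ((n + d₂ - 1 : ℕ) : ℤ) = n + d₂ - 1 := by
      push_cast [Nat.cast_sub (show 1 ≤ n + d₂ by omega)]
      ring
    rw [e1, e2]
    ring
  unfold chi
  rw [h3]
  norm_num at h0 h1 h2
  rw [if_pos ⟨by omega, by omega⟩] at h0
  rw [h0, h1, h2]

/-- The numerical heart: all ranks are determined by the four generic conditions. -/
lemma count {N : ℕ} {m n d₁ d₂ : ℕ} (hm : 1 ≤ m) (hn : 1 ≤ n)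
    (u1 : N ≤ 3 * (m * n)) (u2 : N ≤ (m + d₁) * (n + d₂))
    (l1 : n < d₂ → min (3 * (m * n)) ((m + d₁) * (n + d₂)) ≤ N)
    (l2 : m < d₁ → min (3 * (m * n)) ((m + d₁) * (n + d₂)) ≤ N)
    (l3 : d₁ ≤ m → d₂ ≤ n → (m + d₁) * (n + d₂) ≤ N + (2 * d₁ - m) * (2 * d₂ - n))
    (u3 : d₁ ≤ m → d₂ ≤ n → m ≤ 2 * d₁ → n ≤ 2 * d₂ →
      N + 3 * ((m - d₁) * (n - d₂)) ≤ 3 * (m * n)) :
    ((m : ℤ) + d₁) * ((n : ℤ) + d₂) - N
      = max (chi d₁ d₂ ((m + d₁ - 1 : ℕ) : ℤ) ((n + d₂ - 1 : ℕ) : ℤ)) 0 := by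
  rw [chi_shift m n d₁ d₂ hm hn]
  by_cases hc : n < d₂ ∨ m < d₁
  · have hmin : min (3 * (m * n)) ((m + d₁) * (n + d₂)) ≤ N := by
      rcases hc with h | h
      · exact l1 h
      · exact l2 h
    have hN : N = min (3 * (m * n)) ((m + d₁) * (n + d₂)) := le_antisymm (le_min u1 u2) hmin
    rw [if_neg (by omega), if_neg (by omega), mul_zero, add_zero, sub_zero]
    rcases le_total (3 * (m * n)) ((m + d₁) * (n + d₂)) with h | h
    · rw [min_eq_left h] at hN
      rw [hN]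
      have h' : ((3 * (m * n) : ℕ) : ℤ) ≤ (((m + d₁) * (n + d₂) : ℕ) : ℤ) := by exact_mod_cast h
      push_cast at h' ⊢
      rw [max_eq_left (by linarith)]
    · rw [min_eq_right h] at hN
      rw [hN]
      have h' : (((m + d₁) * (n + d₂) : ℕ) : ℤ) ≤ ((3 * (m * n) : ℕ) : ℤ) := by exact_mod_cast h
      push_cast at h' ⊢
      rw [max_eq_right (by linarith)]
      ring
  · push Not at hc
    obtain ⟨hn', hm'⟩ := hc
    obtain ⟨x, rfl⟩ := Nat.exists_eq_add_of_le hm'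
    obtain ⟨y, rfl⟩ := Nat.exists_eq_add_of_le hn'
    have l := l3 (by omega) (by omega)
    have e1 : (if d₁ < d₁ + x ∧ d₂ < d₂ + y then
        (((d₁ + x : ℕ) : ℤ) - d₁) * (((d₂ + y : ℕ) : ℤ) - d₂) else 0) = (x : ℤ) * y := by
      push_cast
      split_ifs with h
      · ring
      · have : x = 0 ∨ y = 0 := by omega
        rcases this with h1 | h1 <;> simp [h1]
    rw [e1]
    by_cases hs : d₁ ≤ x ∨ d₂ ≤ y
    · have hN : N = (d₁ + x + d₁) * (d₂ + y + d₂) := by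
        refine le_antisymm u2 ?_
        have : (2 * d₁ - (d₁ + x)) * (2 * d₂ - (d₂ + y)) = 0 := by
          rcases hs with h | h
          · rw [Nat.sub_eq_zero_of_le (by omega), zero_mul]
          · rw [Nat.sub_eq_zero_of_le (by omega : 2 * d₂ ≤ d₂ + y), mul_zero]
        rw [this] at l
        exact l
      rw [hN]
      push_cast
      rw [sub_self]
      symm
      apply max_eq_right
      by_cases hb : 2 * d₁ < d₁ + x ∧ 2 * d₂ < d₂ + y
      · rw [if_pos hb]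
        apply le_of_eq
        ring
      · rw [if_neg hb]
        have h3 : ((x : ℤ) - d₁) * ((y : ℤ) - d₂) ≤ 0 := by
          rcases hs with h | h
          · have h4 : (0 : ℤ) ≤ (x : ℤ) - d₁ := by
              have : (d₁ : ℤ) ≤ x := by exact_mod_cast h
              linarith
            by_cases hx : x = d₁
            · rw [hx]; simp
            · have h5 : (y : ℤ) - d₂ ≤ 0 := by
                have : y ≤ d₂ := by omega
                have : (y : ℤ) ≤ d₂ := by exact_mod_cast this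
                linarith
              exact mul_nonpos_of_nonneg_of_nonpos h4 h5
          · have h4 : (0 : ℤ) ≤ (y : ℤ) - d₂ := by
              have : (d₂ : ℤ) ≤ y := by exact_mod_cast h
              linarith
            by_cases hy : y = d₂
            · rw [hy]; simp
            · have h5 : (x : ℤ) - d₁ ≤ 0 := by
                have : x ≤ d₁ := by omega
                have : (x : ℤ) ≤ d₁ := by exact_mod_cast this
                linarith
              exact mul_nonpos_of_nonpos_of_nonneg h5 h4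
        nlinarith
    · push Not at hs
      obtain ⟨hx, hy⟩ := hs
      have u := u3 (by omega) (by omega) (by omega) (by omega)
      rw [Nat.add_sub_cancel_left, Nat.add_sub_cancel_left] at u
      rw [if_neg (by omega)]
      obtain ⟨p, rfl⟩ := Nat.exists_eq_add_of_lt hx
      obtain ⟨q, rfl⟩ := Nat.exists_eq_add_of_lt hy
      rw [show 2 * (x + p + 1) - (x + p + 1 + x) = p + 1 by omega,
        show 2 * (y + q + 1) - (y + q + 1 + y) = q + 1 by omega] at l
      have hN : (N : ℤ) = ((x + p + 1 + x : ℕ) + (x + p + 1 : ℕ)) *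
          ((y + q + 1 + y : ℕ) + (y + q + 1 : ℕ)) - (p + 1) * (q + 1) := by
        apply le_antisymm
        · zify at u
          push_cast
          linarith
        · zify at l
          push_cast
          linarith
      rw [hN]
      push_cast
      rw [max_eq_left]
      · ring
      · have hp : (0 : ℤ) ≤ (p : ℤ) := Int.natCast_nonneg p
        have hq : (0 : ℤ) ≤ (q : ℤ) := Int.natCast_nonneg q
        have hpq : (0 : ℤ) ≤ ((p : ℤ) + 1) * (q + 1) := by positivity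
        linarith

theorem big_all (K : Type*) [Field K] (d₁ d₂ : ℕ) (hd₁ : 1 ≤ d₁) (hd₂ : 1 ≤ d₂) :
    IsBig (fun c : Par d₁ d₂ → K => ∀ a b : ℕ,
      ((a : ℤ) + 1) * ((b : ℤ) + 1) - Module.finrank K (Im (fc c) (a + 1 - d₁) (b + 1 - d₂))
        = max (chi d₁ d₂ a b) 0) := by
  refine (((big_half K d₁ d₂ hd₁).and (big_half' K d₁ d₂ hd₂)).and
    ((big_center K d₁ d₂ hd₁ hd₂).and (big_koszul K d₁ d₂))).mono (fun c hc a b => ?_)
  obtain ⟨⟨h1, h2⟩, h3, h4⟩ := hc
  by_cases hab : a < d₁ ∨ b < d₂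
  · have h5 : Module.finrank K (Im (fc c) (a + 1 - d₁) (b + 1 - d₂)) = 0 := by
      have h6 := finrank_Im_le (fc c) (a + 1 - d₁) (b + 1 - d₂)
      have h7 : (a + 1 - d₁) * (b + 1 - d₂) = 0 := by
        rcases hab with h | h
        · rw [Nat.sub_eq_zero_of_le (by omega), zero_mul]
        · rw [Nat.sub_eq_zero_of_le (by omega : b + 1 ≤ d₂), mul_zero]
      rw [h7] at h6
      omega
    rw [h5]
    unfold chi dimR
    rw [if_pos ⟨Int.natCast_nonneg _, Int.natCast_nonneg _⟩, if_neg (by omega), if_neg (by omega),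
      if_neg (by omega)]
    rw [max_eq_left]
    · ring
    · have : (0 : ℤ) ≤ ((a : ℤ) + 1) * (b + 1) := by positivity
      linarith
  · push Not at hab
    obtain ⟨ha, hb⟩ := hab
    obtain ⟨m, hm⟩ : ∃ m, a + 1 = m + d₁ := ⟨a + 1 - d₁, by omega⟩
    obtain ⟨n, hn⟩ : ∃ n, b + 1 = n + d₂ := ⟨b + 1 - d₂, by omega⟩
    have hm1 : 1 ≤ m := by omega
    have hn1 : 1 ≤ n := by omega
    have e1 : a + 1 - d₁ = m := by omega
    have e2 : b + 1 - d₂ = n := by omega
    have e3 : a = m + d₁ - 1 := by omega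
    have e4 : b = n + d₂ - 1 := by omega
    have e5 : (a : ℤ) + 1 = m + d₁ := by exact_mod_cast hm
    have e6 : (b : ℤ) + 1 = n + d₂ := by exact_mod_cast hn
    rw [e1, e2, e5, e6, e3, e4]
    refine count hm1 hn1 (finrank_Im_le _ _ _) (finrank_Im_le' (fc_mem c) _ _)
      (fun h => h1 m n hn1 h) (fun h => h2 m n hm1 h) (fun h h' => h3 m n h h')
      (fun h h' h'' h''' => ?_)
    have := h4 (m - d₁) (n - d₂) (by omega) (by omega)
    rwa [Nat.sub_add_cancel h, Nat.sub_add_cancel h'] at this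

end Pool.Agent.Helper37
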